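import Mathlib

namespace Pool.Agent.Lib.MP_3b1384_co
open PowerSeries
open Finset hiding mk

variable {R : Type*} [CommRing R]

noncomputable def sh (φ : R⟦X⟧) : R⟦X⟧ := mk fun n => coeff (n + 1) φ

lemma sh_spec (φ : R⟦X⟧) : φ = C (constantCoeff φ) + X * sh φ := by
  rw [add_comm]; exact eq_X_mul_shift_add_const φ

lemma sh_add (φ ψ : R⟦X⟧) : sh (φ + ψ) = sh φ + sh ψ := by ext n; simp [sh]
lemma sh_sub (φ ψ : R⟦X⟧) : sh (φ - ψ) = sh φ - sh ψ := by ext n; simp [sh]
lemma sh_C (c : R) : sh (C c : R⟦X⟧) = 0 := by ext n; simp [sh, coeff_C]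
lemma sh_X_mul (φ : R⟦X⟧) : sh (X * φ) = φ := by ext n; simp [sh, coeff_succ_X_mul]
lemma sh_C_mul (c : R) (φ : R⟦X⟧) : sh (C c * φ) = C c * sh φ := by ext n; simp [sh]

lemma sh_mul (φ ψ : R⟦X⟧) : sh (φ * ψ) = sh φ * ψ + C (constantCoeff φ) * sh ψ := by
  have : φ * ψ = C (constantCoeff φ) * ψ + X * (sh φ * ψ) := by
    conv_lhs => rw [sh_spec φ]
    ring
  rw [this, sh_add, sh_C_mul, sh_X_mul, add_comm]

noncomputable def U (r φ : R⟦X⟧) : R⟦X⟧ := sh φ + r * φ

noncomputable def lam (r φ : R⟦X⟧) (n : ℕ) : R := constantCoeff ((U r)^[n] φ)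

lemma lam_zero (r φ : R⟦X⟧) : lam r φ 0 = constantCoeff φ := rfl

lemma lam_succ (r φ : R⟦X⟧) (n : ℕ) : lam r φ (n + 1) = lam r (U r φ) n := by
  simp [lam, Function.iterate_succ_apply]

lemma lam_add (r φ ψ : R⟦X⟧) (n : ℕ) : lam r (φ + ψ) n = lam r φ n + lam r ψ n := by
  induction n generalizing φ ψ with
  | zero => simp [lam_zero]
  | succ n ih =>
    rw [lam_succ, lam_succ, lam_succ, ← ih]; congr 1; simp [U, sh_add]; ring

lemma lam_C_mul (r φ : R⟦X⟧) (c : R) (n : ℕ) : lam r (C c * φ) n = c * lam r φ n := by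
  induction n generalizing φ with
  | zero => simp [lam_zero]
  | succ n ih =>
    rw [lam_succ, lam_succ, ← ih]; congr 1; simp [U, sh_C_mul]; ring

lemma map_sh {S : Type*} [CommRing S] (f : R →+* S) (φ : R⟦X⟧) :
    map f (sh φ) = sh (map f φ) := by ext n; simp [sh]

lemma map_lam {S : Type*} [CommRing S] (f : R →+* S) (r φ : R⟦X⟧) (n : ℕ) :
    f (lam r φ n) = lam (map f r) (map f φ) n := by
  induction n generalizing φ with
  | zero =>
    rw [lam_zero, lam_zero, ← coeff_zero_eq_constantCoeff_apply, ← coeff_zero_eq_constantCoeff_apply,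
      coeff_map]
  | succ n ih => rw [lam_succ, lam_succ, ih]; congr 1; simp [U, map_sh]

lemma lam_conj (σ : R⟦X⟧ →+* R⟦X⟧) (q r r1 : R⟦X⟧) (hX : σ X = X * q) (hC : ∀ c, σ (C c) = C c)
    (hq : constantCoeff q = 1) (h : sh q + (r1 - σ r) * q = 0) (φ : R⟦X⟧) (n : ℕ) :
    lam r1 (q * σ φ) n = lam r φ n := by
  have key : ∀ φ : R⟦X⟧, σ φ = C (constantCoeff φ) + X * (q * σ (sh φ)) := by
    intro φ
    conv_lhs => rw [sh_spec φ]
    rw [map_add, map_mul, hX, hC, mul_assoc]
  induction n generalizing φ with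
  | zero => rw [lam_zero, lam_zero, key φ]; simp [hq]
  | succ n ih =>
    rw [lam_succ, lam_succ, ← ih]; congr 1
    have h1 : sh (σ φ) = q * σ (sh φ) := by rw [key φ, sh_add, sh_C, sh_X_mul, zero_add]
    simp only [U]
    rw [sh_mul, h1, hq, map_add, map_mul]
    simp only [map_one, one_mul]
    linear_combination (σ φ) * h

lemma exists_subst (q : R⟦X⟧) : ∃ σ : R⟦X⟧ →+* R⟦X⟧, σ X = X * q ∧ ∀ c, σ (C c) = C c := by
  have hs : HasSubst (X * q : R⟦X⟧) := HasSubst.of_constantCoeff_zero' (by simp)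
  refine ⟨(substAlgHom (R := R) hs).toRingHom, ?_, fun c => ?_⟩
  · exact substAlgHom_X hs
  · exact (substAlgHom (R := R) hs).commutes c

def H (Y e : R) : ℕ → ℕ → R
  | 0, k => (-e) ^ k * ((k : R) + 1)
  | n + 1, 0 => H Y e n 1
  | n + 1, k + 1 => H Y e n (k + 2) + Y * H Y e n k

lemma U_iter_H (Y e : R) (n : ℕ) :
    (U (C Y * X))^[n] (mk (H Y e 0)) = mk (H Y e n) := by
  induction n with
  | zero => rfl
  | succ n ih =>
    rw [Function.iterate_succ_apply', ih]
    ext k
    cases k with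
    | zero => simp [U, sh, H]
    | succ k => simp [U, sh, H, mul_assoc, coeff_succ_X_mul]

lemma lam_H (Y e : R) (n : ℕ) : lam (C Y * X) (mk (H Y e 0)) n = H Y e n 0 := by
  rw [lam, U_iter_H, ← coeff_zero_eq_constantCoeff_apply, coeff_mk]

lemma H0_mul (Y : R) : (mk (H Y 1 0) : R⟦X⟧) * ((1 + X) * (1 + X)) = 1 := by
  have h1 : (mk (H Y (1 : R) 0) : R⟦X⟧) * (1 + X : R⟦X⟧) = mk fun k => (-1 : R) ^ k := by
    ext k
    cases k with
    | zero => simp [H, mul_add]
    | succ k => simp [H, mul_add, coeff_succ_mul_X]; ring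
  rw [← mul_assoc, h1]
  ext k
  cases k with
  | zero => simp [mul_add]
  | succ k => simp [mul_add, coeff_succ_mul_X, coeff_one]; ring

lemma map_H {S : Type*} [CommRing S] (f : R →+* S) (Y e : R) (n k : ℕ) :
    f (H Y e n k) = H (f Y) (f e) n k := by
  induction n generalizing k with
  | zero => simp [H]
  | succ n ih => cases k <;> simp [H, ih]

lemma H_smul (c Y e : R) (n k : ℕ) : H (c ^ 2 * Y) (c * e) n k = c ^ (n + k) * H Y e n k := by
  induction n generalizing k with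
  | zero => simp only [H, zero_add]; rw [← mul_neg, mul_pow]; ring
  | succ n ih => cases k <;> simp only [H, ih] <;> ring

lemma cumul {K : Type*} [CommRing K] [Algebra K R] (D : Derivation K R R) (d : R) (m : ℕ → R)
    (h0 : m 0 = 1) (hs : ∀ n, m (n + 1) = D (m n) - d * m n) (n : ℕ) :
    m (n + 1) = -∑ i ∈ range (n + 1), (n.choose i : R) * (D^[i] d * m (n - i)) := by
  rw [← Finset.Nat.sum_antidiagonal_eq_sum_range_succ (fun i j => (n.choose i : R) * (D^[i] d * m j))]
  induction n with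
  | zero => simp [hs, h0]
  | succ n ih =>
    rw [hs, ih, Finset.sum_antidiagonal_choose_succ_mul (fun i j => D^[i] d * m j), map_neg, map_sum,
      mul_neg, mul_sum, ← sum_add_distrib, ← neg_add', ← sub_eq_add_neg, ← sum_sub_distrib]
    congr 1
    refine sum_congr rfl fun p hp => ?_
    have : n.choose p.2 = n.choose p.1 := (Nat.choose_symm_of_eq_add (mem_antidiagonal.1 hp).symm).symm
    rw [this, hs, Function.iterate_succ_apply', Derivation.leibniz, Derivation.leibniz]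
    simp only [Derivation.map_natCast, smul_eq_mul]
    ring

lemma cum_unique (m B B' : ℕ → R) (h0 : m 0 = 1)
    (h : ∀ n, m (n + 1) = -∑ i ∈ range (n + 1), (n.choose i : R) * (B i * m (n - i)))
    (h' : ∀ n, m (n + 1) = -∑ i ∈ range (n + 1), (n.choose i : R) * (B' i * m (n - i))) (n : ℕ) :
    B n = B' n := by
  induction n using Nat.strong_induction_on with
  | _ n ih =>
    have e := (h n).symm.trans (h' n)
    rw [sum_range_succ, sum_range_succ, neg_inj,
      sum_congr rfl fun i hi => by rw [ih i (mem_range.1 hi)]] at e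
    simpa [h0] using e

noncomputable def Bc (Y e : R) : ℕ → R
  | n => -H Y e (n + 1) 0 - ∑ i : Fin n, (n.choose i : R) * (Bc Y e i * H Y e (n - i) 0)
  decreasing_by exact i.2

lemma Bc_spec (Y e : R) (n : ℕ) :
    H Y e (n + 1) 0 = -∑ i ∈ range (n + 1), (n.choose i : R) * (Bc Y e i * H Y e (n - i) 0) := by
  rw [sum_range_succ, Bc, sum_range (fun i => (n.choose i : R) * (Bc Y e i * H Y e (n - i) 0))]
  simp [H]

lemma H00 (Y e : R) : H Y e 0 0 = 1 := by simp [H]

lemma map_Bc {S : Type*} [CommRing S] (f : R →+* S) (Y e : R) (n : ℕ) :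
    f (Bc Y e n) = Bc (f Y) (f e) n := by
  refine cum_unique (fun n => H (f Y) (f e) n 0) (fun n => f (Bc Y e n)) _ (H00 _ _) (fun n => ?_)
    (Bc_spec _ _) n
  have := congrArg f (Bc_spec Y e n)
  simpa [map_H] using this

lemma Bc_smul (c Y e : R) (n : ℕ) : Bc (c ^ 2 * Y) (c * e) n = c ^ (n + 1) * Bc Y e n := by
  refine cum_unique (fun n => H (c ^ 2 * Y) (c * e) n 0) _ (fun n => c ^ (n + 1) * Bc Y e n)
    (H00 _ _) (Bc_spec _ _) (fun n => ?_) n
  simp only [H_smul, add_zero]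
  rw [Bc_spec, mul_neg, mul_sum]
  congr 1
  refine sum_congr rfl fun i hi => ?_
  have : n + 1 = (i + 1) + (n - i) := by have := mem_range.1 hi; omega
  rw [this, pow_add]; ring

end Pool.Agent.Lib.MP_3b1384_co
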