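import Pool.Agent.Lib.MP_3b1384_co.Alg

namespace Pool.Agent.Lib.MP_3b1384_co
open PowerSeries Filter Topology Metric
open Finset hiding mk

def NB (R : ℝ) (f : ℂ⟦X⟧) (K : ℝ) : Prop := ∀ n, ∑ m ∈ range n, ‖coeff m f‖ * R ^ m ≤ K
def SB (R : ℝ) (f : ℂ⟦X⟧) (K : ℝ) : Prop := ∀ m, ‖coeff m f‖ * R ^ m ≤ K
noncomputable def eu (f : ℂ⟦X⟧) : ℂ⟦X⟧ := mk fun m => m * coeff m f
noncomputable def ps (f : ℂ⟦X⟧) (z : ℂ) : ℂ := ∑' m, coeff m f * z ^ m

lemma eu_mul (f g : ℂ⟦X⟧) : eu (f * g) = eu f * g + f * eu g := by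
  ext n
  simp only [eu, coeff_mk, coeff_mul, map_add, mul_sum, ← sum_add_distrib]
  refine sum_congr rfl fun p hp => ?_
  rw [← mem_antidiagonal.1 hp]; push_cast; ring

lemma eu_lin (u : ℂ) : eu (1 - C u * X) = -(C u * X) := by
  ext n
  simp only [eu, coeff_mk, map_sub, map_neg, coeff_C_mul, coeff_one, coeff_X]
  split_ifs with h1 h2 h2 <;> simp_all

variable {R K L : ℝ} {f g : ℂ⟦X⟧}

namespace NB

lemma nonneg (h : NB R f K) : 0 ≤ K := by simpa using h 0
lemma mono (h : NB R f K) (e : K ≤ L) : NB R f L := fun n => (h n).trans e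
lemma summable (hR : 0 ≤ R) (h : NB R f K) : Summable fun m => ‖coeff m f‖ * R ^ m :=
  summable_of_sum_range_le (fun _ => by positivity) h
lemma tsum_le (hR : 0 ≤ R) (h : NB R f K) : ∑' m, ‖coeff m f‖ * R ^ m ≤ K :=
  Real.tsum_le_of_sum_range_le (fun _ => by positivity) h
lemma sb (hR : 0 ≤ R) (h : NB R f K) : SB R f K := fun m =>
  (single_le_sum (f := fun m => ‖coeff m f‖ * R ^ m) (fun _ _ => by positivity)
    (self_mem_range_succ m)).trans (h _)
lemma add (hR : 0 ≤ R) (hf : NB R f K) (hg : NB R g L) : NB R (f + g) (K + L) := fun n => by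
  refine le_trans (sum_le_sum fun m _ => ?_) ((sum_add_distrib).trans_le (add_le_add (hf n) (hg n)))
  rw [map_add, ← add_mul]
  exact mul_le_mul_of_nonneg_right (norm_add_le _ _) (by positivity)
lemma neg (hf : NB R f K) : NB R (-f) K := fun n => by simpa using hf n
lemma sub (hR : 0 ≤ R) (hf : NB R f K) (hg : NB R g L) : NB R (f - g) (K + L) := by
  rw [sub_eq_add_neg]; exact hf.add hR hg.neg

lemma coeff_mul_le (hR : 0 ≤ R) (m : ℕ) : ‖coeff m (f * g)‖ * R ^ m ≤
    ∑ p ∈ antidiagonal m, (‖coeff p.1 f‖ * R ^ p.1) * (‖coeff p.2 g‖ * R ^ p.2) := by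
  rw [coeff_mul]
  refine (mul_le_mul_of_nonneg_right (norm_sum_le _ _) (by positivity)).trans (le_of_eq ?_)
  rw [sum_mul]
  refine sum_congr rfl fun p hp => ?_
  rw [← mem_antidiagonal.1 hp, norm_mul, pow_add]; ring

lemma mul (hR : 0 ≤ R) (hf : NB R f K) (hg : NB R g L) : NB R (f * g) (K * L) := fun n => by
  have h1 := (hf.summable hR).norm
  have h2 := (hg.summable hR).norm
  refine (sum_le_sum fun m _ => coeff_mul_le hR m).trans ?_
  refine ((summable_norm_sum_mul_antidiagonal_of_summable_norm h1 h2).of_norm.sum_le_tsum _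
    fun _ _ => by positivity).trans ?_
  rw [← tsum_mul_tsum_eq_tsum_sum_antidiagonal_of_summable_norm h1 h2]
  exact mul_le_mul (hf.tsum_le hR) (hg.tsum_le hR) (tsum_nonneg fun _ => by positivity) hf.nonneg

lemma mul_sb (hR : 0 ≤ R) (hf : NB R f K) (hg : SB R g L) : SB R (f * g) (K * L) := fun m => by
  have hL : 0 ≤ L := le_trans (by positivity) (hg 0)
  refine (coeff_mul_le hR m).trans ?_
  refine (sum_le_sum fun p _ => mul_le_mul_of_nonneg_left (hg p.2) (by positivity)).trans ?_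
  rw [← sum_mul, Finset.Nat.sum_antidiagonal_eq_sum_range_succ (fun i _ => ‖coeff i f‖ * R ^ i)]
  exact mul_le_mul_of_nonneg_right (hf _) hL

lemma C (c : ℂ) : NB R (C c) ‖c‖ := fun n => by
  cases n with
  | zero => simp
  | succ n => simp [sum_range_succ', coeff_C]

lemma one : NB R 1 1 := by simpa using C (R := R) 1

lemma X (hR : 0 ≤ R) : NB R X R := fun n => by
  refine (sum_le_sum (g := fun m => if m = 1 then R else 0) fun m _ => ?_).trans ?_
  · rw [coeff_X]; split_ifs with h <;> simp [*]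
  · rw [sum_ite_eq']; split_ifs <;> simp [hR]

lemma lin (hR : 0 ≤ R) (u : ℂ) : NB R (1 - PowerSeries.C u * PowerSeries.X) (1 + ‖u‖ * R) :=
  one.sub hR ((C u).mul hR (X hR))

lemma of_eu (hR : 0 ≤ R) (h : NB R (eu f) K) : NB R f (‖coeff 0 f‖ + K) := fun n => by
  cases n with
  | zero => simpa using add_nonneg (norm_nonneg _) h.nonneg
  | succ n =>
    have := h (n + 1)
    rw [sum_range_succ'] at this ⊢
    simp only [eu, coeff_mk, Nat.cast_zero, zero_mul, norm_zero, add_zero, pow_zero, mul_one,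
      norm_mul, Complex.norm_natCast] at this ⊢
    rw [add_comm]
    refine add_le_add le_rfl (le_trans (sum_le_sum fun m _ => ?_) this)
    refine mul_le_mul_of_nonneg_right (le_mul_of_one_le_left (norm_nonneg _) ?_) (by positivity)
    simp

lemma term_le {z : ℂ} (hz : ‖z‖ ≤ R) (m : ℕ) : ‖coeff m f * z ^ m‖ ≤ ‖coeff m f‖ * R ^ m := by
  rw [norm_mul, norm_pow]; gcongr

lemma summable_ps (h : NB R f K) {z : ℂ} (hz : ‖z‖ ≤ R) : Summable fun m => ‖coeff m f * z ^ m‖ :=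
  Summable.of_nonneg_of_le (fun _ => norm_nonneg _) (term_le hz)
    (h.summable ((norm_nonneg _).trans hz))

lemma ps_le (h : NB R f K) {z : ℂ} (hz : ‖z‖ ≤ R) : ‖ps f z‖ ≤ K :=
  (tsum_of_norm_bounded (h.summable ((norm_nonneg _).trans hz)).hasSum (term_le hz)).trans
    (h.tsum_le ((norm_nonneg _).trans hz))

lemma ps_add (hf : NB R f K) (hg : NB R g L) {z : ℂ} (hz : ‖z‖ ≤ R) :
    ps (f + g) z = ps f z + ps g z := by
  simp only [ps, map_add, add_mul]
  exact (hf.summable_ps hz).of_norm.tsum_add (hg.summable_ps hz).of_norm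

lemma ps_sub (hf : NB R f K) (hg : NB R g L) {z : ℂ} (hz : ‖z‖ ≤ R) :
    ps (f - g) z = ps f z - ps g z := by
  simp only [ps, map_sub, sub_mul]
  exact (hf.summable_ps hz).of_norm.tsum_sub (hg.summable_ps hz).of_norm

lemma ps_mul (hf : NB R f K) (hg : NB R g L) {z : ℂ} (hz : ‖z‖ ≤ R) :
    ps (f * g) z = ps f z * ps g z := by
  rw [ps, ps, ps, tsum_mul_tsum_eq_tsum_sum_antidiagonal_of_summable_norm (hf.summable_ps hz)
    (hg.summable_ps hz)]
  refine tsum_congr fun m => ?_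
  rw [coeff_mul, sum_mul]
  refine sum_congr rfl fun p hp => ?_
  rw [← mem_antidiagonal.1 hp, pow_add]; ring

lemma diff (h : NB R f K) : DifferentiableOn ℂ (ps f) (ball 0 R) := by
  rcases le_or_gt 0 R with hR | hR
  · exact Complex.differentiableOn_tsum_of_summable_norm (h.summable hR)
      (fun i => by fun_prop) isOpen_ball fun i w hw => term_le (mem_ball_zero_iff.1 hw).le i
  · rw [ball_eq_empty.2 hR.le]; exact differentiableOn_empty

end NB

lemma ps_lin (u z : ℂ) : ps (1 - C u * X) z = 1 - u * z := by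
  rw [ps, tsum_eq_sum (s := range 2)]
  · simp [sum_range_succ, coeff_X, coeff_one]; ring
  · intro b hb
    have : b ≠ 0 ∧ b ≠ 1 := by simp at hb; omega
    simp [coeff_X, coeff_one, this]

lemma ps_conj (h : ∀ m, (starRingEnd ℂ) (coeff m f) = coeff m g) (z : ℂ) :
    (starRingEnd ℂ) (ps f z) = ps g ((starRingEnd ℂ) z) := by
  simp only [ps, Complex.conj_tsum, map_mul, map_pow, h]

lemma div_w {A B : ℂ⟦X⟧} {u : ℂ} {K0 : ℝ} (hR : 0 ≤ R) (hu : 1 < R * ‖u‖)
    (hAB : A * (1 - C u * X) = B) (hB : NB R B K0) (hz : ps B u⁻¹ = 0) (ω : ℕ → ℝ)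
    (hω0 : ∀ m, 0 ≤ ω m) (hω : Monotone ω)
    (hK : ∀ n, ∑ m ∈ range n, ω m * (‖coeff m B‖ * R ^ m) ≤ K) (n : ℕ) :
    ∑ m ∈ range n, ω m * (‖coeff m A‖ * R ^ m) ≤ K / (R * ‖u‖ - 1) := by
  have hu0 : u ≠ 0 := by rintro rfl; simp at hu; linarith
  have hun : 0 < ‖u‖ := norm_pos_iff.2 hu0
  have hz' : ‖u⁻¹‖ ≤ R := by rw [norm_inv, inv_le_iff_one_le_mul₀ hun]; exact hu.le
  have r0 : coeff 0 B = coeff 0 A := by rw [← hAB]; simp
  have r1 : ∀ m, coeff (m + 1) B = coeff (m + 1) A - u * coeff m A := fun m => by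
    rw [← hAB, mul_sub, mul_one, map_sub, mul_left_comm, coeff_C_mul, coeff_succ_mul_X]
  set a := fun m => ω m * (‖coeff m A‖ * R ^ m)
  set b := fun m => ω m * (‖coeff m B‖ * R ^ m)
  have a0 : ∀ m, 0 ≤ a m := fun m => mul_nonneg (hω0 m) (by positivity)
  have b0 : ∀ m, 0 ≤ b m := fun m => mul_nonneg (hω0 m) (by positivity)
  have hb : Summable b := summable_of_sum_range_le b0 hK
  have part : ∀ N, coeff N A * u⁻¹ ^ N = ∑ j ∈ range (N + 1), coeff j B * u⁻¹ ^ j := by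
    intro N
    induction N with
    | zero => simp [r0]
    | succ N ih => rw [sum_range_succ, ← ih, r1, pow_succ]; field_simp; ring
  have tail : ∀ N, a N ≤ ∑' j, b (j + (N + 1)) := by
    intro N
    have h1 := (hB.summable_ps hz').of_norm.sum_add_tsum_nat_add (N + 1)
    rw [← part, show ∑' i, coeff i B * u⁻¹ ^ i = 0 from hz] at h1
    have h2 : (ω N * R ^ N : ℝ) * coeff N A =
        -∑' j, (ω N * R ^ N : ℝ) * u ^ N * (coeff (j + (N + 1)) B * u⁻¹ ^ (j + (N + 1))) := by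
      rw [tsum_mul_left, eq_neg_of_add_eq_zero_right h1, inv_pow]; field_simp
    have h3 : a N = ‖(ω N * R ^ N : ℝ) * coeff N A‖ := by
      rw [norm_mul, Complex.norm_of_nonneg (mul_nonneg (hω0 N) (by positivity))]; simp only [a]; ring
    rw [h3, h2, norm_neg]
    refine tsum_of_norm_bounded ((summable_nat_add_iff (N + 1)).2 hb).hasSum fun j => ?_
    rw [norm_mul, norm_mul, norm_mul, Complex.norm_of_nonneg (mul_nonneg (hω0 N) (by positivity)),
      norm_pow, norm_pow]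
    have h4 : ‖u‖ ^ N * ‖u⁻¹‖ ^ (j + (N + 1)) ≤ R ^ (j + 1) := by
      rw [show j + (N + 1) = N + (j + 1) by ring, pow_add, ← mul_assoc, ← mul_pow, ← norm_mul,
        mul_inv_cancel₀ hu0, norm_one, one_pow, one_mul]
      gcongr
    have h5 := hω (show N ≤ j + (N + 1) by omega)
    calc _ = ω N * (‖coeff (j + (N + 1)) B‖ * (R ^ N * (‖u‖ ^ N * ‖u⁻¹‖ ^ (j + (N + 1))))) := by ring
      _ ≤ ω (j + (N + 1)) * (‖coeff (j + (N + 1)) B‖ * (R ^ N * R ^ (j + 1))) := by
        have := hω0 (j + (N + 1)); gcongr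
      _ = _ := by simp only [b]; ring
  have step : ∀ m, R * ‖u‖ * a m ≤ a (m + 1) + b (m + 1) := fun m => by
    have h1 : ‖u‖ * ‖coeff m A‖ ≤ ‖coeff (m + 1) A‖ + ‖coeff (m + 1) B‖ := by
      rw [← norm_mul, show u * coeff m A = coeff (m + 1) A - coeff (m + 1) B by rw [r1]; ring]
      exact norm_sub_le _ _
    have h5 := hω (show m ≤ m + 1 by omega)
    have := hω0 (m + 1)
    calc _ = ω m * (‖u‖ * ‖coeff m A‖ * R ^ (m + 1)) := by simp only [a]; ring
      _ ≤ ω (m + 1) * ((‖coeff (m + 1) A‖ + ‖coeff (m + 1) B‖) * R ^ (m + 1)) := by gcongr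
      _ = _ := by simp only [a, b]; ring
  have main : ∀ N, (R * ‖u‖ - 1) * ∑ m ∈ range N, a m ≤ K + ∑' j, b (j + (N + 1)) := fun N => by
    have h1 := sum_le_sum fun m (_ : m ∈ range N) => step m
    rw [← mul_sum, sum_add_distrib] at h1
    have h2 := sum_range_succ' a N
    have h3 := sum_range_succ a N
    have h4 := sum_range_succ' b N
    linarith [hK (N + 1), a0 0, b0 0, tail N]
  rw [le_div_iff₀' (by linarith)]
  have lim : Tendsto (fun N => K + ∑' j, b (j + (N + 1))) atTop (𝓝 (K + 0)) :=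
    tendsto_const_nhds.add ((tendsto_sum_nat_add b).comp (tendsto_add_atTop_nat 1))
  rw [add_zero] at lim
  refine ge_of_tendsto lim (eventually_atTop.2 ⟨n, fun N hN => le_trans ?_ (main N)⟩)
  exact mul_le_mul_of_nonneg_left (sum_le_sum_of_subset_of_nonneg (range_mono hN) fun m _ _ => a0 m)
    (by linarith)

lemma div_nb {A B : ℂ⟦X⟧} {u : ℂ} (hR : 0 ≤ R) (hu : 1 < R * ‖u‖)
    (hAB : A * (1 - C u * X) = B) (hB : NB R B K) (hz : ps B u⁻¹ = 0) :
    NB R A (K / (R * ‖u‖ - 1)) := fun n => by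
  simpa using div_w hR hu hAB hB hz (fun _ => 1) (fun _ => zero_le_one) monotone_const
    (by simpa [NB] using hB) n

lemma div_eu {A B : ℂ⟦X⟧} {u : ℂ} (hR : 0 ≤ R) (hu : 1 < R * ‖u‖)
    (hAB : A * (1 - C u * X) = B) (hB : NB R (eu B) K) (hz : ps B u⁻¹ = 0) :
    NB R (eu A) (K / (R * ‖u‖ - 1)) := fun n => by
  simpa [eu, mul_assoc] using div_w hR hu hAB (hB.of_eu hR) hz (fun m => m) (fun _ => by positivity)
    Nat.mono_cast (by simpa [NB, eu, mul_assoc] using hB) n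

lemma solve_sb {G β S : ℂ⟦X⟧} (hR : 0 ≤ R) (h : (1 + G) * β = S) (hG : NB R G (1 / 2))
    (hS : SB R S K) : SB R β (2 * K) := fun n => by
  induction n using Nat.strong_induction_on with
  | _ n ih =>
    by_contra hn
    have hn := not_le.1 hn
    have h1 : coeff n β = coeff n S - coeff n (G * β) := by rw [← h, add_mul, one_mul, map_add]; ring
    have h2 : ‖coeff n (G * β)‖ * R ^ n ≤ 1 / 2 * (‖coeff n β‖ * R ^ n) := by
      refine (NB.coeff_mul_le hR n).trans ?_
      refine (sum_le_sum fun p hp => mul_le_mul_of_nonneg_left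
        (show ‖coeff p.2 β‖ * R ^ p.2 ≤ ‖coeff n β‖ * R ^ n from ?_) (by positivity)).trans ?_
      · rcases (show p.2 ≤ n by have := mem_antidiagonal.1 hp; omega).eq_or_lt with e | e
        · rw [e]
        · exact (ih _ e).trans hn.le
      · rw [← sum_mul, Finset.Nat.sum_antidiagonal_eq_sum_range_succ (fun i _ => ‖coeff i G‖ * R ^ i)]
        exact mul_le_mul_of_nonneg_right (hG _) (by positivity)
    have h3 : ‖coeff n β‖ * R ^ n ≤ ‖coeff n S‖ * R ^ n + ‖coeff n (G * β)‖ * R ^ n := by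
      rw [← add_mul, h1]
      exact mul_le_mul_of_nonneg_right (norm_sub_le _ _) (by positivity)
    linarith [hS n]

noncomputable def geo (u : ℂ) : ℂ⟦X⟧ := mk fun n => u ^ n

lemma geo_mul (u : ℂ) : geo u * (1 - C u * X) = 1 := by
  ext n
  rw [mul_sub, mul_one, map_sub, mul_left_comm, coeff_C_mul]
  cases n with
  | zero => simp [geo]
  | succ n => simp [geo, coeff_succ_mul_X, coeff_one, pow_succ']

/-- Removing one root. -/
lemma peel {F α : ℂ⟦X⟧} (u : ℂ) (h : eu F = -(F * α)) :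
    eu (F * geo u) = -(F * geo u * (α - geo u + 1)) := by
  have h1 := geo_mul u
  have h2 := eu_mul (F * geo u) (1 - C u * X)
  rw [mul_assoc, h1, mul_one, eu_lin, h] at h2
  linear_combination (-geo u) * h2 - (eu (F * geo u) + F * geo u) * h1

/-! ### The series `F` -/

noncomputable def Fs (Y e : ℂ) : ℂ⟦X⟧ := mk fun m => H Y e m 0 / m.factorial
noncomputable def al (Y e : ℂ) : ℂ⟦X⟧ := X * mk fun n => Bc Y e n / n.factorial

lemma eu_Fs (Y e : ℂ) : eu (Fs Y e) = -(Fs Y e * al Y e) := by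
  ext n
  rw [al, mul_left_comm, mul_comm (Fs Y e)]
  cases n with
  | zero => simp [eu]
  | succ n =>
    rw [map_neg, coeff_succ_X_mul, coeff_mul, Finset.Nat.sum_antidiagonal_eq_sum_range_succ_mk]
    simp only [eu, Fs, coeff_mk]
    rw [Bc_spec, neg_div, mul_neg, sum_div, mul_sum]
    congr 1
    refine sum_congr rfl fun i hi => ?_
    rw [Nat.cast_choose _ (Nat.lt_succ_iff.1 (mem_range.1 hi)), Nat.factorial_succ]
    have : (n : ℂ) + 1 ≠ 0 := by exact_mod_cast n.succ_ne_zero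
    have : (n.factorial : ℂ) ≠ 0 := by exact_mod_cast n.factorial_ne_zero
    push_cast; field_simp

lemma H_bound {Y e : ℂ} {β Λ : ℝ} (hβ : 0 < β) (he : ‖e‖ ≤ β) (hΛ : β + ‖Y‖ / β ≤ Λ) (n : ℕ) :
    ∀ k, ‖H Y e n k‖ ≤ (n + k + 1) * β ^ k * Λ ^ n := by
  have hY : 0 ≤ ‖Y‖ / β := by positivity
  have hΛ0 : 0 ≤ Λ := by linarith
  induction n with
  | zero =>
    intro k
    rw [H, norm_mul, norm_pow, norm_neg, ← Nat.cast_succ, Complex.norm_natCast]
    push_cast
    rw [zero_add, pow_zero, mul_one, mul_comm]; gcongr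
  | succ n ih =>
    intro k
    cases k with
    | zero =>
      rw [H]
      refine (ih 1).trans ?_
      push_cast
      rw [pow_succ Λ, pow_one, pow_zero, add_zero, mul_one, mul_assoc, mul_comm β]
      gcongr; linarith
    | succ k =>
      rw [H]
      refine (norm_add_le_of_le (ih _) ((norm_mul _ _).trans_le
        (mul_le_mul_of_nonneg_left (ih k) (norm_nonneg _)))).trans ?_
      push_cast
      calc _ ≤ (n + (k + 2) + 1) * β ^ (k + 2) * Λ ^ n +
            ‖Y‖ * ((n + (k + 2) + 1) * β ^ k * Λ ^ n) := by gcongr; linarith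
        _ = (n + (k + 2) + 1) * β ^ (k + 1) * Λ ^ n * (β + ‖Y‖ / β) := by field_simp; ring
        _ ≤ (n + (k + 2) + 1) * β ^ (k + 1) * Λ ^ n * Λ := by gcongr
        _ = _ := by ring

lemma Fs_coeff_le {Y e : ℂ} {β Λ : ℝ} (hβ : 0 < β) (he : ‖e‖ ≤ β) (hΛ : β + ‖Y‖ / β ≤ Λ) (m : ℕ) :
    ‖coeff m (Fs Y e)‖ ≤ (m + 1) * Λ ^ m / m.factorial := by
  rw [Fs, coeff_mk, norm_div, Complex.norm_natCast]
  gcongr
  simpa using H_bound hβ he hΛ m 0

lemma tail_le {a : ℝ} (ha : 0 ≤ a) {M : ℕ} (hM : 4 * a ≤ M) (h1 : 1 ≤ M) (j : ℕ) :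
    ((M + j : ℕ) : ℝ) * ((M + j : ℕ) + 1) * a ^ (M + j) / (M + j).factorial ≤
      M * (M + 1) * a ^ M / M.factorial * (1 / 2) ^ j := by
  induction j with
  | zero => simp
  | succ j ih =>
    rw [pow_succ (1 / 2 : ℝ), ← mul_assoc]
    refine le_trans ?_ (mul_le_mul_of_nonneg_right ih (by norm_num))
    rw [← add_assoc, Nat.factorial_succ, pow_succ]
    generalize hm : M + j = m
    have hm1 : (M : ℝ) ≤ m := by exact_mod_cast hm ▸ Nat.le_add_right M j
    have hm2 : (1 : ℝ) ≤ M := by exact_mod_cast h1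
    have : (0 : ℝ) < m.factorial := by exact_mod_cast m.factorial_pos
    push_cast
    calc _ = (a ^ m / m.factorial) * ((m + 2) * a) := by field_simp; ring
      _ ≤ (a ^ m / m.factorial) * (m * (m + 1) / 2) := by gcongr; nlinarith
      _ = _ := by ring

noncomputable def hiP (M : ℕ) (f : ℂ⟦X⟧) : ℂ⟦X⟧ := mk fun m => if m < M then 0 else coeff m f

lemma hi_nb {Y e : ℂ} {β Λ : ℝ} (hβ : 0 < β) (he : ‖e‖ ≤ β) (hΛ : β + ‖Y‖ / β ≤ Λ) (hR : 0 ≤ R)
    {M : ℕ} (hM : 4 * (Λ * R) ≤ M) (h1 : 1 ≤ M) :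
    NB R (eu (hiP M (Fs Y e))) (2 * (M * (M + 1) * (Λ * R) ^ M / M.factorial)) := fun n => by
  have hΛ0 : 0 ≤ Λ := le_trans (by positivity) hΛ
  refine (sum_le_sum_of_subset_of_nonneg (range_mono (Nat.le_add_left n M))
    fun _ _ _ => by positivity).trans ?_
  rw [sum_range_add, sum_eq_zero fun m hm => by simp [eu, hiP, mem_range.1 hm], zero_add]
  refine (sum_le_sum (g := fun j => M * (M + 1) * (Λ * R) ^ M / M.factorial * (1 / 2) ^ j)
    fun j _ => le_trans ?_ (tail_le (by positivity) hM h1 j)).trans ?_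
  · simp only [eu, hiP, coeff_mk, if_neg (not_lt.2 (Nat.le_add_right M j)), norm_mul,
      Complex.norm_natCast]
    calc _ ≤ ((M + j : ℕ) : ℝ) * ((((M + j : ℕ) : ℝ) + 1) * Λ ^ (M + j) / (M + j).factorial) *
          R ^ (M + j) := by gcongr; exact Fs_coeff_le hβ he hΛ _
      _ = _ := by rw [mul_pow]; ring
  · rw [← mul_sum, mul_comm]
    exact mul_le_mul_of_nonneg_right (sum_geometric_two_le _) (by positivity)

/-! ### Holomorphic roots -/

lemma lip {f : ℂ → ℂ} {r K : ℝ} (hr : 0 < r) (hf : DifferentiableOn ℂ f (ball 1 r))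
    (hK : ∀ z ∈ ball 1 r, ‖f z‖ ≤ K) {a b : ℂ} (ha : a ∈ closedBall 1 (r / 4))
    (hb : b ∈ closedBall 1 (r / 4)) : ‖f a - f b‖ ≤ 2 * K / r * ‖a - b‖ := by
  have sub : ∀ z ∈ closedBall (1 : ℂ) (r / 4), closedBall z (r / 2) ⊆ ball 1 r := fun z hz =>
    closedBall_subset_ball' (by rw [mem_closedBall] at hz; linarith)
  refine Convex.norm_image_sub_le_of_norm_deriv_le (fun z hz => hf.differentiableAt
    (isOpen_ball.mem_nhds (sub z hz (mem_closedBall_self (by positivity))))) (fun z hz => ?_)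
    (convex_closedBall _ _) hb ha
  refine (Complex.norm_deriv_le_of_forall_mem_sphere_norm_le (by positivity : 0 < r / 2)
    (hf.diffContOnCl_ball (sub z hz)) fun w hw => hK w (sub z hz (sphere_subset_closedBall hw))).trans
    (le_of_eq (by field_simp))

theorem root {U : Set ℂ} (hU : IsOpen U) (F Q : ℂ → ℂ → ℂ) {r η ε K : ℝ} (hr : 0 < r)
    (hη : η ≤ r / 4)
    (hd : ∀ z : ℂ → ℂ, DifferentiableOn ℂ z U → (∀ t ∈ U, z t ∈ ball 1 r) →
      DifferentiableOn ℂ (fun t => F t (z t) * Q t (z t)) U)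
    (hF : ∀ t ∈ U, DifferentiableOn ℂ (F t) (ball 1 r))
    (hQ : ∀ t ∈ U, DifferentiableOn ℂ (Q t) (ball 1 r))
    (bQ : ∀ t ∈ U, ∀ z ∈ ball 1 r, ‖Q t z‖ ≤ K)
    (bG : ∀ t ∈ U, ∀ z ∈ ball 1 r, ‖F t z * Q t z - (1 - z)‖ ≤ η)
    (hε : ∀ t ∈ U, ‖F t 1‖ ≤ ε) (hs : ε * (2 * K / r) < 1 / 2) :
    ∃ ζ : ℂ → ℂ, DifferentiableOn ℂ ζ U ∧ ∀ t ∈ U, F t (ζ t) = 0 ∧ ‖ζ t - 1‖ ≤ 2 * (ε * K) ∧
      ‖ζ t - 1‖ ≤ r / 4 ∧ ∀ z, ‖z - 1‖ ≤ r / 4 → F t z = 0 → z = ζ t := by
  have sub : closedBall (1 : ℂ) (r / 4) ⊆ ball 1 r := closedBall_subset_ball (by linarith)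
  have h1 : (1 : ℂ) ∈ closedBall (1 : ℂ) (r / 4) := mem_closedBall_self (by positivity)
  set G := fun t z => F t z * Q t z - (1 - z) with hG
  have dG : ∀ t ∈ U, DifferentiableOn ℂ (G t) (ball 1 r) := fun t ht =>
    ((hF t ht).mul (hQ t ht)).sub (by fun_prop)
  have lG : ∀ t ∈ U, ∀ a ∈ closedBall (1 : ℂ) (r / 4), ∀ b ∈ closedBall (1 : ℂ) (r / 4),
      ‖G t a - G t b‖ ≤ 1 / 2 * ‖a - b‖ := fun t ht a ha b hb =>
    (lip hr (dG t ht) (bG t ht) ha hb).trans (mul_le_mul_of_nonneg_right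
      (by rw [div_le_iff₀ hr]; linarith) (norm_nonneg _))
  let it : ℕ → ℂ → ℂ := fun m => Nat.rec (fun _ => 1) (fun _ z t => 1 + G t (z t)) m
  have it_s : ∀ m t, it (m + 1) t = 1 + G t (it m t) := fun _ _ => rfl
  have mem : ∀ m, ∀ t ∈ U, it m t ∈ closedBall (1 : ℂ) (r / 4) := fun m t ht => by
    induction m with
    | zero => exact h1
    | succ m ih => simpa [it_s, mem_closedBall, dist_eq_norm] using (bG t ht _ (sub ih)).trans hη
  have dit : ∀ m, DifferentiableOn ℂ (it m) U := fun m => by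
    induction m with
    | zero => exact differentiableOn_const _
    | succ m ih => exact ((hd _ ih fun t ht => sub (mem m t ht)).sub (ih.const_sub _)).const_add _
  have geo : ∀ m, ∀ t ∈ U, ‖it (m + 1) t - it m t‖ ≤ η * (1 / 2) ^ m := fun m t ht => by
    induction m with
    | zero => simpa [it, hG] using bG t ht _ (sub h1)
    | succ m ih =>
      rw [it_s (m + 1), it_s m, add_sub_add_left_eq_sub, pow_succ]
      refine (lG t ht _ (mem (m + 1) t ht) _ (mem m t ht)).trans ?_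
      linarith
  have sm : Summable fun m : ℕ => η * (1 / 2 : ℝ) ^ m := summable_geometric_two.mul_left _
  refine ⟨fun t => 1 + ∑' m, (it (m + 1) t - it m t),
    (Complex.differentiableOn_tsum_of_summable_norm (F := fun m t => it (m + 1) t - it m t) sm
      (fun m => (dit (m + 1)).sub (dit m)) hU
      geo).const_add _, fun t ht => ?_⟩
  beta_reduce
  generalize hζ : 1 + ∑' m, (it (m + 1) t - it m t) = ζ
  have lim : Tendsto (fun m => it m t) atTop (𝓝 ζ) := by
    have := (Summable.of_norm_bounded sm fun m => geo m t ht).hasSum.tendsto_sum_nat.const_add 1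
    rw [hζ] at this
    refine this.congr fun m => ?_
    rw [sum_range_sub fun m => it m t]; simp [it]
  have mζ : ζ ∈ closedBall (1 : ℂ) (r / 4) :=
    isClosed_closedBall.mem_of_tendsto lim (Eventually.of_forall fun m => mem m t ht)
  have fix : ζ = 1 + G t ζ := tendsto_nhds_unique (lim.comp (tendsto_add_atTop_nat 1))
    ((((dG t ht).differentiableAt (isOpen_ball.mem_nhds (sub mζ))).continuousAt.tendsto.comp
      lim).const_add 1)
  have low : ∀ z ∈ closedBall (1 : ℂ) (r / 4), ‖z - ζ‖ ≤ 2 * ‖F t z * Q t z‖ := fun z hz => by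
    have h2 := lG t ht z hz ζ mζ
    have h3 : z - ζ = (G t z - G t ζ) - F t z * Q t z := by
      simp only [hG] at fix ⊢; linear_combination -fix
    have := norm_sub_le (G t z - G t ζ) (F t z * Q t z)
    rw [← h3] at this
    linarith
  have hK : 0 ≤ K := (norm_nonneg _).trans (bQ t ht _ (sub h1))
  refine ⟨?_, ?_, mem_closedBall_iff_norm.1 mζ, fun z hz h => ?_⟩
  · have h0 : F t ζ * Q t ζ = 0 := by simp only [hG] at fix; linear_combination -fix
    refine (mul_eq_zero.1 h0).resolve_right fun hq => ?_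
    have key : ∀ z ∈ closedBall (1 : ℂ) (r / 4), ‖F t z‖ * (2 * K / r) < 1 / 2 → z = ζ := by
      intro z hz h
      have h2 := lip hr (hQ t ht) (bQ t ht) hz mζ
      have h3 := low z hz
      rw [hq, sub_zero] at h2
      rw [norm_mul] at h3
      by_contra hne
      have h4 : 0 < ‖z - ζ‖ := norm_pos_iff.2 (sub_ne_zero.2 hne)
      nlinarith [mul_le_mul_of_nonneg_left h2 (norm_nonneg (F t z))]
    have h5 : ‖F t 1‖ * (2 * K / r) < 1 / 2 :=
      (mul_le_mul_of_nonneg_right (hε t ht) (by positivity)).trans_lt hs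
    have h6 := key 1 h1 h5
    have h7 : ∀ᶠ z in 𝓝 (1 : ℂ), z = ζ := by
      have c := ((hF t ht).differentiableAt (isOpen_ball.mem_nhds (sub h1))).continuousAt.norm.mul_const
        (2 * K / r)
      filter_upwards [c.eventually (gt_mem_nhds h5), closedBall_mem_nhds (1 : ℂ)
        (by positivity : 0 < r / 4)] with z k1 k2 using key z k2 k1
    obtain ⟨z, k1, k2⟩ := ((h7.filter_mono nhdsWithin_le_nhds).and
      (self_mem_nhdsWithin (a := (1 : ℂ)) (s := {1}ᶜ))).exists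
    exact k2 (k1.trans h6.symm)
  · rw [norm_sub_rev]
    refine (low 1 h1).trans ?_
    rw [norm_mul]
    gcongr
    · exact (norm_nonneg _).trans (hε t ht)
    · exact hε t ht
    · exact bQ t ht _ (sub h1)
  · have := low z (mem_closedBall_iff_norm.2 hz)
    rw [h, zero_mul, norm_zero, mul_zero] at this
    exact sub_eq_zero.1 (norm_le_zero_iff.1 this)

end Pool.Agent.Lib.MP_3b1384_co
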