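import Pool.Agent.Lib.MP_3b1384_co.Eng2
import Pool.Agent.Lib.MP_3b1384_co.Ser

namespace Pool.Agent.Lib.MP_3b1384_co
open PowerSeries Filter Topology Metric
open Finset hiding mk

lemma one_root {F α Q : ℂ⟦X⟧} {u : ℂ} {R K1 K2 m η : ℝ} (hR : 0 ≤ R) (h : eu F = -(F * α))
    (h1 : NB R (eu F) K1) (h2 : NB R Q K2) (hz : ps F u⁻¹ = 0) (hm : 0 < m) (hu : m ≤ R * ‖u‖ - 1)
    (hG : NB R (F * Q - (1 - C u * X)) η) (hη : η ≤ m / 2) :
    SB R (α - geo u + 1) (2 * (K1 / m * K2)) := by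
  have hu1 : 1 < R * ‖u‖ := by linarith
  have hu0 : u ≠ 0 := by rintro rfl; simp at hu1; linarith
  have hz' : ‖u⁻¹‖ ≤ R := by rw [norm_inv, inv_le_iff_one_le_mul₀ (norm_pos_iff.2 hu0)]; exact hu1.le
  have g := geo_mul u
  have e1 : NB R (eu (F * geo u)) (K1 / m) :=
    (div_eu hR hu1 (by rw [mul_assoc, g, mul_one]) h1 hz).mono
      (div_le_div_of_nonneg_left h1.nonneg hm hu)
  have e2 : NB R (F * geo u * Q - 1) (1 / 2) := by
    refine (div_nb hR hu1 (by linear_combination F * Q * g) hG ?_).mono ?_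
    · rw [((h1.of_eu hR).mul hR h2).ps_sub (NB.lin hR u) hz', (h1.of_eu hR).ps_mul h2 hz', hz, ps_lin,
        mul_inv_cancel₀ hu0]; simp
    · rw [div_le_iff₀ (by linarith)]; linarith
  refine solve_sb hR ?_ e2 ((e1.mul hR h2).neg.sb hR)
  rw [peel u h]; ring

lemma two_root {F α Q : ℂ⟦X⟧} {u w : ℂ} {R K1 K2 m η : ℝ} (hR : 0 ≤ R) (h : eu F = -(F * α))
    (h1 : NB R (eu F) K1) (h2 : NB R Q K2) (hz : ps F u⁻¹ = 0) (hw : ps F w⁻¹ = 0) (hne : u ≠ w)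
    (hm : 0 < m) (hu : m ≤ R * ‖u‖ - 1) (hw' : m ≤ R * ‖w‖ - 1)
    (hG : NB R (F * Q - (1 - C u * X) * (1 - C w * X)) η) (hη : η / m ≤ m / 2) :
    SB R (α - geo u + 1 - geo w + 1) (2 * (K1 / m / m * K2)) := by
  have hu1 : 1 < R * ‖u‖ := by linarith
  have hu0 : u ≠ 0 := by rintro rfl; simp at hu1; linarith
  have hz' : ‖u⁻¹‖ ≤ R := by rw [norm_inv, inv_le_iff_one_le_mul₀ (norm_pos_iff.2 hu0)]; exact hu1.le
  have hw0 : w ≠ 0 := by rintro rfl; simp at hw'; linarith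
  have hz'' : ‖w⁻¹‖ ≤ R := by
    rw [norm_inv, inv_le_iff_one_le_mul₀ (norm_pos_iff.2 hw0)]; linarith
  have g := geo_mul u
  have gF : F * geo u * (1 - C u * X) = F := by rw [mul_assoc, g, mul_one]
  have e1 : NB R (eu (F * geo u)) (K1 / m) :=
    (div_eu hR hu1 gF h1 hz).mono (div_le_div_of_nonneg_left h1.nonneg hm hu)
  refine one_root hR (peel u h) e1 h2 ?_ hm hw' ?_ hη
  · have := (e1.of_eu hR).ps_mul (NB.lin hR u) hz''
    rw [gF, hw, ps_lin] at this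
    refine (mul_eq_zero.1 this.symm).resolve_right fun e => hne ?_
    field_simp at e
    exact (sub_eq_zero.1 (by simpa using e)).symm
  · refine (div_nb hR hu1 (by linear_combination F * Q * g) hG ?_).mono
      (div_le_div_of_nonneg_left hG.nonneg hm hu)
    rw [((h1.of_eu hR).mul hR h2).ps_sub ((NB.lin hR u).mul hR (NB.lin hR w)) hz',
      (h1.of_eu hR).ps_mul h2 hz', hz, (NB.lin hR u).ps_mul (NB.lin hR w) hz', ps_lin,
      mul_inv_cancel₀ hu0]; simp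

lemma EZ.zero_of_le {C : Cf} : ∀ {l : List T} {f : ℕ → ℂ → ℂ}, EZ C l f → ∀ i, l.length ≤ i →
    ∀ t, f i t = 0
  | [], _, h, i, _ => h i
  | _ :: _, _, h, i + 1, hi => EZ.zero_of_le h.2 i (by simpa using hi)

lemma getD_map {α β : Type} (l : List α) (f : α → β) (d : α) (j : ℕ) :
    (l.map f).getD j (f d) = f (l.getD j d) := by simp [List.getD_eq_getElem?_getD]

noncomputable def Qs (C : Cf) (Q : ℕ → List ℤ) (t : ℂ) : ℂ⟦X⟧ := mk fun m => ev (Q m) t / C.S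

structure Pm where
  M : ℕ
  Mq : ℕ
  ru : ℕ
  rv : ℕ
  β : ℚ
  Λ : ℚ
  η : ℚ
  K2 : ℚ
  K1 : ℚ
  ε : ℚ

def Pm.τ (p : Pm) : ℚ := 2 * (p.M * (p.M + 1) * (p.Λ * (p.ru / p.rv)) ^ p.M / p.M.factorial)

noncomputable def chk2 (C : Cf) (p : Pm) (v : T) (fl : Bool) (fs f1 : List T) (res : List O3) : Bool :=
  decide ((hor p.ru p.rv (res.map fun r => r.q.nb) : ℚ) / C.S ≤ p.K2) &&
  decide ((hor p.ru p.rv (res.map O3.g) : ℚ) / C.S + p.τ * p.K2 ≤ p.η) &&
  cond fl (decide ((mx (res.map O3.h) : ℚ) / C.S + p.τ * p.K2 ≤ p.K1) && Nat.beq p.ru p.rv)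
    (decide ((hor p.ru p.rv (f1.map T.nb) : ℚ) / C.S + p.τ ≤ p.K1) &&
      decide (((mr C (one C) (horT C v fs)).nb : ℚ) / C.S + p.τ ≤ p.ε) &&
      decide ((v.nb : ℚ) / C.S ≤ p.ru / p.rv))

noncomputable def chkC (C : Cf) (p : Pm) (Y e v : T) (Ts : List T) (fl : Bool) : Bool :=
  decide (0 < p.β) && decide ((e.nb : ℚ) / C.S ≤ p.β) && decide (p.β + Y.nb / C.S / p.β ≤ p.Λ) &&
  decide (4 * (p.Λ * (p.ru / p.rv)) ≤ p.M) && Nat.ble 1 p.M && Nat.ble 1 p.rv &&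
  Nat.ble Ts.length (p.M + p.Mq) &&
  (fun fs => (fun f1 => chk2 C p v fl fs f1 (Onl C fs f1 Ts p.Mq (p.M + p.Mq))) (wts fs 0))
    (Frow C p.M Y e)

theorem cert {C : Cf} (hC : C.ok) {p : Pm} {Y e v : T} {Ts : List T} {fl : Bool} {y u z : ℂ → ℂ}
    {Tg : ℕ → ℂ → ℂ} (hY : E1 C Y y) (he : E1 C e u) (hv : E1 C v z) (hT : EZ C Ts Tg)
    (h : chkC C p Y e v Ts fl = true) :
    0 < (p.β : ℝ) ∧ ∃ Q : ℕ → List ℤ, (∀ i, p.Mq ≤ i → Q i = []) ∧ ∀ t : ℂ, ‖t‖ ≤ 1 →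
      (‖u t‖ ≤ p.β ∧ p.β + ‖y t‖ / p.β ≤ p.Λ) ∧ NB (p.ru / p.rv) (Qs C Q t) p.K2 ∧
      NB (p.ru / p.rv) (Fs (y t) (u t) * Qs C Q t - mk fun m => Tg m t) p.η ∧
      (fl = true → (p.ru / p.rv : ℝ) = 1 ∧ SB 1 (eu (Fs (y t) (u t)) * Qs C Q t) p.K1) ∧
      (fl = false → NB (p.ru / p.rv) (eu (Fs (y t) (u t))) p.K1 ∧ ‖ps (Fs (y t) (u t)) (z t)‖ ≤ p.ε) := by
  simp only [chkC, chk2, Bool.and_eq_true, decide_eq_true_eq, Nat.ble_eq] at h
  obtain ⟨⟨⟨⟨⟨⟨⟨c1, c2⟩, c3⟩, c4⟩, c5⟩, c6⟩, c7⟩, ⟨c8, c9⟩, c10⟩ := h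
  rw [← Rat.cast_le (K := ℝ)] at c2 c3 c4 c8 c9
  push_cast at c2 c3 c4 c8 c9
  have hS : (0 : ℝ) < C.S := by exact_mod_cast hC.S_pos
  have hSc : (C.S : ℂ) ≠ 0 := by exact_mod_cast hC.S_pos.ne'
  obtain ⟨hF, hl⟩ := Frow_spec hC hY he p.M
  have hF1 := hF.wts 0
  obtain ⟨hlen, Q, hQ, hres⟩ := Onl_spec hC p.Mq (p.M + p.Mq) hF hF1 hT
  generalize Onl C _ _ Ts p.Mq (p.M + p.Mq) = res at *
  generalize wts (Frow C p.M Y e) 0 = f1 at *
  generalize Frow C p.M Y e = fs at *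
  have c1' : (0 : ℝ) < p.β := by exact_mod_cast c1
  refine ⟨c1', Q, fun i hi => hQ i (Or.inr hi), fun t ht => ?_⟩
  set R : ℝ := p.ru / p.rv with hRd
  have hR : 0 ≤ R := by positivity
  have b1 : ‖u t‖ ≤ p.β := (he.nb hC ht).trans c2
  have b2 : p.β + ‖y t‖ / p.β ≤ p.Λ := by
    refine le_trans ?_ c3
    gcongr; exact hY.nb hC ht
  set F := Fs (y t) (u t)
  have hhi1 : NB R (eu (hiP p.M F)) p.τ := by
    have := hi_nb c1' b1 b2 hR (M := p.M) c4 c5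
    simpa [Pm.τ, hRd] using this
  have hhi : NB R (hiP p.M F) p.τ := by
    simpa [hiP, show 0 < p.M from c5] using hhi1.of_eu hR
  set lo : ℂ⟦X⟧ := mk fun m => if m < p.M then H (y t) (u t) m 0 / m.factorial else 0 with hlo
  have hsp : F = lo + hiP p.M F := by
    ext m; simp only [hlo, hiP, map_add, coeff_mk]; split_ifs <;> simp [F, Fs]
  have hsp1 : eu F = eu lo + eu (hiP p.M F) := by
    ext m; nth_rewrite 1 [hsp]; simp [eu, mul_add]
  have toNB : ∀ (f : ℂ⟦X⟧) (l : List ℕ), (∀ j, C.S * ‖coeff j f‖ ≤ l.getD j 0) →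
      NB R f (hor p.ru p.rv l / C.S) := fun f l hf n => by
    have := hor_spec p.ru p.rv c6 l _ hf n
    rw [le_div_iff₀' hS, mul_sum]
    simpa only [mul_assoc] using this
  have nQ : NB R (Qs C Q t) p.K2 := by
    refine (toNB _ _ fun j => ?_).mono c8
    rw [Qs, coeff_mk, norm_div, Complex.norm_natCast, mul_div_cancel₀ _ hS.ne']
    rcases Nat.lt_or_ge j (p.M + p.Mq) with hj | hj
    · refine (norm_ev_le ht _).trans ?_
      have := (hres j hj _ rfl).2.1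
      rw [show 0 = (fun r : O3 => r.q.nb) dO from rfl, getD_map]
      exact_mod_cast this.trans (Nat.le_add_right _ _)
    · simp [hQ j (Or.inl hj), ev]
  have conv : ∀ (f : ℂ⟦X⟧) (j : ℕ), (C.S : ℂ) * coeff j (f * Qs C Q t) =
      ∑ q ∈ antidiagonal j, coeff q.1 f * ev (Q q.2) t := fun f j => by
    rw [coeff_mul, mul_sum]
    exact sum_congr rfl fun q _ => by rw [Qs, coeff_mk]; field_simp
  have conv0 : ∀ (f : ℂ⟦X⟧) (j : ℕ), (∀ i, p.M ≤ i → coeff i f = 0) → p.M + p.Mq ≤ j →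
      coeff j (f * Qs C Q t) = 0 := fun f j hf hj => by
    rw [coeff_mul]
    refine sum_eq_zero fun q hq => ?_
    have := mem_antidiagonal.1 hq
    rcases Nat.lt_or_ge q.1 p.M with h | h
    · simp [Qs, hQ q.2 (Or.inr (by omega)), ev]
    · simp [hf _ h]
  have lo0 : ∀ i, p.M ≤ i → coeff i lo = 0 := fun i hi => by simp [hlo, hi]
  refine ⟨⟨b1, b2⟩, nQ, ?_, fun hfl => ?_, fun hfl => ?_⟩
  · rw [show F * Qs C Q t - (mk fun m => Tg m t) = (lo * Qs C Q t - mk fun m => Tg m t) +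
      hiP p.M F * Qs C Q t by nth_rewrite 1 [hsp]; ring]
    refine ((toNB _ _ fun j => ?_).add hR (hhi.mul hR nQ)).mono c9
    rcases Nat.lt_or_ge j (p.M + p.Mq) with hj | hj
    · rw [show 0 = O3.g dO from rfl, getD_map, ← Complex.norm_natCast, ← norm_mul, map_sub, mul_sub,
        conv]
      simpa [hlo] using ((hres j hj _ rfl).2.2 t ht).1
    · simp [conv0 _ j lo0 hj, hT.zero_of_le j (c7.trans hj)]
  · subst hfl
    simp only [cond_true, Bool.and_eq_true, decide_eq_true_eq, Nat.beq_eq,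
      ← Rat.cast_le (K := ℝ)] at c10
    push_cast at c10
    have hR1 : R = 1 := by rw [hRd, c10.2]; exact div_self (by exact_mod_cast (by omega))
    rw [hR1] at hhi1 nQ
    refine ⟨hR1, fun j => ?_⟩
    rw [hsp1, add_mul, map_add, one_pow, mul_one]
    have h2 := (hhi1.mul zero_le_one nQ).sb zero_le_one j
    rw [one_pow, mul_one] at h2
    refine (norm_add_le_of_le ?_ h2).trans c10.1
    rw [le_div_iff₀' hS]
    rcases Nat.lt_or_ge j (p.M + p.Mq) with hj | hj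
    · refine le_trans ?_ (Nat.cast_le.2 (mx_spec _ j))
      rw [show 0 = O3.h dO from rfl, getD_map, ← Complex.norm_natCast, ← norm_mul, conv]
      simpa [hlo, eu] using ((hres j hj _ rfl).2.2 t ht).2
    · simp [conv0 (eu lo) j (fun i hi => by simp [eu, lo0 i hi]) hj]
  · subst hfl
    simp only [cond_false, Bool.and_eq_true, decide_eq_true_eq, ← Rat.cast_le (K := ℝ)] at c10
    push_cast at c10
    have nlo : NB R (eu lo) (hor p.ru p.rv (f1.map T.nb) / C.S) := toNB _ _ fun j => by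
      rw [show 0 = T.nb T.zero from rfl, getD_map, ← le_div_iff₀' hS]
      simpa [hlo, eu] using (hF1.getD j).nb hC ht
    have hz : ‖z t‖ ≤ R := (hv.nb hC ht).trans c10.2
    refine ⟨hsp1 ▸ (nlo.add hR hhi1).mono c10.1.1, ?_⟩
    rw [hsp, (nlo.of_eu hR).ps_add hhi hz]
    refine (norm_add_le_of_le ?_ (hhi.ps_le hz)).trans c10.1.2
    have := (E1.one.mr hC (hF.horT hC hv)).nb hC ht
    rw [ps, tsum_eq_sum (s := range p.M) fun b hb => by simp [lo0 b (by simpa using hb)]]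
    simpa [hlo, hl] using this

theorem type2 {C : Cf} (hC : C.ok) {p : Pm} {Y e : T} {y u : ℂ → ℂ} (hY : E1 C Y y) (he : E1 C e u)
    (h : chkC C p Y e T.zero [one C] true = true) (hη : (p.η : ℝ) ≤ 1 / 2) {t : ℂ} (ht : ‖t‖ ≤ 1) (n : ℕ) :
    ‖coeff n (al (y t) (u t))‖ ≤ 2 * p.K1 := by
  obtain ⟨-, Q, -, hQ⟩ := cert hC hY he E1.zero (Ts := [one C])
    (Tg := fun i _ => if i = 0 then 1 else 0)
    ⟨E1.one, fun i t => rfl⟩ h
  obtain ⟨-, -, h2, h3, -⟩ := hQ t ht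
  obtain ⟨h4, h5⟩ := h3 rfl
  rw [h4, show (mk fun m => if m = 0 then 1 else 0 : ℂ⟦X⟧) = 1 by ext m; simp [coeff_one]] at h2
  have := solve_sb (β := -al (y t) (u t)) zero_le_one (by rw [eu_Fs]; ring)
    (h2.mono hη) h5 n
  simpa using this

lemma diff_ev (l : List ℤ) : Differentiable ℂ (ev (R := ℂ) l) := by
  induction l with
  | nil => exact differentiable_const _
  | cons c l ih => exact (differentiable_id.mul ih).const_add _

lemma conj_ev (l : List ℤ) (t : ℂ) : (starRingEnd ℂ) (ev l t) = ev l ((starRingEnd ℂ) t) := by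
  induction l with
  | nil => simp [ev]
  | cons c l ih => simp [ev, ih]

lemma diff_H {U : Set ℂ} {y u : ℂ → ℂ} (hy : DifferentiableOn ℂ y U) (hu : DifferentiableOn ℂ u U)
    (n : ℕ) : ∀ k, DifferentiableOn ℂ (fun t => H (y t) (u t) n k) U := by
  induction n with
  | zero => intro k; simp only [H]; fun_prop
  | succ n ih =>
    intro k
    cases k with
    | zero => exact ih 1
    | succ k => exact (ih _).add (hy.mul (ih _))

lemma dps {U : Set ℂ} (hU : IsOpen U) {f : ℂ → ℂ⟦X⟧} {R : ℝ} {b : ℕ → ℝ} (hb : Summable b)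
    (hf : ∀ m, DifferentiableOn ℂ (fun t => coeff m (f t)) U)
    (hB : ∀ m, ∀ t ∈ U, ‖coeff m (f t)‖ * R ^ m ≤ b m) {z : ℂ → ℂ} (hz : DifferentiableOn ℂ z U)
    (hzR : ∀ t ∈ U, ‖z t‖ ≤ R) : DifferentiableOn ℂ (fun t => ps (f t) (z t)) U :=
  Complex.differentiableOn_tsum_of_summable_norm hb (fun m => (hf m).mul (hz.pow m)) hU
    fun m t ht => (NB.term_le (hzR t ht) m).trans (hB m t ht)

theorem rootG {C : Cf} (hC : C.ok) {p : Pm} {Y e v : T} {Ts : List T} {y u φ : ℂ → ℂ}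
    {Tg : ℕ → ℂ → ℂ} (hY : E1 C Y y) (he : E1 C e u) (hv : E1 C v fun t => Complex.exp (-φ t))
    (hT : EZ C Ts Tg) (h : chkC C p Y e v Ts false = true) (dy : Differentiable ℂ y)
    (du : Differentiable ℂ u) (dφ : Differentiable ℂ φ)
    (cy : ∀ t : ℝ, (starRingEnd ℂ) (y t) = y t) (cu : ∀ t : ℝ, (starRingEnd ℂ) (u t) = u t)
    (cφ : ∀ t : ℝ, (starRingEnd ℂ) (φ t) = φ t) {r : ℝ} (hr : 0 < r) (hη : p.η ≤ r / 4)
    (hs : p.ε * (2 * p.K2 / r) < 1 / 2) (hs2 : 2 * ((p.ε : ℝ) * p.K2) ≤ 1 / 2)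
    (hvR : ∀ t, ‖t‖ ≤ 1 → (1 + r) * ‖Complex.exp (-φ t)‖ ≤ p.ru / p.rv) {w : ℂ → ℂ}
    (dw : Differentiable ℂ w) (hw : ∀ t, ‖t‖ ≤ 1 → ∀ ξ ∈ ball 1 r, 1 ≤ ‖1 - w t * ξ‖)
    (hTg : ∀ t, (mk fun m => Tg m t) =
      (1 - PowerSeries.C (Complex.exp (φ t)) * X) * (1 - PowerSeries.C (w t * Complex.exp (φ t)) * X)) :
    ∃ (δ : ℂ → ℂ) (Q : ℂ → ℂ⟦X⟧), DifferentiableOn ℂ δ (ball 0 1) ∧
      (∀ t : ℝ, (t : ℂ) ∈ ball 0 1 → (δ t).im = 0) ∧ ∀ t ∈ ball (0 : ℂ) 1,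
      ‖δ t‖ ≤ 3 * (p.ε * p.K2) ∧ ps (Fs (y t) (u t)) (Complex.exp (φ t + δ t))⁻¹ = 0 ∧
      NB (p.ru / p.rv) (Q t) p.K2 ∧ NB (p.ru / p.rv) (eu (Fs (y t) (u t))) p.K1 ∧
      NB (p.ru / p.rv) (Fs (y t) (u t) * Q t - mk fun m => Tg m t) p.η := by
  obtain ⟨hβ, Q, hQ0, hQ⟩ := cert hC hY he hv hT h
  set R : ℝ := p.ru / p.rv with hRd
  have hR : 0 ≤ R := by positivity
  have b : ∀ t ∈ ball (0 : ℂ) 1, ‖t‖ ≤ 1 := fun t ht => (mem_ball_zero_iff.1 ht).le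
  have hz : ∀ t, ‖t‖ ≤ 1 → ∀ ξ ∈ ball (1 : ℂ) r, ‖ξ * Complex.exp (-φ t)‖ < R := fun t ht ξ hξ => by
    refine lt_of_lt_of_le ?_ (hvR t ht)
    rw [norm_mul]
    refine mul_lt_mul_of_pos_right ?_ (norm_pos_iff.2 (Complex.exp_ne_zero _))
    have := norm_add_le 1 (ξ - 1)
    rw [mem_ball_iff_norm] at hξ
    simp only [add_sub_cancel, norm_one] at this
    linarith
  have hw0 : ∀ t, ‖t‖ ≤ 1 → ∀ ξ ∈ ball (1 : ℂ) r, 1 - w t * ξ ≠ 0 := fun t ht ξ hξ e => by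
    have := hw t ht ξ hξ
    rw [e, norm_zero] at this; linarith
  have nF := fun t ht => (((hQ t ht).2.2.2.2 rfl).1.of_eu hR)
  obtain ⟨ζ, dζ, hζ⟩ := root isOpen_ball (U := ball 0 1)
    (fun t ξ => ps (Fs (y t) (u t)) (ξ * Complex.exp (-φ t)))
    (fun t ξ => ps (Qs C Q t) (ξ * Complex.exp (-φ t)) / (1 - w t * ξ)) (ε := p.ε) (K := p.K2) hr hη
    (fun z dz hz' => by
      have d1 : DifferentiableOn ℂ (fun t => z t * Complex.exp (-φ t)) (ball 0 1) :=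
        dz.mul dφ.neg.cexp.differentiableOn
      have d2 := fun t ht => (hz t (b t ht) _ (hz' t ht)).le
      refine (dps isOpen_ball (b := fun m => (2 * (p.Λ * R)) ^ m / m.factorial)
        (Real.summable_pow_div_factorial _) (fun m => ?_) (fun m t ht => ?_) d1 d2).mul
        ((dps isOpen_ball (b := fun m => l1 (Q m) / C.S * R ^ m) ?_ (fun m => ?_)
          (fun m t ht => ?_) d1 d2).div ((dw.differentiableOn.mul dz).const_sub _)
          fun t ht => hw0 t (b t ht) _ (hz' t ht))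
      · simp only [Fs, coeff_mk]
        exact (diff_H dy.differentiableOn du.differentiableOn m 0).div_const _
      · obtain ⟨k1, k2⟩ := (hQ t (b t ht)).1
        have hΛ : (0 : ℝ) ≤ p.Λ := le_trans (by positivity) k2
        have : (m + 1 : ℝ) ≤ 2 ^ m := by exact_mod_cast Nat.lt_two_pow_self
        calc _ ≤ 2 ^ m * (p.Λ : ℝ) ^ m / m.factorial * R ^ m := by
              gcongr; exact (Fs_coeff_le hβ k1 k2 m).trans (by gcongr)
          _ = _ := by rw [mul_pow, mul_pow]; ring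
      · exact summable_of_ne_finset_zero (s := range p.Mq) fun m hm => by
          simp [hQ0 m (by simpa using hm), l1]
      · simp only [Qs, coeff_mk]
        exact (diff_ev _).differentiableOn.div_const _
      · rw [Qs, coeff_mk, norm_div, Complex.norm_natCast]
        gcongr; exact norm_ev_le (b t ht) _)
    (fun t ht => (nF t (b t ht)).diff.comp (by fun_prop)
      fun ξ hξ => mem_ball_zero_iff.2 (hz t (b t ht) ξ hξ))
    (fun t ht => ((hQ t (b t ht)).2.1.diff.comp (by fun_prop)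
      fun ξ hξ => mem_ball_zero_iff.2 (hz t (b t ht) ξ hξ)).div (by fun_prop) (hw0 t (b t ht)))
    (fun t ht ξ hξ => by
      rw [norm_div]
      exact (div_le_self (norm_nonneg _) (hw t (b t ht) ξ hξ)).trans
        ((hQ t (b t ht)).2.1.ps_le (hz t (b t ht) ξ hξ).le))
    (fun t ht ξ hξ => by
      have k := (hz t (b t ht) ξ hξ).le
      have k1 := (hQ t (b t ht)).2.2.1.ps_le k
      rw [hTg, ((nF t (b t ht)).mul hR (hQ t (b t ht)).2.1).ps_sub
        ((NB.lin hR _).mul hR (NB.lin hR _)) k, (nF t (b t ht)).ps_mul (hQ t (b t ht)).2.1 k,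
        (NB.lin hR _).ps_mul (NB.lin hR _) k, ps_lin, ps_lin] at k1
      refine le_trans ?_ ((div_le_self (norm_nonneg _) (hw t (b t ht) ξ hξ)).trans k1)
      rw [← norm_div]
      refine le_of_eq (congrArg _ ?_)
      have e1 : Complex.exp (φ t) * (ξ * Complex.exp (-φ t)) = ξ := by
        rw [mul_left_comm, ← Complex.exp_add]; simp
      rw [mul_assoc (w t), e1, sub_div, mul_div_cancel_right₀ _ (hw0 t (b t ht) ξ hξ), mul_div_assoc])
    (fun t ht => by simpa using ((hQ t (b t ht)).2.2.2.2 rfl).2) hs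
  have sl : ∀ t ∈ ball (0 : ℂ) 1, ζ t ∈ Complex.slitPlane := fun t ht => by
    simpa using Complex.mem_slitPlane_of_norm_lt_one ((hζ t ht).2.1.trans_lt (by linarith))
  refine ⟨fun t => -Complex.log (ζ t), Qs C Q, (dζ.clog sl).neg, fun t ht => ?_, fun t ht =>
    ⟨?_, ?_, (hQ t (b t ht)).2.1, ((hQ t (b t ht)).2.2.2.2 rfl).1, (hQ t (b t ht)).2.2.1⟩⟩
  · obtain ⟨k1, k2, k3, k4⟩ := hζ t ht
    have := k4 ((starRingEnd ℂ) (ζ t)) (by rw [← Complex.norm_conj]; simpa using k3) (by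
      have := congrArg (starRingEnd ℂ) k1
      rw [ps_conj (g := Fs (y t) (u t)) fun m => by simp [Fs, map_H, cy, cu]] at this
      simpa [← Complex.exp_conj, cφ] using this)
    have him := Complex.conj_eq_iff_im.1 this
    have hre : 0 < (ζ t).re := (Complex.mem_slitPlane_iff.1 (sl t ht)).resolve_right (by simp [him])
    simp [Complex.log_im, Complex.arg_eq_zero_iff, him, hre.le]
  · have := Complex.norm_log_one_add_half_le_self ((hζ t ht).2.1.trans hs2)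
    rw [add_sub_cancel] at this
    rw [norm_neg]; linarith [(hζ t ht).2.1]
  · rw [← (hζ t ht).1, Complex.exp_add, Complex.exp_neg, Complex.exp_neg,
      Complex.exp_log (Complex.slitPlane_ne_zero (sl t ht)), mul_inv, inv_inv, mul_comm]

end Pool.Agent.Lib.MP_3b1384_co
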