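import Pool.Agent.Lib.MP_3b1384_co.Defs
import Pool.Agent.Lib.MP_3b1384_co.Alg

namespace Pool.Agent.Lib.MP_3b1384_co
open Finset hiding mk
open scoped PowerSeries

variable {K : Type*} [CommRing K] (x : K)

noncomputable def av (K : Type*) [CommRing K] : ℕ → MvPolynomial ℕ K
  | 0 => 1
  | w + 1 => MvPolynomial.X w

noncomputable def dvv (w : ℕ) : MvPolynomial ℕ K := av K w + MvPolynomial.C (x - 1)

noncomputable def D1 : Derivation K (MvPolynomial ℕ K) (MvPolynomial ℕ K) :=
  MvPolynomial.mkDerivation K fun w => ∑ j ∈ range (w + 1), dvv x (j + 2) * av K (w - j)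

lemma D1_C (c : K) : D1 x (MvPolynomial.C c) = 0 := (D1 x).map_algebraMap c

lemma D1_av (w : ℕ) : D1 x (av K w) = ∑ j ∈ range w, dvv x (j + 2) * av K (w - 1 - j) := by
  cases w with
  | zero => simp [av]
  | succ w => simp [av, D1]

lemma D1_dvv (w : ℕ) : D1 x (dvv x w) = ∑ j ∈ range w, dvv x (j + 2) * av K (w - 1 - j) := by
  rw [dvv, map_add, D1_C, add_zero, D1_av]

noncomputable def ty (last c w : ℕ) : MvPolynomial ℕ K := if c < last then dvv x w else av K w

lemma D1_ty (last c w : ℕ) :
    D1 x (ty x last c w) = ∑ j ∈ range w, dvv x (j + 2) * av K (w - 1 - j) := by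
  unfold ty; split_ifs
  · exact D1_dvv x w
  · exact D1_av x w

noncomputable def psi : List ℕ → ℕ → List ℕ → ℕ → MvPolynomial ℕ K
  | [], _, [], w => av K w
  | [], last, c :: st, w => ty x last c w * psi [] c st 0
  | a :: l, last, [], w => psi l last [a] (w + 1)
  | a :: l, last, c :: st, w =>
    if c < a then ty x last c w * psi (a :: l) c st 0 else psi l last (a :: c :: st) (w + 1)
  termination_by l _ st _ => (l.length, st.length)

def ins (b : ℕ) : List ℕ → List (List ℕ)
  | [] => []
  | a :: l => (List.permutations'Aux b l).map (a :: ·)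

lemma perm_ins (b : ℕ) (l : List ℕ) : List.permutations'Aux b l = (b :: l) :: ins b l := by
  cases l <;> simp [ins]

lemma psi_front (b : ℕ) (l : List ℕ) (last : ℕ) (st : List ℕ) (w : ℕ) (h1 : b < last)
    (h2 : ∀ c ∈ st, b < c) (h3 : ∀ c ∈ l, b < c) :
    psi x (b :: l) last st w = dvv x (w + 1) * psi x l b st 0 := by
  have e : psi x (b :: l) last st w = psi x l last (b :: st) (w + 1) := by
    cases st with
    | nil => rw [psi]
    | cons c st => rw [psi, if_neg (not_lt.2 (h2 c (by simp)).le)]
  rw [e]
  cases l with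
  | nil => rw [psi, ty, if_pos h1]
  | cons a l => rw [psi, if_pos (h3 a (by simp)), ty, if_pos h1]

lemma psi_push (a : ℕ) (l : List ℕ) (last : ℕ) (st : List ℕ) (w : ℕ) (h : ∀ c ∈ st.head?, ¬ c < a) :
    psi x (a :: l) last st w = psi x l last (a :: st) (w + 1) := by
  cases st with
  | nil => rw [psi]
  | cons c st => rw [psi, if_neg (h c (by simp))]

lemma D1_psi (b : ℕ) (l : List ℕ) : ∀ (last : ℕ) (st : List ℕ) (w : ℕ), b < last →
    (∀ c ∈ st, b < c) → (∀ c ∈ l, b < c) →
    D1 x (psi x l last st w) = ∑ j ∈ range w, dvv x (j + 2) * psi x l b st (w - 1 - j) +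
      ((ins b l).map fun l' => psi x l' last st w).sum := by
  induction l with
  | nil =>
    intro last st
    induction st generalizing last with
    | nil => intro w _ _ _; simp only [psi, ins, List.map_nil, List.sum_nil, add_zero, D1_av]
    | cons c st ih =>
      intro w h1 h2 h3
      have hc := h2 c (by simp)
      have := ih c 0 hc (fun d hd => h2 d (by simp [hd])) h3
      simp only [psi, ins, List.map_nil, List.sum_nil, add_zero, range_zero, sum_empty] at this ⊢
      rw [Derivation.leibniz, this, D1_ty, smul_zero, zero_add, smul_eq_mul, mul_sum]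
      refine sum_congr rfl fun j _ => ?_
      rw [ty, if_neg (not_lt.2 hc.le)]; ring
  | cons a l ihl =>
    have push : ∀ (last : ℕ) (st : List ℕ) (w : ℕ), (∀ c ∈ st.head?, ¬ c < a) → b < last →
        (∀ c ∈ st, b < c) → (∀ c ∈ a :: l, b < c) →
        D1 x (psi x (a :: l) last st w) =
          ∑ j ∈ range w, dvv x (j + 2) * psi x (a :: l) b st (w - 1 - j) +
          ((ins b (a :: l)).map fun l' => psi x l' last st w).sum := by
      intro last st w h h1 h2 h3
      have h2' : ∀ c ∈ a :: st, b < c := by
        intro c hc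
        rcases List.mem_cons.1 hc with rfl | hc
        · exact h3 _ (by simp)
        · exact h2 c hc
      have h3' : ∀ c ∈ l, b < c := fun c hc => h3 c (by simp [hc])
      rw [psi_push x a l last st w h, ihl last (a :: st) (w + 1) h1 h2' h3', sum_range_succ]
      rw [show ins b (a :: l) = (List.permutations'Aux b l).map (a :: ·) from rfl, perm_ins]
      simp only [List.map_cons, List.sum_cons, List.map_map, Function.comp_def,
        fun l' last w => psi_push x a l' last st w h]
      rw [psi_front x b l last (a :: st) (w + 1) h1 h2' h3', add_assoc]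
      congr 1
      · refine sum_congr rfl fun j hj => ?_
        have := mem_range.1 hj
        congr 2; omega
      · congr 3; omega
    intro last st
    induction st generalizing last with
    | nil => intro w; exact push last [] w (by simp)
    | cons c st ih =>
      intro w h1 h2 h3
      by_cases hca : c < a
      · have hc := h2 c (by simp)
        have := ih c 0 hc (fun d hd => h2 d (by simp [hd])) h3
        simp only [range_zero, sum_empty, zero_add] at this
        simp only [ins, List.map_map, Function.comp_def, psi, if_pos hca] at this ⊢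
        rw [Derivation.leibniz, this, D1_ty, smul_eq_mul, smul_eq_mul, mul_sum, add_comm,
          List.sum_map_mul_left]
        congr 1
        refine sum_congr rfl fun j _ => ?_
        rw [ty, if_neg (not_lt.2 hc.le)]; ring
      · exact push last (c :: st) w (by simpa using hca) h1 h2 h3

noncomputable def ev1 (K : Type*) [CommRing K] : MvPolynomial ℕ K →+* K :=
  MvPolynomial.eval fun _ => 1

lemma ev1_av (w : ℕ) : ev1 K (av K w) = 1 := by cases w <;> simp [ev1, av]
lemma ev1_C (c : K) : ev1 K (MvPolynomial.C c) = c := by simp [ev1]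
lemma ev1_dvv (w : ℕ) : ev1 K (dvv x w) = x := by rw [dvv, map_add, ev1_av, ev1_C]; ring
lemma ev1_ty (last c w : ℕ) : ev1 K (ty x last c w) = x ^ (if c < last then 1 else 0) := by
  unfold ty; split_ifs <;> simp [ev1_av, ev1_dvv]

lemma ev1_psi (l : List ℕ) : ∀ (last : ℕ) (st : List ℕ) (w : ℕ),
    ev1 K (psi x l last st w) = x ^ des (last :: go l st) := by
  induction l with
  | nil =>
    intro last st
    induction st generalizing last with
    | nil => intro w; simp [psi, go, des, ev1_av]
    | cons c st ih =>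
      intro w
      have := ih c 0
      simp only [go] at this ⊢
      rw [psi, map_mul, this, ev1_ty, des, pow_add]
  | cons a l ihl =>
    intro last st
    induction st generalizing last with
    | nil => intro w; rw [psi, ihl]; simp [go]
    | cons c st ih =>
      intro w
      rw [psi]
      split_ifs with h
      · rw [map_mul, ih c 0, ev1_ty, ← pow_add]
        simp [go, h, des]
      · rw [ihl]; simp [go, h]

lemma go_perm (l : List ℕ) : ∀ st, (go l st).Perm (l ++ st) := by
  induction l with
  | nil => intro st; simp [go]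
  | cons a l ih =>
    intro st
    rw [go]
    refine ((ih _).append_left _).trans ?_
    conv_rhs => rw [← List.takeWhile_append_dropWhile (p := (· < a)) (l := st)]
    refine List.perm_iff_count.2 fun y => ?_
    simp only [List.count_append, List.count_cons, List.cons_append]
    omega

lemma sum_psi (N m : ℕ) : ∀ b, b + m ≤ N →
    ((List.range' b m).permutations'.map fun l => psi x l N [] 1).sum = (D1 x)^[m] (av K 1) := by
  induction m with
  | zero => intro b _; simp [psi]
  | succ m ih =>
    intro b hb
    rw [Function.iterate_succ_apply', ← ih (b + 1) (by omega), map_list_sum, List.range'_succ,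
      List.permutations', List.map_flatMap, List.flatMap_def, List.sum_flatten, List.map_map,
      List.map_map]
    congr 1
    refine List.map_congr_left fun l hl => ?_
    have hl' : ∀ c ∈ l, b < c := by
      intro c hc
      have := (List.mem_permutations'.1 hl).subset hc
      simp at this; omega
    simp only [Function.comp]
    rw [D1_psi x b l N [] 1 (by omega) (by simp) hl', perm_ins, List.map_cons, List.sum_cons,
      psi_front x b l N [] 1 (by omega) (by simp) hl']
    simp

lemma sum_perm {M : Type*} [AddCommMonoid M] (m : ℕ) (F : List ℕ → M) :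
    ∑ σ : Equiv.Perm (Fin m), F (List.ofFn fun i => (σ i : ℕ) + 1) =
      ((List.range' 1 m).permutations'.map F).sum := by
  have hn : (List.range' 1 m).permutations'.Nodup :=
    (List.permutations_perm_permutations' _).nodup_iff.1
      (List.nodup_permutations _ (List.nodup_range' _))
  rw [← List.sum_toFinset _ hn]
  have hmem : ∀ σ : Equiv.Perm (Fin m), (List.ofFn fun i => (σ i : ℕ) + 1) ∈
      (List.range' 1 m).permutations'.toFinset := by
    intro σ
    rw [List.mem_toFinset, List.mem_permutations']
    refine (σ.ofFn_comp_perm fun i : Fin m => (i : ℕ) + 1).trans (List.Perm.of_eq ?_)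
    apply List.ext_getElem <;> simp [add_comm]
  have hinj : ∀ σ τ : Equiv.Perm (Fin m), (List.ofFn fun i => (σ i : ℕ) + 1) =
      (List.ofFn fun i => (τ i : ℕ) + 1) → σ = τ := by
    intro σ τ h
    ext i
    have := congrFun (List.ofFn_injective h) i
    omega
  refine sum_bij (fun σ _ => List.ofFn fun i => (σ i : ℕ) + 1) (fun σ _ => hmem σ)
    (fun σ _ τ _ h => hinj σ τ h) (fun l hl => ?_) (fun _ _ => rfl)
  obtain ⟨σ, h1, h2⟩ := surj_on_of_inj_on_of_card_le (s := univ)
    (fun (σ : Equiv.Perm (Fin m)) _ => List.ofFn fun i => (σ i : ℕ) + 1) (fun σ _ => hmem σ)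
    (fun σ τ _ _ h => hinj σ τ h) (by
      rw [List.toFinset_card_of_nodup hn, ← (List.permutations_perm_permutations' _).length_eq,
        List.length_permutations, card_univ, Fintype.card_perm]
      simp) l hl
  exact ⟨σ, h1, h2.symm⟩

/-- The polynomial `A_{m+1}(x)`. -/
noncomputable def A (m : ℕ) : K :=
  ∑ σ : Equiv.Perm (Fin m), x ^ (des (s (List.ofFn fun i => (σ i : ℕ) + 1)) + 1)

lemma A_eq (m : ℕ) : ev1 K ((D1 x)^[m + 1] (av K 1)) = A x (m + 1) := by
  rw [← sum_psi x (m + 3) (m + 1) 1 (by omega), A,
    sum_perm (m + 1) fun l => x ^ (des (s l) + 1), map_list_sum, List.map_map]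
  congr 1
  refine List.map_congr_left fun l hl => ?_
  have hp := (go_perm l []).trans (by simpa using List.mem_permutations'.1 hl :
    (l ++ []).Perm (List.range' 1 (m + 1)))
  simp only [Function.comp, ev1_psi, s]
  congr 1
  cases h : go l [] with
  | nil => rw [h] at hp; simpa using hp.length_eq
  | cons c t =>
    have : c ∈ List.range' 1 (m + 1) := hp.subset (by simp [h])
    have hc : c < m + 3 := by simp at this; omega
    rw [des, if_pos hc, add_comm]

lemma A_zero : A x 0 = x := by simp [A, s, go, des]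

lemma des_le : ∀ l : List ℕ, des l ≤ l.length - 1
  | [] => by simp [des]
  | [_] => by simp [des]
  | a :: b :: l => by
    have := des_le (b :: l)
    simp only [des, List.length_cons] at this ⊢
    split_ifs <;> omega

lemma A_sum (m N : ℕ) (h : m + 2 ≤ N) : A x m = ∑ k ∈ range N, (a (m + 1) k : K) * x ^ k := by
  rw [A, ← sum_fiberwise_of_maps_to (s := univ) (t := range N)
    (g := fun σ : Equiv.Perm (Fin m) => des (s (List.ofFn fun i => (σ i : ℕ) + 1)) + 1)]
  · refine sum_congr rfl fun k _ => ?_
    rw [sum_congr rfl (g := fun _ => x ^ k) fun σ hσ => by rw [(mem_filter.1 hσ).2], sum_const,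
      nsmul_eq_mul]
    rfl
  · intro σ _
    have h1 := des_le (s (List.ofFn fun i => (σ i : ℕ) + 1))
    have h2 := (go_perm (List.ofFn fun i => (σ i : ℕ) + 1) []).length_eq
    simp only [s, List.append_nil, List.length_ofFn] at h1 h2 ⊢
    rw [mem_range]; omega

lemma a_big (m k : ℕ) (h : m + 2 ≤ k) : a (m + 1) k = 0 := by
  rw [a, card_eq_zero, filter_eq_empty_iff]
  intro σ _
  have h1 := des_le (s (List.ofFn fun i => (σ i : ℕ) + 1))
  have h2 := (go_perm (List.ofFn fun i => (σ i : ℕ) + 1) []).length_eq
  simp only [s, List.append_nil, List.length_ofFn] at h1 h2 ⊢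
  omega

lemma A_one (m : ℕ) : A (1 : K) m = m.factorial := by simp [A, Fintype.card_perm]

section Der
variable {R : Type*} [CommRing R] [Algebra K R] (D : Derivation K R R)

noncomputable def Dt (φ : R⟦X⟧) : R⟦X⟧ := PowerSeries.mk fun n => D (PowerSeries.coeff n φ)

lemma Dt_add (φ ψ : R⟦X⟧) : Dt D (φ + ψ) = Dt D φ + Dt D ψ := by ext n; simp [Dt]
lemma Dt_sh (φ : R⟦X⟧) : Dt D (sh φ) = sh (Dt D φ) := by ext n; simp [Dt, sh]
lemma Dt_one : Dt D 1 = 0 := by
  ext n; simp only [Dt, PowerSeries.coeff_mk, PowerSeries.coeff_one]; split_ifs <;> simp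
lemma Dt_mul (φ ψ : R⟦X⟧) : Dt D (φ * ψ) = Dt D φ * ψ + φ * Dt D ψ := by
  ext n
  simp only [Dt, PowerSeries.coeff_mk, PowerSeries.coeff_mul, map_sum, map_add, ← sum_add_distrib,
    Derivation.leibniz, smul_eq_mul]
  exact sum_congr rfl fun p _ => by ring
lemma Dt_cc (φ : R⟦X⟧) : PowerSeries.constantCoeff (Dt D φ) = D (PowerSeries.constantCoeff φ) := by
  rw [← PowerSeries.coeff_zero_eq_constantCoeff_apply, ← PowerSeries.coeff_zero_eq_constantCoeff_apply,
    Dt, PowerSeries.coeff_mk]

lemma D_lam (r : R⟦X⟧) (hr : Dt D r = 0) (φ : R⟦X⟧) (n : ℕ) :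
    D (lam r φ n) = lam r (Dt D φ) n := by
  induction n generalizing φ with
  | zero => rw [lam_zero, lam_zero, Dt_cc]
  | succ n ih =>
    rw [lam_succ, lam_succ, ih]; congr 1
    simp only [U]; rw [Dt_add, Dt_mul, hr, Dt_sh]; ring

end Der

open PowerSeries in
lemma model1 (c : K) (n : ℕ) :
    lam (-(C (x - 1) * mk 1) - C c) (1 - X) (n + 1) =
      -∑ i ∈ range (n + 1), (n.choose i : K) * ((A x i + if i = 0 then c else 0) *
        lam (-(C (x - 1) * mk 1) - C c) (1 - X) (n - i)) := by
  set Av : (MvPolynomial ℕ K)⟦X⟧ := mk (av K) with hAv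
  set I := invOfUnit Av 1 with hI
  have hA0 : constantCoeff Av = 1 := by
    rw [← coeff_zero_eq_constantCoeff_apply, hAv, coeff_mk, av]
  have hAI : Av * I = 1 := mul_invOfUnit Av 1 hA0
  have hI0 : constantCoeff I = 1 := by simpa [hA0] using congrArg constantCoeff hAI
  set G : (MvPolynomial ℕ K)⟦X⟧ := mk 1 with hG
  set c1 : MvPolynomial ℕ K := MvPolynomial.C (x - 1) with hc1
  set c2 : MvPolynomial ℕ K := MvPolynomial.C c with hc2
  set r : (MvPolynomial ℕ K)⟦X⟧ := -(C c1 * G) - C c2 with hr
  have hD1 : D1 x c1 = 0 := D1_C x _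
  have hD2 : D1 x c2 = 0 := D1_C x _
  have hE1 : ev1 K c1 = x - 1 := ev1_C _
  have hE2 : ev1 K c2 = c := ev1_C _
  have hdv : ∀ w, dvv x w = av K w + c1 := fun w => rfl
  clear_value c1 c2
  have hDr : Dt (D1 x) r = 0 := by
    ext1 n
    simp only [Dt, hr, hG, coeff_mk, map_sub, map_neg, coeff_C_mul, Pi.one_apply, mul_one, coeff_C,
      hD1]
    split_ifs <;> simp [hD2]
  have hDA : Dt (D1 x) Av = (sh Av + C c1 * G - C (dvv x 1)) * Av := by
    have e : sh Av + C c1 * G = mk fun j => dvv x (j + 1) := by
      ext1 n; simp [sh, hAv, hG, hdv]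
    rw [e]
    ext1 n
    rw [sub_mul, map_sub, coeff_C_mul, coeff_mul,
      Finset.Nat.sum_antidiagonal_eq_sum_range_succ
        (fun i j => coeff i (mk fun j => dvv x (j + 1)) * coeff j Av), sum_range_succ']
    simp only [Dt, hAv, coeff_mk, D1_av, zero_add, tsub_zero, add_sub_cancel_right]
    refine sum_congr rfl fun j _ => ?_
    congr 2; omega
  have hshI : sh I = -(sh Av * I) := by
    have := sh_mul Av I
    rw [hAI, hA0, ← map_one (C (R := MvPolynomial ℕ K)), sh_C] at this
    simp only [map_one, one_mul] at this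
    linear_combination -this
  have hDI : Dt (D1 x) I = U r I + C (dvv x 1 + c2) * I := by
    have := Dt_mul (D1 x) Av I
    rw [hAI, Dt_one, hDA] at this
    simp only [U, hshI, hr, map_add]
    linear_combination (-I) * this - (Dt (D1 x) I + (sh Av + C c1 * G - C (dvv x 1)) * I) * hAI
  have hm := cumul (D1 x) (dvv x 1 + c2) (lam r I) (by rw [lam_zero, hI0]) (fun n => by
    rw [D_lam _ r hDr, hDI, lam_add, lam_C_mul, lam_succ]; ring) n
  have hmr : map (ev1 K) r = -(C (x - 1) * mk 1) - C c := by
    ext1 n
    rw [← hE1, coeff_map]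
    simp only [hr, hG, map_sub, map_neg, coeff_C_mul, coeff_mk, Pi.one_apply, mul_one, coeff_C]
    split_ifs <;> simp [hE2]
  have hmI : map (ev1 K) I = 1 - X := by
    have h1 : map (ev1 K) Av = mk 1 := by ext1 n; simp [hAv, ev1_av]
    have h2 := congrArg (map (ev1 K)) hAI
    rw [map_mul, h1, map_one] at h2
    have h3 := mk_one_mul_one_sub_eq_one K
    linear_combination (1 - X) * h2 - (map (ev1 K) I) * h3
  have := congrArg (ev1 K) hm
  simp only [map_neg, map_sum, map_mul, map_natCast, map_lam, hmr, hmI] at this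
  rw [this]
  congr 1
  refine sum_congr rfl fun i _ => ?_
  congr 2
  cases i with
  | zero => simp [ev1_dvv, A_zero, hE2]
  | succ i =>
    rw [← A_eq, Function.iterate_succ_apply, Function.iterate_succ_apply, map_add, hD2,
      D1_dvv, D1_av]
    simp

open PowerSeries in
theorem Bc_eq (i : ℕ) : Bc (1 - x) 1 i = A x i + if i = 0 then 2 - x else 0 := by
  obtain ⟨σ, hX, hC⟩ := exists_subst (mk 1 : K⟦X⟧)
  have h3 := mk_one_mul_one_sub_eq_one K
  have hq : constantCoeff (mk 1 : K⟦X⟧) = 1 := by
    rw [← coeff_zero_eq_constantCoeff_apply, coeff_mk]; rfl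
  have hsh : sh (mk 1 : K⟦X⟧) = mk 1 := by ext n; simp [sh]
  have key : ∀ n, lam (-(C (x - 1) * mk 1) - C (2 - x)) (1 - X) n = H (1 - x) 1 n 0 := by
    intro n
    rw [← lam_H, ← lam_conj σ (mk 1) (C (1 - x) * X) (-(C (x - 1) * mk 1) - C (2 - x)) hX hC hq]
    · congr 1
      have h4 := congrArg σ (H0_mul (1 - x))
      simp only [map_mul, map_add, map_one, hX] at h4
      have h5 : (1 + X * mk 1 : K⟦X⟧) = mk 1 := by linear_combination -h3
      rw [h5] at h4
      linear_combination (-(1 - X)) * h4 + (mk 1 * σ (mk (H (1 - x) 1 0))) * h3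
    · rw [hsh, map_mul, hX, hC]
      simp only [map_sub, map_one, map_ofNat]
      linear_combination ((1 - C x) * mk 1) * h3
  refine cum_unique (fun n => H (1 - x) 1 n 0) _ (fun i => A x i + if i = 0 then 2 - x else 0)
    (H00 _ _) (Bc_spec _ _) (fun n => ?_) i
  simp only [← key]
  exact model1 x (2 - x) n

end Pool.Agent.Lib.MP_3b1384_co
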