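import Pool.Agent.Lib.MP_3b1384_co.Strip

namespace Pool.Agent.Lib.MP_3b1384_co

def q1 : Sp := ⟨[-728698950019079892627314, 467388770470005259635751, 93669557476109424515540,
    17065759211569063569745, 887205230593031670593, -717581817446078053295,
    -244150718167894402663, -10641346189622529817, 15871232799171845525, 4813577802992378401,
    -85606433414681322, -418300333967672203, -95710258644513486, 12225168046141733,
    11266134242497720, 1674116030938925, -592300168670356, -294264838615349, -17793893869570,
    22641742961187, 7159315381485, -366970527065, -763141315844, -152117207632, 35447926020,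
    23317075571, 2331581764, -1683426741, -643914460, 4658293, 64280734, 15547200, -2462185,
    -2151604, -293652, 140238],
  (-27 / 10), (56 / 25), (121 / 100), (21 / 10), (3 / 125), (1071 / 16384), (-10269 / 16384),
    (6091 / 524288), (5051 / 262144), (1081 / 524288), (41 / 4), (75 / 4), (81429 / 524288),
    (100989 / 524288), (11 / 512),
  27, 100, 1999, 2048, 20,
  ⟨40, 140, 107, 100, (41 / 16), (161 / 32), (1037 / 131072), (4655 / 32), 1177, (5 /
    2251799813685248)⟩,
  ⟨38, 250, 1, 1, (299 / 128), (299 / 64), (913 / 2048), (7181 / 16), (1181 / 256), 0⟩⟩

set_option maxRecDepth 100000 in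
theorem q1_ok : chkS (mkC 80 143 36) (mkC 80 143 30) q1 = true := by decide +kernel

end Pool.Agent.Lib.MP_3b1384_co
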