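import Pool.Agent.Lib.MP_3b1384_co.Strip

namespace Pool.Agent.Lib.MP_3b1384_co

def q2 : Sp := ⟨[-422517314651773487755444, 577648485363687996797988, 116842713359695108698698,
    14549677307441015508720, -2098859805987768895189, -1231515873912136060264,
    -64467613686983268660, 83085737817584035699, 18725261985925659437, -3907082077709628531,
    -2201136304238068841, 2996245381908563, 194647389788169841, 28294693841102082,
    -13616063166180171, -4541345723120429, 637125422602139, 518752296607684, 10140324806254,
    -49094911206600, -7715619063019, 3833884915679, 1303772363930, -209078931389, -162487121228,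
    -1201435717, 16656981082, 2482124092, -1386005186, -457634299, 80009380, 59603052, 119305,
    -6274900, -912957, 533722],
  (-7 / 5), (109 / 50), (27 / 20), 2, (1 / 40), (1213 / 16384), (-98173 / 262144), (507 / 32768),
    (6607 / 262144), (2635 / 1048576), 9, (65 / 4), (100583 / 524288), (32777 / 131072), (11 /
    512),
  33, 100, 1997, 2048, 20,
  ⟨40, 75, 108, 100, (69 / 32), (267 / 64), (4885 / 2097152), (733 / 16), (6603 / 16), (21 /
    4503599627370496)⟩,
  ⟨38, 170, 1, 1, (259 / 128), (259 / 64), (2443 / 8192), (6593 / 32), (1001 / 256), 0⟩⟩

set_option maxRecDepth 100000 in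
theorem q2_ok : chkS (mkC 80 127 36) (mkC 80 127 30) q2 = true := by decide +kernel

end Pool.Agent.Lib.MP_3b1384_co
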