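import Pool.Agent.Lib.MP_3b1384_co.Strip

namespace Pool.Agent.Lib.MP_3b1384_co

def q3 : Sp := ⟨[34345194321045903006631, 761928603259210576090457, 139520717350723522368530,
    3374665309803978779043, -5883228993437846728495, -537857151989226387600,
    415815973907107970500, 62105794346733540091, -32994134439204915978, -6553293489637772829,
    2760430803825732128, 658117688686637882, -241275927857670363, -63849933979922424,
    22208266465288767, 6050211782523273, -2175046843623607, -567251821349458, 226983184640799,
    53528875639440, -24947251490568, -5184128222715, 2831623325895, 523477377266, -325603781440,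
    -55348487021, 37413571570, 6067406662, -4265034310, -676872993, 481534436, 75384243,
    -53971605, -8258469, 6035254, 881796],
  (1 / 10), (11 / 5), (141 / 100), 2, (1 / 40), (1213 / 16384), (114409 / 33554432), (2541 /
    131072), (7419 / 262144), (325 / 131072), (17 / 2), (115 / 8), (130431 / 524288), (85245 /
    262144), (1 / 64),
  37, 100, 2011, 2048, 20,
  ⟨40, 55, 108, 100, (109 / 64), (417 / 128), (1209 / 2097152), (7567 / 512), (3489 / 32), (3 /
    140737488355328)⟩,
  ⟨38, 110, 1, 1, (431 / 256), (431 / 128), (4595 / 32768), (335 / 4), (3057 / 1024), 0⟩⟩

set_option maxRecDepth 100000 in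
theorem q3_ok : chkS (mkC 80 111 36) (mkC 80 111 30) q3 = true := by decide +kernel

end Pool.Agent.Lib.MP_3b1384_co
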