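import Pool.Agent.Lib.MP_3b1384_co.Strip

namespace Pool.Agent.Lib.MP_3b1384_co

def q4 : Sp := ⟨[575586973984676970711411, 920328648205122036381525, 126640010428009730846284,
    -10877280834770362223067, -4580710611828702177625, 957759807720465883395,
    256138031100723531573, -91342980251365024688, -13119692340853582556, 8431234978046315863,
    356984285029803356, -722652669302602384, 37619582538679372, 55249554266487565,
    -8771854837665641, -3461833568426831, 1122435625350362, 125840102705505, -110217732140789,
    8158959780021, 8337954731541, -2486412897995, -367014547670, 352042178680, -21818151137,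
    -37721935882, 8204209207, 3218033753, -1331442450, -197345278, 165405618, 2866983, -17205045,
    1493484, 1507657, -297327],
  (3 / 2), (54 / 25), (133 / 100), 2, (1 / 40), (1213 / 16384), (7391 / 16384), (4559 / 262144),
    (7213 / 262144), (739 / 262144), (69 / 8), (61 / 4), (42129 / 131072), (99903 / 262144), (21 /
    1024),
  31, 100, 125, 128, 20,
  ⟨40, 55, 108, 100, (477 / 256), (477 / 128), (4743 / 8388608), (841 / 64), (2427 / 64), (17 /
    2251799813685248)⟩,
  ⟨38, 100, 1, 1, (439 / 256), (439 / 128), (4625 / 65536), (3153 / 64), (2757 / 1024), 0⟩⟩

set_option maxRecDepth 100000 in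
theorem q4_ok : chkS (mkC 80 111 36) (mkC 80 111 30) q4 = true := by decide +kernel

end Pool.Agent.Lib.MP_3b1384_co
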