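import Pool.Agent.Lib.MP_3b1384_co.Strip

namespace Pool.Agent.Lib.MP_3b1384_co

def q5 : Sp := ⟨[1075408032692357018969990, 1019557036845016316318559, 100519019381415442625045,
    -16333733373743502525117, -1478997837198825730141, 1106717147320804118848,
    -68213077717563061245, -65030658680946985827, 14672835498398361466, 2454924383164372628,
    -1449393299870094390, 44165847682941571, 98610337387080847, -18395491061520363,
    -4108757268059008, 1893888646423103, -22886811300916, -114590867163454, 19836248176582,
    2526073885649, -1400019323362, 285998454021, -34423024775, -28473127506, 18790694227,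
    -1308919726, -2294324583, 659486645, 144396979, -100569364, 1611932, 10189696, -1741117,
    -734627, 267899, 31742],
  (13 / 5), (53 / 25), (5 / 4), 2, (3 / 125), (1071 / 16384), (56725 / 65536), (7515 / 524288),
    (2971 / 131072), (2661 / 1048576), (19 / 2), (67 / 4), (387 / 1024), (54461 / 131072), (3 /
    128),
  24, 100, 997, 1024, 20,
  ⟨40, 85, 107, 100, (499 / 256), (499 / 128), (4025 / 4194304), (1589 / 64), (6729 / 256), (31 /
    18014398509481984)⟩,
  ⟨38, 125, 1, 1, (229 / 128), (229 / 64), (671 / 8192), (6735 / 128), (6305 / 2048), 0⟩⟩

set_option maxRecDepth 100000 in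
theorem q5_ok : chkS (mkC 80 111 36) (mkC 80 111 30) q5 = true := by decide +kernel

end Pool.Agent.Lib.MP_3b1384_co
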