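import Pool.Agent.Lib.MP_3b1384_co.Upper

namespace Pool.Agent.Lib.MP_3b1384_co

def q6 : Up := ⟨[458177053514036695490047517014, 304365356130604011229361858074,
    -51799035761080838875410781966, 12918852439817708130574316922, -3925814854684173827248164936,
    1360455652948722540669464515, -517490579362376731972581332, 210530889634453843832443893,
    -89960937247060275649634954, 39870029384601757997612232, -18167538068271926159149131,
    8459429066737070620012631, -4007578257373668098146131, 1925449184641813299696056,
    -935952638096320874176947, 459466008059560984615343, -227462494925200789130871,
    113430175048016115813438, -56925837678310418893360, 28729197945577680031236,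
    -14571272032069898449839, 7423378028962556995294, -3797002422791542192371,
    1949164504175889855952, -1003877034255758136665, 518575455970804332320,
    -268617046007846482873, 139492007029759652803, -72606308845543751916, 37873314685591083036,
    -19795158009240205304, 10365520409989509829, -5437203420751536907, 2856692617759241423,
    -1503178819082826916, 792094106416302441, -417950917185184021, 220812003356544639,
    -116798779342059146, 61850611674637586, -32787917849090110, 17398984600950937,
    -9241704576044691, 4913352075060468, -2614461797301235, 1392347518150593, -742091488368158,
    395818738575503, -211275912675346, 112850872337834, -60318225758340, 32260350413049,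
    -17264554612098, 9244788985295, -4953179942178, 2655262126878],
  (11 / 4), (23 / 100), (91 / 1024), (363 / 4096), (99 / 100), (1 / 120), (371 / 256), (6795 /
    16384),
  50, 51, 1, 3, 38,
  ⟨44, 86, 51, 50, (181 / 64), (181 / 32), (1261 / 524288), (7063 / 256), (4837 / 32), (19 /
    144115188075855872)⟩⟩

set_option maxRecDepth 100000 in
theorem q6_ok : chkU (mkC 100 115 56) q6 = true := by decide +kernel

end Pool.Agent.Lib.MP_3b1384_co
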