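import Pool.Agent.Lib.MP_3b1384_co.Small

namespace Pool.Agent.Lib.MP_3b1384_co

set_option maxRecDepth 100000 in
theorem q7_ok : chkF (mkC 155 164 28) (mkC 155 164 201) 53 400 60000000000 = true := by
  decide +kernel

end Pool.Agent.Lib.MP_3b1384_co
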