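import Mathlib

namespace Pool.Agent.Lib.MP_3b1384_co

/-- Stack machine: remaining input, current stack (top first); returns the output word. -/
def go : List ℕ → List ℕ → List ℕ
  | [], st => st
  | a :: l, st => st.takeWhile (· < a) ++ go l (a :: st.dropWhile (· < a))

/-- West's stack-sorting map. -/
def s (w : List ℕ) : List ℕ := go w []

/-- Number of descents of a word. -/
def des : List ℕ → ℕ
  | a :: b :: l => (if b < a then 1 else 0) + des (b :: l)
  | _ => 0

/-- The number of permutations of `1, ..., n-1` with `des (s σ) + 1 = k`. -/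
def a (n k : ℕ) : ℕ :=
  (Finset.univ.filter fun σ : Equiv.Perm (Fin (n - 1)) =>
    des (s (List.ofFn fun i => (σ i : ℕ) + 1)) + 1 = k).card

end Pool.Agent.Lib.MP_3b1384_co
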