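import Mathlib

namespace Pool.Agent.Lib.MP_3b1384_co
open Finset Real intervalIntegral

lemma int_cos (m : ℤ) : ∫ θ in (0 : ℝ)..π, cos (m * θ) = if m = 0 then π else 0 := by
  split_ifs with h
  · simp [h]
  · have : (m : ℝ) ≠ 0 := by exact_mod_cast h
    rw [integral_comp_mul_left (fun x => cos x) this]
    simp [sin_int_mul_pi]

lemma fourier (p : ℕ → ℝ) (N k : ℕ) (hk : k + 2 < N) :
    ∫ θ in (0 : ℝ)..π, (∑ j ∈ range N, p j * cos ((j - (k + 1)) * θ)) * (1 - cos θ) =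
      π * (p (k + 1) - (p k + p (k + 2)) / 2) := by
  have e : ∀ θ : ℝ, (∑ j ∈ range N, p j * cos ((j - (k + 1)) * θ)) * (1 - cos θ) =
      ∑ j ∈ range N, p j * (cos (((j - (k + 1) : ℤ)) * θ) - (cos (((j - k : ℤ)) * θ) +
        cos (((j - (k + 2) : ℤ)) * θ)) / 2) := fun θ => by
    rw [sum_mul]
    refine sum_congr rfl fun j _ => ?_
    push_cast
    rw [show (j - k : ℝ) * θ = (j - (k + 1)) * θ + θ by ring,
      show (j - (k + 2) : ℝ) * θ = (j - (k + 1)) * θ - θ by ring, cos_add, cos_sub]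
    ring
  simp only [e]
  rw [integral_finset_sum fun j _ => Continuous.intervalIntegrable (by fun_prop) _ _]
  have e2 : ∀ j : ℕ, ∫ θ in (0 : ℝ)..π, p j * (cos (((j - (k + 1) : ℤ)) * θ) -
      (cos (((j - k : ℤ)) * θ) + cos (((j - (k + 2) : ℤ)) * θ)) / 2) =
      (if j = k + 1 then π * p j else 0) - ((if j = k then π * p j else 0) +
        if j = k + 2 then π * p j else 0) / 2 := fun j => by
    rw [integral_const_mul, integral_sub (Continuous.intervalIntegrable (by fun_prop) _ _)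
      (Continuous.intervalIntegrable (by fun_prop) _ _), integral_div,
      integral_add (Continuous.intervalIntegrable (by fun_prop) _ _)
      (Continuous.intervalIntegrable (by fun_prop) _ _), int_cos, int_cos, int_cos]
    have a1 : ((j - (k + 1) : ℤ) = 0) = (j = k + 1) := propext (by omega)
    have a2 : ((j - k : ℤ) = 0) = (j = k) := propext (by omega)
    have a3 : ((j - (k + 2) : ℤ) = 0) = (j = k + 2) := propext (by omega)
    simp only [a1, a2, a3]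
    split_ifs <;> ring
  simp only [e2, sum_sub_distrib, ← sum_div, sum_add_distrib, sum_ite_eq', mem_range]
  rw [if_pos (by omega), if_pos (by omega), if_pos hk]; ring

lemma cos_le4 {x : ℝ} (hx : 0 ≤ x) : cos x ≤ 1 - x ^ 2 / 2 + x ^ 4 / 24 := by
  have h : ∫ y in (0 : ℝ)..x, (y - y ^ 3 / 6) ≤ ∫ y in (0 : ℝ)..x, sin y :=
    integral_mono_on hx (Continuous.intervalIntegrable (by fun_prop) _ _)
      (Continuous.intervalIntegrable (by fun_prop) _ _) fun y hy => sin_ge_sub_cube hy.1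
  rw [integral_sub (Continuous.intervalIntegrable (by fun_prop) _ _)
    (Continuous.intervalIntegrable (by fun_prop) _ _), integral_div] at h
  simp at h
  linarith

lemma gauss {b1 b2 A3 A5 A7 A9 X : ℝ} (h1 : 0 < b1) (h2 : 0 < b2) (a5 : 0 ≤ A5) (a7 : 0 ≤ A7)
    (a9 : 0 ≤ A9) :
    A3 * ((1 - (1 + b2 * X ^ 2) * exp (-(b2 * X ^ 2))) / (2 * b2 ^ 2)) - A5 / b2 ^ 3 -
      (3 * A7 / b1 ^ 4 + 12 * A9 / b1 ^ 5) ≤
    ∫ θ in (0 : ℝ)..X, (exp (-(b2 * θ ^ 2)) * (A3 * θ ^ 3 - A5 * θ ^ 5) -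
      exp (-(b1 * θ ^ 2)) * (A7 * θ ^ 7 + A9 * θ ^ 9)) := by
  have d : ∀ b θ : ℝ, HasDerivAt (fun θ => exp (-(b * θ ^ 2))) (exp (-(b * θ ^ 2)) * -(b * (2 * θ))) θ :=
    fun b θ => by simpa using (((hasDerivAt_pow 2 θ).const_mul b).neg).exp
  rw [integral_eq_sub_of_hasDerivAt (f := fun θ => exp (-(b2 * θ ^ 2)) *
      (-A3 * (b2 * θ ^ 2 + 1) / (2 * b2 ^ 2) +
        A5 * (b2 ^ 2 * θ ^ 4 + 2 * b2 * θ ^ 2 + 2) / (2 * b2 ^ 3)) +
      exp (-(b1 * θ ^ 2)) * (A7 * (b1 ^ 3 * θ ^ 6 + 3 * b1 ^ 2 * θ ^ 4 + 6 * b1 * θ ^ 2 + 6) /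
        (2 * b1 ^ 4) + A9 * (b1 ^ 4 * θ ^ 8 + 4 * b1 ^ 3 * θ ^ 6 + 12 * b1 ^ 2 * θ ^ 4 +
          24 * b1 * θ ^ 2 + 24) / (2 * b1 ^ 5))) (fun θ _ => ?_)
    (Continuous.intervalIntegrable (by fun_prop) _ _)]
  · have p1 : 0 ≤ exp (-(b2 * X ^ 2)) *
      (A5 * (b2 ^ 2 * X ^ 4 + 2 * b2 * X ^ 2 + 2) / (2 * b2 ^ 3)) := by positivity
    have p2 : 0 ≤ exp (-(b1 * X ^ 2)) * (A7 * (b1 ^ 3 * X ^ 6 + 3 * b1 ^ 2 * X ^ 4 + 6 * b1 * X ^ 2 + 6) /
        (2 * b1 ^ 4) + A9 * (b1 ^ 4 * X ^ 8 + 4 * b1 ^ 3 * X ^ 6 + 12 * b1 ^ 2 * X ^ 4 +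
          24 * b1 * X ^ 2 + 24) / (2 * b1 ^ 5)) := by positivity
    refine le_of_sub_nonneg (le_of_le_of_eq (add_nonneg p1 p2) ?_)
    simp only [ne_eq, OfNat.ofNat_ne_zero, not_false_eq_true, zero_pow, mul_zero, neg_zero, exp_zero]
    field_simp
    ring
  · have q := fun n => hasDerivAt_pow n θ
    refine (((d b2 θ).fun_mul ((((((q 2).const_mul b2).add_const 1).const_mul (-A3)).div_const
      (2 * b2 ^ 2)).fun_add
      ((((((q 4).const_mul (b2 ^ 2)).fun_add ((q 2).const_mul (2 * b2))).add_const 2).const_mul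
        A5).div_const (2 * b2 ^ 3)))).fun_add
      ((d b1 θ).fun_mul ((((((((q 6).const_mul (b1 ^ 3)).fun_add ((q 4).const_mul (3 * b1 ^ 2))).fun_add
        ((q 2).const_mul (6 * b1))).add_const 6).const_mul A7).div_const (2 * b1 ^ 4)).fun_add
      ((((((((q 8).const_mul (b1 ^ 4)).fun_add ((q 6).const_mul (4 * b1 ^ 3))).fun_add
        ((q 4).const_mul (12 * b1 ^ 2))).fun_add ((q 2).const_mul (24 * b1))).add_const 24).const_mul
        A9).div_const (2 * b1 ^ 5))))).congr_deriv ?_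
    push_cast
    field_simp
    ring

def mainF {α : Type*} [Field α] (c1 c2 K κ κ' θ0 n0 : α) : α :=
  (3 / (4 * κ) - κ / (48 * n0)) * ((1 - 6 * (1 + c2 * n0 * θ0 ^ 2) / (c2 * n0 * θ0 ^ 2) ^ 3) /
    (2 * c2 ^ 2)) - (1 / (4 * κ ^ 3) + 1 / (48 * κ * n0)) / c2 ^ 3 -
    (3 * (K ^ 2 * κ' / 8) / c1 ^ 4 + 12 * (K ^ 2 / (8 * κ')) / c1 ^ 5) / n0

lemma pt_bound {n θ c1 c2 K a a' : ℝ} (g : ℂ) (hn : 0 ≤ n) (hθ : 0 ≤ θ) (ha : 0 < a) (ha' : 0 < a')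
    (g1 : -(c2 * θ ^ 2) ≤ g.re) (g2 : g.re ≤ -(c1 * θ ^ 2)) (g3 : |g.im| ≤ K * θ ^ 3) :
    exp (-(c2 * n * θ ^ 2)) * ((3 / (4 * a) - a / 48) * θ ^ 3 - (1 / (4 * a ^ 3) + 1 / (48 * a)) * θ ^ 5) -
      exp (-(c1 * n * θ ^ 2)) * (n ^ 2 * K ^ 2 * a' / 8 * θ ^ 7 + n ^ 2 * K ^ 2 / (8 * a') * θ ^ 9) ≤
    (Complex.exp (n * g)).re * (1 - cos θ) := by
  rw [Complex.exp_re]
  simp only [Complex.re_ofReal_mul, Complex.im_ofReal_mul]
  have e1 : exp (-(c2 * n * θ ^ 2)) ≤ exp (n * g.re) := exp_le_exp.2 (by nlinarith)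
  have e2 : exp (n * g.re) ≤ exp (-(c1 * n * θ ^ 2)) := exp_le_exp.2 (by nlinarith)
  have c0 : 0 ≤ 1 - cos θ := sub_nonneg.2 (cos_le_one θ)
  have cu : 1 - cos θ ≤ θ ^ 2 / 2 := by linarith [one_sub_sq_div_two_le_cos (x := θ)]
  have cl : (3 / (4 * a) - a / 48) * θ ^ 3 - (1 / (4 * a ^ 3) + 1 / (48 * a)) * θ ^ 5 ≤ 1 - cos θ := by
    have k1 : 0 ≤ θ ^ 2 * ((θ - a) ^ 2 * (θ + 2 * a)) / (4 * a ^ 3) + θ ^ 3 * (θ - a) ^ 2 / (48 * a) := by
      positivity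
    refine le_trans ?_ (by linarith [cos_le4 hθ] : θ ^ 2 / 2 - θ ^ 4 / 24 ≤ 1 - cos θ)
    refine le_of_sub_nonneg (le_of_le_of_eq k1 ?_)
    field_simp; ring
  have i2 : (n * g.im) ^ 2 ≤ n ^ 2 * K ^ 2 * θ ^ 6 := by
    have := pow_le_pow_left₀ (abs_nonneg _) g3 2
    rw [sq_abs] at this
    calc _ = n ^ 2 * g.im ^ 2 := by ring
      _ ≤ n ^ 2 * (K * θ ^ 3) ^ 2 := by gcongr
      _ = _ := by ring
  have i3 : (n * g.im) ^ 2 / 2 * (1 - cos θ) ≤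
      n ^ 2 * K ^ 2 * a' / 8 * θ ^ 7 + n ^ 2 * K ^ 2 / (8 * a') * θ ^ 9 := by
    have k1 : 0 ≤ n ^ 2 * K ^ 2 * θ ^ 7 * (θ - a') ^ 2 / (8 * a') := by positivity
    calc _ ≤ n ^ 2 * K ^ 2 * θ ^ 6 / 2 * (θ ^ 2 / 2) := by gcongr
      _ ≤ _ := le_of_sub_nonneg (le_of_le_of_eq k1 (by field_simp; ring))
  have k2 := one_sub_sq_div_two_le_cos (x := n * g.im)
  calc _ ≤ exp (n * g.re) * (1 - cos θ) - exp (n * g.re) * ((n * g.im) ^ 2 / 2 * (1 - cos θ)) := by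
        refine sub_le_sub ((mul_le_mul_of_nonneg_left cl (exp_pos _).le).trans ?_) ?_
        · gcongr
        · exact mul_le_mul e2 i3 (by positivity) (exp_pos _).le
    _ = exp (n * g.re) * (1 - (n * g.im) ^ 2 / 2) * (1 - cos θ) := by ring
    _ ≤ _ := by gcongr

theorem saddle (p : ℕ → ℝ) (N k : ℕ) (hk : k + 2 < N) {n n0 θ0 c1 c2 K κ κ' E : ℝ} (h0 : 0 < n0)
    (hn : n0 ≤ n) (hθ : 0 < θ0) (hθ' : θ0 ≤ π) (hc1 : 0 < c1) (hc2 : 0 < c2) (hκ : 0 < κ)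
    (hκ' : 0 < κ') (hE : 0 ≤ E) (hA : 0 ≤ 3 / (4 * κ) - κ / (48 * n0))
    (hτ : 6 * (1 + c2 * n0 * θ0 ^ 2) / (c2 * n0 * θ0 ^ 2) ^ 3 ≤ 1)
    (h1 : ∀ θ, 0 ≤ θ → θ ≤ θ0 → ∃ g : ℂ, -(c2 * θ ^ 2) ≤ g.re ∧ g.re ≤ -(c1 * θ ^ 2) ∧
      |g.im| ≤ K * θ ^ 3 ∧ (Complex.exp (n * g)).re - E ≤ ∑ j ∈ range N, p j * cos ((j - (k + 1)) * θ))
    (h2 : ∀ θ, θ0 ≤ θ → θ ≤ π → -E ≤ ∑ j ∈ range N, p j * cos ((j - (k + 1)) * θ))
    (hm : 2 * π * (√n ^ 3 * E) < mainF c1 c2 K κ κ' θ0 n0) : p k + p (k + 2) < 2 * p (k + 1) := by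
  have hn0 : 0 < n := h0.trans_le hn
  have hν : 0 < √n := sqrt_pos.2 hn0
  have hν2 : √n ^ 2 = n := sq_sqrt hn0.le
  generalize √n = ν at *
  subst hν2
  have f := fourier p N k hk
  rw [← integral_add_adjacent_intervals (b := θ0) (Continuous.intervalIntegrable (by fun_prop) _ _)
    (Continuous.intervalIntegrable (by fun_prop) _ _)] at f
  have cb : ∀ θ, -(2 * E) ≤ -E * (1 - cos θ) := fun θ => by nlinarith [neg_one_le_cos θ]
  have c0 : ∀ θ, 0 ≤ 1 - cos θ := fun θ => sub_nonneg.2 (cos_le_one θ)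
  have i2 := integral_mono_on (μ := MeasureTheory.volume) (f := fun _ => -(2 * E)) hθ'
    (Continuous.intervalIntegrable (by fun_prop) _ _) (Continuous.intervalIntegrable
      (by fun_prop : Continuous fun θ => (∑ j ∈ range N, p j * cos ((j - (k + 1)) * θ)) *
        (1 - cos θ)) _ _)
    fun θ hθ => (cb θ).trans (mul_le_mul_of_nonneg_right (h2 θ hθ.1 hθ.2) (c0 θ))
  have i1 := integral_mono_on (μ := MeasureTheory.volume) (f := fun θ => (exp (-(c2 * ν ^ 2 * θ ^ 2)) *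
      ((3 / (4 * (κ / ν)) - κ / ν / 48) * θ ^ 3 - (1 / (4 * (κ / ν) ^ 3) + 1 / (48 * (κ / ν))) * θ ^ 5) -
      exp (-(c1 * ν ^ 2 * θ ^ 2)) * ((ν ^ 2) ^ 2 * K ^ 2 * (κ' / ν) / 8 * θ ^ 7 +
        (ν ^ 2) ^ 2 * K ^ 2 / (8 * (κ' / ν)) * θ ^ 9)) + -(2 * E)) hθ.le
    (Continuous.intervalIntegrable (by fun_prop) _ _) (Continuous.intervalIntegrable
      (by fun_prop : Continuous fun θ => (∑ j ∈ range N, p j * cos ((j - (k + 1)) * θ)) *
        (1 - cos θ)) _ _)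
    fun θ hθ => by
      obtain ⟨g, g1, g2, g3, g4⟩ := h1 θ hθ.1 hθ.2
      have := pt_bound g hn0.le hθ.1 (div_pos hκ hν) (div_pos hκ' hν) g1 g2 g3
      nlinarith [mul_le_mul_of_nonneg_right g4 (c0 θ), cb θ]
  rw [integral_add (Continuous.intervalIntegrable (by fun_prop) _ _)
    (Continuous.intervalIntegrable (by fun_prop) _ _)] at i1
  have i3 := gauss (X := θ0) (A3 := 3 / (4 * (κ / ν)) - κ / ν / 48)
    (A5 := 1 / (4 * (κ / ν) ^ 3) + 1 / (48 * (κ / ν))) (A7 := (ν ^ 2) ^ 2 * K ^ 2 * (κ' / ν) / 8)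
    (A9 := (ν ^ 2) ^ 2 * K ^ 2 / (8 * (κ' / ν))) (mul_pos hc1 hn0) (mul_pos hc2 hn0) (by positivity)
    (by positivity) (by positivity)
  simp only [integral_const, smul_eq_mul] at i1 i2
  have t1 : (1 + c2 * ν ^ 2 * θ0 ^ 2) * exp (-(c2 * ν ^ 2 * θ0 ^ 2)) ≤
      6 * (1 + c2 * n0 * θ0 ^ 2) / (c2 * n0 * θ0 ^ 2) ^ 3 := by
    have z0 : 0 < c2 * n0 * θ0 ^ 2 := by positivity
    have y1 : c2 * n0 * θ0 ^ 2 ≤ c2 * ν ^ 2 * θ0 ^ 2 := by gcongr
    generalize c2 * n0 * θ0 ^ 2 = y0 at z0 y1 ⊢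
    generalize c2 * ν ^ 2 * θ0 ^ 2 = y at y1 ⊢
    have y2 := z0.trans_le y1
    have := pow_div_factorial_le_exp y y2.le 3
    calc _ ≤ (1 + y) * (y ^ 3 / 6)⁻¹ := by
          rw [exp_neg]; gcongr; simpa [Nat.factorial] using this
      _ = 6 * (1 / y ^ 3 + 1 / y ^ 2) := by field_simp
      _ ≤ 6 * (1 / y0 ^ 3 + 1 / y0 ^ 2) := by gcongr
      _ = _ := by field_simp
  have key : mainF c1 c2 K κ κ' θ0 n0 ≤ ν ^ 3 * ((3 / (4 * (κ / ν)) - κ / ν / 48) *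
      ((1 - (1 + c2 * ν ^ 2 * θ0 ^ 2) * exp (-(c2 * ν ^ 2 * θ0 ^ 2))) / (2 * (c2 * ν ^ 2) ^ 2)) -
      (1 / (4 * (κ / ν) ^ 3) + 1 / (48 * (κ / ν))) / (c2 * ν ^ 2) ^ 3 -
      (3 * ((ν ^ 2) ^ 2 * K ^ 2 * (κ' / ν) / 8) / (c1 * ν ^ 2) ^ 4 +
        12 * ((ν ^ 2) ^ 2 * K ^ 2 / (8 * (κ' / ν))) / (c1 * ν ^ 2) ^ 5)) := by
    generalize (1 + c2 * ν ^ 2 * θ0 ^ 2) * exp (-(c2 * ν ^ 2 * θ0 ^ 2)) = τ at *
    calc _ ≤ (3 / (4 * κ) - κ / (48 * ν ^ 2)) * ((1 - τ) / (2 * c2 ^ 2)) -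
          (1 / (4 * κ ^ 3) + 1 / (48 * κ * ν ^ 2)) / c2 ^ 3 -
          (3 * (K ^ 2 * κ' / 8) / c1 ^ 4 + 12 * (K ^ 2 / (8 * κ')) / c1 ^ 5) / ν ^ 2 := by
          unfold mainF
          have : 0 ≤ (1 - 6 * (1 + c2 * n0 * θ0 ^ 2) / (c2 * n0 * θ0 ^ 2) ^ 3) / (2 * c2 ^ 2) :=
            div_nonneg (by linarith) (by positivity)
          gcongr
          exact hA.trans (by gcongr)
      _ = _ := by field_simp
  have := pi_pos
  have k3 : 0 < ν ^ 3 * (π * (p (k + 1) - (p k + p (k + 2)) / 2)) := by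
    rw [← f]
    have := mul_le_mul_of_nonneg_left (add_le_add (add_le_add i3 le_rfl |>.trans i1) i2)
      (pow_pos hν 3).le
    nlinarith
  have k4 := (mul_pos_iff_of_pos_left this).1 ((mul_pos_iff_of_pos_left (pow_pos hν 3)).1 k3)
  linarith

def expL {α : Type*} [Field α] (x : α) : ℕ → α
  | 0 => 0
  | m + 1 => expL x m + x ^ m / m.factorial

lemma expL_le {x : ℝ} (hx : 0 ≤ x) (m : ℕ) : expL x m ≤ exp x := by
  refine le_trans (le_of_eq ?_) (sum_le_exp_of_nonneg hx m)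
  induction m with
  | zero => rfl
  | succ m ih => rw [expL, ih, sum_range_succ]

lemma decay {n n0 ν0 γ : ℝ} (m : ℕ) (h0 : 0 < ν0) (h1 : ν0 ^ 2 ≤ n0) (hn : n0 ≤ n) (hγ : 2 ≤ γ * n0)
    (hL : 0 < expL (γ * n0) m) : √n ^ 3 * exp (-(γ * n)) ≤ n0 ^ 2 / ν0 / expL (γ * n0) m := by
  have hn0 : 0 < n0 := lt_of_lt_of_le (by positivity) h1
  have hn1 : 0 < n := hn0.trans_le hn
  have hν : ν0 ≤ √n := le_sqrt_of_sq_le (h1.trans hn)
  have e1 : √n ^ 3 ≤ n ^ 2 / ν0 := by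
    rw [le_div_iff₀ h0]
    calc _ ≤ √n ^ 3 * √n := by gcongr
      _ = (√n ^ 2) ^ 2 := by ring
      _ = _ := by rw [sq_sqrt hn1.le]
  have e2 : n ^ 2 ≤ n0 ^ 2 * exp (γ * (n - n0)) := by
    have a1 := add_one_le_exp ((n - n0) / n0)
    have a2 : n ≤ n0 * exp ((n - n0) / n0) := by
      calc n = n0 * ((n - n0) / n0 + 1) := by field_simp; ring
        _ ≤ _ := by gcongr
    calc _ ≤ (n0 * exp ((n - n0) / n0)) ^ 2 := by gcongr
      _ = n0 ^ 2 * exp (2 * ((n - n0) / n0)) := by rw [mul_pow, ← exp_nat_mul]; simp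
      _ ≤ _ := by
        refine mul_le_mul_of_nonneg_left (exp_le_exp.2 ?_) (by positivity)
        rw [← mul_div_assoc, div_le_iff₀ hn0]; nlinarith
  calc _ ≤ n0 ^ 2 * exp (γ * (n - n0)) / ν0 * exp (-(γ * n)) := by
        gcongr; exact e1.trans (by gcongr)
    _ = n0 ^ 2 / ν0 / exp (γ * n0) := by
        rw [mul_sub, exp_sub, exp_neg]; field_simp
    _ ≤ _ := by gcongr; exact expL_le (by linarith) m

lemma taylor {U : Set ℂ} (hU : IsOpen U) (t0 : ℂ) {X M : ℝ} (hX : ∀ τ : ℝ, 0 ≤ τ → τ ≤ X →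
    t0 + τ * Complex.I ∈ U) (k : ℕ) : ∀ f : ℂ → ℂ, DifferentiableOn ℂ f U →
    (∀ τ : ℝ, 0 ≤ τ → τ ≤ X → ‖iteratedDeriv k f (t0 + τ * Complex.I)‖ ≤ M) →
    ∀ τ : ℝ, 0 ≤ τ → τ ≤ X → ‖f (t0 + τ * Complex.I) - ∑ j ∈ range k,
      iteratedDeriv j f t0 * (τ * Complex.I) ^ j / j.factorial‖ ≤ M * τ ^ k / k.factorial := by
  induction k with
  | zero => intro f _ h τ h1 h2; simpa using h τ h1 h2
  | succ k ih =>
    intro f hf h τ h1 h2
    have ih' := ih (deriv f) (hf.deriv hU) (by simpa only [iteratedDeriv_succ'] using h)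
    have d : ∀ x ∈ Set.Icc 0 X, HasDerivAt (fun x : ℝ => f (t0 + x * Complex.I) - ∑ j ∈ range (k + 1),
        iteratedDeriv j f t0 * (x * Complex.I) ^ j / j.factorial)
        ((deriv f (t0 + x * Complex.I) - ∑ j ∈ range k,
          iteratedDeriv j (deriv f) t0 * (x * Complex.I) ^ j / j.factorial) * Complex.I) x := by
      intro x hx
      have d0 : HasDerivAt (fun z : ℂ => z * Complex.I) Complex.I (x : ℂ) := by
        simpa using (hasDerivAt_id (x : ℂ)).mul_const Complex.I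
      have d1 := (hf.differentiableAt (hU.mem_nhds (hX x hx.1 hx.2))).hasDerivAt.comp (x : ℂ)
        (d0.const_add t0)
      have d2 := HasDerivAt.fun_sum fun j (_ : j ∈ range (k + 1)) =>
        ((d0.fun_pow j).const_mul (iteratedDeriv j f t0)).div_const (j.factorial : ℂ)
      refine (d1.fun_sub d2).comp_ofReal.congr_deriv ?_
      rw [sum_range_succ', sub_mul, sum_mul]
      simp only [Nat.cast_zero, zero_mul, mul_zero, zero_div, add_zero, iteratedDeriv_succ',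
        Nat.add_sub_cancel, Nat.factorial_succ]
      congr 1
      refine sum_congr rfl fun j _ => ?_
      have : (j : ℂ) + 1 ≠ 0 := by exact_mod_cast j.succ_ne_zero
      push_cast; field_simp
    refine image_norm_le_of_norm_deriv_right_le_deriv_boundary
      (fun x hx => (d x hx).continuousAt.continuousWithinAt)
      (fun x hx => (d x (Set.Ico_subset_Icc_self hx)).hasDerivWithinAt)
      (B := fun x => M * x ^ (k + 1) / (k + 1).factorial) (B' := fun x => M * x ^ k / k.factorial)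
      (by simp [sum_range_succ']) (fun x => ?_) (fun x hx => ?_) ⟨h1, h2⟩
    · refine (((hasDerivAt_pow (k + 1) x).const_mul M).div_const ((k + 1).factorial : ℝ)).congr_deriv ?_
      rw [Nat.factorial_succ]; push_cast; field_simp
    · rw [norm_mul, Complex.norm_I, mul_one]
      exact ih' x hx.1 hx.2.le

lemma diff_iter {U : Set ℂ} (hU : IsOpen U) {f : ℂ → ℂ} (hf : DifferentiableOn ℂ f U) (k : ℕ) :
    DifferentiableOn ℂ (iteratedDeriv k f) U := by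
  induction k with
  | zero => simpa using hf
  | succ k ih => rw [iteratedDeriv_succ]; exact ih.deriv hU

lemma real_iter {U : Set ℂ} (hU : IsOpen U) {f : ℂ → ℂ} (hf : DifferentiableOn ℂ f U)
    (h : ∀ t : ℝ, (t : ℂ) ∈ U → (f t).im = 0) (k : ℕ) :
    ∀ t : ℝ, (t : ℂ) ∈ U → (iteratedDeriv k f t).im = 0 := by
  induction k with
  | zero => simpa using h
  | succ k ih =>
    intro t ht
    rw [iteratedDeriv_succ]
    have d := Complex.imCLM.hasFDerivAt.comp_hasDerivAt t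
      ((diff_iter hU hf k).differentiableAt (hU.mem_nhds ht)).hasDerivAt.comp_ofReal
    have e : (fun _ => (0 : ℝ)) =ᶠ[nhds t] (Complex.imCLM ∘ fun y : ℝ => iteratedDeriv k f y) := by
      filter_upwards [Complex.continuous_ofReal.continuousAt.preimage_mem_nhds (hU.mem_nhds ht)]
        with y hy using (ih y hy).symm
    exact (d.congr_of_eventuallyEq e).unique (hasDerivAt_const _ _)

end Pool.Agent.Lib.MP_3b1384_co
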