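import Pool.Agent.Lib.MP_3b1384_co.Cert
import Pool.Agent.Lib.MP_3b1384_co.Saddle
import Pool.Agent.Lib.MP_3b1384_co.Comb

namespace Pool.Agent.Lib.MP_3b1384_co
open PowerSeries Filter Topology Metric
open Finset hiding mk

def dla : ℤ → List ℤ → List ℤ
  | _, [] => []
  | k, c :: l => k * c :: dla (k + 1) l

def dl (l : List ℤ) : List ℤ := dla 1 l.tail

lemma dla_der (t : ℂ) : ∀ (l : List ℤ) (k : ℕ),
    HasDerivAt (fun t : ℂ => t ^ (k + 1) * ev l t) (t ^ k * ev (dla (k + 1) l) t) t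
  | [], k => by simpa [ev, dla] using hasDerivAt_const t (0 : ℂ)
  | c :: l, k => by
    have := ((hasDerivAt_pow (k + 1) t).mul_const (c : ℂ)).fun_add (dla_der t l (k + 1))
    refine (this.congr_deriv ?_).congr_of_eventuallyEq (Eventually.of_forall fun z => ?_)
    · simp only [ev, dla, Nat.add_sub_cancel]; push_cast; ring
    · simp only [ev]; ring

lemma dl_der (l : List ℤ) (t : ℂ) : HasDerivAt (ev l) (ev (dl l) t) t := by
  refine (((dla_der t l.tail 0).const_add (l.headD 0 : ℂ)).congr_deriv (by simp [dl])).congr_of_eventuallyEq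
    (Eventually.of_forall fun z => ?_)
  simpa using ev_head z l

noncomputable def nr (u v : ℕ) (l : List ℤ) : ℕ := hor u v (l.map Int.natAbs)

lemma ev_nr {u v : ℕ} (hv : 0 < v) {t : ℂ} (ht : ‖t‖ ≤ u / v) : ∀ l : List ℤ, ‖ev l t‖ ≤ nr u v l
  | [] => by simp [ev]
  | c :: l => by
    have h1 := ev_nr hv ht l
    have h2 := div_succ_ge (nr u v l * u) v hv
    rw [ev, show nr u v (c :: l) = c.natAbs + (nr u v l * u / v).succ from rfl, Nat.cast_add]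
    refine norm_add_le_of_le (by simp) (le_trans ?_ h2)
    rw [norm_mul, Nat.cast_mul, mul_comm, mul_div_assoc]
    gcongr

lemma ev_cast (q : ℚ) : ∀ l : List ℤ, ((ev l q : ℚ) : ℂ) = ev l (q : ℂ)
  | [] => by simp [ev]
  | c :: l => by simp [ev, ev_cast q l]

lemma iter_psi {δ : ℂ → ℂ} (hδ : DifferentiableOn ℂ δ (ball 0 1)) (l : List ℤ) (S : ℂ) (k : ℕ) :
    ∀ z ∈ ball (0 : ℂ) 1, iteratedDeriv k (fun t => ev l t / S + δ t) z =
      ev (dl^[k] l) z / S + iteratedDeriv k δ z := by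
  induction k with
  | zero => simp
  | succ k ih =>
    intro z hz
    have hn := isOpen_ball.mem_nhds hz
    rw [iteratedDeriv_succ, iteratedDeriv_succ, Function.iterate_succ_apply',
      EventuallyEq.deriv_eq (eventually_of_mem hn ih)]
    exact (((dl_der _ z).div_const S).fun_add
      ((diff_iter isOpen_ball hδ k).differentiableAt hn).hasDerivAt).deriv

lemma cauchy {δ : ℂ → ℂ} (hδ : DifferentiableOn ℂ δ (ball 0 1)) {η ρ d : ℝ}
    (hb : ∀ t ∈ ball (0 : ℂ) 1, ‖δ t‖ ≤ η) (hd : 0 < d) (hρ : ρ + d < 1) (k : ℕ) {z : ℂ} (hz : ‖z‖ ≤ ρ) :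
    ‖iteratedDeriv k δ z‖ ≤ k.factorial * η / d ^ k := by
  have sub : closedBall z d ⊆ ball 0 1 := closedBall_subset_ball' (by rw [dist_zero_right]; linarith)
  exact Complex.norm_iteratedDeriv_le_of_forall_mem_sphere_norm_le k hd (hδ.diffContOnCl_ball sub)
    fun w hw => hb w (sub (sphere_subset_closedBall hw))

lemma gbound {Ψ : ℂ → ℂ} (hΨ : DifferentiableOn ℂ Ψ (ball 0 1))
    (hre : ∀ t : ℝ, (t : ℂ) ∈ ball 0 1 → (Ψ t).im = 0) {t0 τ0 lo hi M3 M4 τ : ℝ}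
    (hX : ∀ τ : ℝ, 0 ≤ τ → τ ≤ τ0 → (t0 : ℂ) + τ * Complex.I ∈ ball 0 1)
    (h4 : ∀ τ : ℝ, 0 ≤ τ → τ ≤ τ0 → ‖iteratedDeriv 4 Ψ (t0 + τ * Complex.I)‖ ≤ M4)
    (h2 : lo ≤ (iteratedDeriv 2 Ψ t0).re) (h2' : (iteratedDeriv 2 Ψ t0).re ≤ hi)
    (h3 : ‖iteratedDeriv 3 Ψ t0‖ ≤ M3) (h0 : 0 ≤ τ) (h1 : τ ≤ τ0) (g : ℂ)
    (hg : g = Ψ (t0 + τ * Complex.I) - (Ψ t0).re - (iteratedDeriv 1 Ψ t0).re * τ * Complex.I) :
    -((hi / 2 + M4 * τ0 ^ 2 / 24) * τ ^ 2) ≤ g.re ∧ g.re ≤ -((lo / 2 - M4 * τ0 ^ 2 / 24) * τ ^ 2) ∧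
      |g.im| ≤ (M3 / 6 + M4 * τ0 / 24) * τ ^ 3 := by
  have ht0 : (t0 : ℂ) ∈ ball 0 1 := by simpa using hX 0 le_rfl (h0.trans h1)
  have hM : 0 ≤ M4 := (norm_nonneg _).trans (h4 τ h0 h1)
  have tl := taylor isOpen_ball t0 hX 4 Ψ hΨ h4 τ h0 h1
  have r := fun k => (Complex.conj_eq_iff_re.1 (Complex.conj_eq_iff_im.2
    (real_iter isOpen_ball hΨ hre k t0 ht0))).symm
  have h3' := (Complex.abs_re_le_norm _).trans h3
  have r0 : (Ψ t0).re = (iteratedDeriv 0 Ψ t0).re := rfl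
  rw [r0] at hg
  simp only [sum_range_succ, range_zero, sum_empty] at tl
  rw [r 0, r 1, r 2, r 3] at tl
  generalize (iteratedDeriv 0 Ψ t0).re = a0, (iteratedDeriv 1 Ψ t0).re = a1,
    (iteratedDeriv 2 Ψ t0).re = a2, (iteratedDeriv 3 Ψ t0).re = a3 at *
  have e : Ψ (t0 + τ * Complex.I) - (0 + a0 * (τ * Complex.I) ^ 0 / (Nat.factorial 0 : ℕ) +
      a1 * (τ * Complex.I) ^ 1 / (Nat.factorial 1 : ℕ) + a2 * (τ * Complex.I) ^ 2 / (Nat.factorial 2 : ℕ) +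
      a3 * (τ * Complex.I) ^ 3 / (Nat.factorial 3 : ℕ)) =
      g + (a2 * τ ^ 2 / 2 : ℝ) + (a3 * τ ^ 3 / 6 : ℝ) * Complex.I := by
    rw [hg, pow_succ _ 2, mul_pow _ _ 2, Complex.I_sq]; simp only [Nat.factorial]; push_cast; ring
  rw [e] at tl
  have t1 := abs_le.1 ((Complex.abs_re_le_norm _).trans tl)
  have t2 := abs_le.1 ((Complex.abs_im_le_norm _).trans tl)
  simp only [Complex.add_re, Complex.add_im, Complex.ofReal_re, Complex.ofReal_im, Complex.mul_re,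
    Complex.mul_im, Complex.I_re, Complex.I_im, Nat.factorial] at t1 t2
  push_cast at t1 t2
  have k1 : M4 * τ ^ 4 ≤ M4 * τ0 ^ 2 * τ ^ 2 := by
    rw [show τ ^ 4 = τ ^ 2 * τ ^ 2 by ring, ← mul_assoc]; gcongr
  have k2 : M4 * τ ^ 4 ≤ M4 * τ0 * τ ^ 3 := by
    rw [show τ ^ 4 = τ * τ ^ 3 by ring, ← mul_assoc]; gcongr
  have k3 := mul_le_mul_of_nonneg_right h2 (sq_nonneg τ)
  have k4 := mul_le_mul_of_nonneg_right h2' (sq_nonneg τ)
  have k5 := mul_le_mul_of_nonneg_right (abs_le.1 h3').1 (pow_nonneg h0 3)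
  have k6 := mul_le_mul_of_nonneg_right (abs_le.1 h3').2 (pow_nonneg h0 3)
  refine ⟨by linarith, by linarith, abs_le.2 ⟨by linarith, by linarith⟩⟩

lemma al_coeff (σ x : ℂ) (m : ℕ) : coeff (m + 2) (al (σ ^ 2 * (1 - x)) σ) =
    σ ^ (m + 2) * (A x (m + 1) / (m + 1).factorial) := by
  have := Bc_smul σ (1 - x) 1 (m + 1)
  rw [mul_one, Bc_eq, if_neg m.succ_ne_zero, add_zero] at this
  rw [al, coeff_succ_X_mul, coeff_mk, this, mul_div_assoc]

lemma re_sum (m k N : ℕ) (hN : m + 3 ≤ N) (w c θ : ℝ) :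
    ∑ j ∈ range N, (a (m + 2) j * Real.exp w ^ j / ((m + 1).factorial * Real.exp c)) *
      Real.cos ((j - (k + 1)) * θ) = (A (Complex.exp (w + θ * Complex.I)) (m + 1) / (m + 1).factorial *
        Complex.exp (-(c + (k + 1) * θ * Complex.I))).re := by
  rw [A_sum _ _ N hN, sum_div, sum_mul, Complex.re_sum]
  refine sum_congr rfl fun j _ => ?_
  rw [← Complex.exp_ofReal_mul_I_re, ← Complex.re_ofReal_mul]
  congr 1
  push_cast
  rw [← Complex.exp_nat_mul, ← Complex.exp_nat_mul, show -(c + (k + 1) * θ * Complex.I) =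
    (j - (k + 1)) * θ * Complex.I + j * w - (c + j * (w + θ * Complex.I)) by ring, Complex.exp_sub,
    Complex.exp_add, Complex.exp_add]
  field_simp

def Step (n k : ℕ) : Prop := a n (k + 1) ≤ a n k → a n (k + 2) ≤ a n (k + 1)

lemma step_of {n k : ℕ} {x D : ℝ} (hx : 0 < x) (hD : 0 < D)
    (h : a n k * x ^ k / D + a n (k + 2) * x ^ (k + 2) / D < 2 * (a n (k + 1) * x ^ (k + 1) / D)) :
    Step n k := fun h1 => by
  by_contra h2
  have h1' : (a n (k + 1) : ℝ) ≤ a n k := by exact_mod_cast h1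
  have h2' : (a n (k + 1) : ℝ) ≤ a n (k + 2) := by exact_mod_cast (not_le.1 h2).le
  refine absurd h (not_lt.2 (le_of_sub_nonneg ?_))
  have : 0 ≤ ((a n k - a n (k + 1)) + (a n (k + 2) - a n (k + 1)) * x ^ 2 + a n (k + 1) * (1 - x) ^ 2) *
      x ^ k / D := by
    have := sub_nonneg.2 h1'
    have := sub_nonneg.2 h2'
    positivity
  refine this.trans_eq ?_
  ring

end Pool.Agent.Lib.MP_3b1384_co
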