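import Pool.Agent.Lib.MP_3b1384_co.EngD

namespace Pool.Agent.Lib.MP_3b1384_co
open Finset

def ev {R : Type*} [CommRing R] : List ℤ → R → R
  | [], _ => 0
  | c :: l, t => c + t * ev l t

def l1 : List ℤ → ℕ
  | [] => 0
  | c :: l => c.natAbs + l1 l

def ladd : List ℤ → List ℤ → List ℤ
  | [], b => b
  | a, [] => a
  | x :: a, y :: b => (x + y) :: ladd a b

def lmul : List ℤ → List ℤ → List ℤ
  | [], _ => []
  | x :: a, b => ladd (b.map (x * ·)) (0 :: lmul a b)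

def lf : (ℕ → ℤ) → ℕ → List ℤ
  | _, 0 => []
  | r, n + 1 => r 0 :: lf (fun i => r (i + 1)) n

section
variable {R : Type*} [CommRing R]

lemma ev_ladd (t : R) : ∀ a b : List ℤ, ev (ladd a b) t = ev a t + ev b t
  | [], b => by simp [ladd, ev]
  | x :: a, [] => by simp [ladd, ev]
  | x :: a, y :: b => by simp only [ladd, ev, ev_ladd t a b]; push_cast; ring

lemma ev_map (t : R) (x : ℤ) : ∀ b : List ℤ, ev (b.map (x * ·)) t = x * ev b t
  | [] => by simp [ev]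
  | y :: b => by simp only [List.map_cons, ev, ev_map t x b]; push_cast; ring

lemma ev_lmul (t : R) : ∀ a b : List ℤ, ev (lmul a b) t = ev a t * ev b t
  | [], b => by simp [lmul, ev]
  | x :: a, b => by simp only [lmul, ev_ladd, ev_map, ev, ev_lmul t a b]; push_cast; ring

lemma ev_lf (t : R) (n : ℕ) : ∀ r, ev (lf r n) t = ∑ i ∈ range n, (r i : R) * t ^ i := by
  induction n with
  | zero => intro r; simp [lf, ev]
  | succ n ih =>
    intro r
    rw [lf, ev, ih, sum_range_succ', mul_sum, add_comm]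
    simp only [pow_zero, mul_one, pow_succ, add_left_inj]
    exact sum_congr rfl fun i _ => by ring

lemma ev_head (t : R) (l : List ℤ) : ev l t = l.headD 0 + t * ev l.tail t := by
  cases l <;> simp [ev]
end

lemma l1_ladd : ∀ a b : List ℤ, l1 (ladd a b) ≤ l1 a + l1 b
  | [], b => by simp [ladd, l1]
  | x :: a, [] => by simp [ladd, l1]
  | x :: a, y :: b => by
    have := l1_ladd a b
    have := Int.natAbs_add_le x y
    simp only [ladd, l1]; omega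

lemma l1_map (x : ℤ) : ∀ b : List ℤ, l1 (b.map (x * ·)) = x.natAbs * l1 b
  | [] => by simp [l1]
  | y :: b => by simp only [List.map_cons, l1, l1_map x b, Int.natAbs_mul]; ring

lemma l1_lmul : ∀ a b : List ℤ, l1 (lmul a b) ≤ l1 a * l1 b
  | [], b => by simp [lmul, l1]
  | x :: a, b => by
    have := l1_lmul a b
    refine (l1_ladd _ _).trans ?_
    simp only [l1_map, l1, add_mul]; simpa using this

lemma l1_lf (n : ℕ) : ∀ r, l1 (lf r n) = ∑ i ∈ range n, (r i).natAbs := by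
  induction n with
  | zero => intro r; simp [lf, l1]
  | succ n ih => intro r; rw [lf, l1, ih, sum_range_succ', add_comm]

lemma l1_head (l : List ℤ) : l1 l = (l.headD 0).natAbs + l1 l.tail := by cases l <;> simp [l1]

lemma norm_ev_le {t : ℂ} (ht : ‖t‖ ≤ 1) : ∀ l : List ℤ, ‖ev l t‖ ≤ l1 l
  | [] => by simp [ev, l1]
  | c :: l => by
    have := norm_ev_le ht l
    simp only [ev, l1]
    refine (norm_add_le _ _).trans ?_
    rw [norm_mul, Complex.norm_intCast, Nat.cast_add, Nat.cast_natAbs, Int.cast_abs]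
    nlinarith [norm_nonneg t, norm_nonneg (ev l t)]

lemma ev_zero {R : Type*} [CommRing R] (t : R) (H : ℕ) :
    ∀ l : List ℤ, l1 l < H → ev l (2 * H : ℤ) = 0 → ev l t = 0
  | [], _, _ => rfl
  | c :: l, h1, h2 => by
    simp only [ev, l1, Int.cast_id] at h1 h2 ⊢
    have hc : c = 0 := Int.eq_zero_of_abs_lt_dvd (m := 2 * H) ⟨-ev l (2 * H : ℤ), by linarith⟩
      (by rw [abs_lt]; omega)
    subst hc
    have : ev l (2 * H : ℤ) = 0 := by
      rcases mul_eq_zero.1 ((zero_add _).symm.trans h2) with h | h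
      · omega
      · exact h
    rw [ev_zero t H l (by omega) this]; simp

lemma ev_unique {R : Type*} [CommRing R] (t : R) (H : ℕ) (n : ℕ) : ∀ (l : List ℤ) (r : ℕ → ℤ),
    l1 l < H → (∀ i, -H ≤ r i ∧ r i < H) → ev l (2 * H : ℤ) = ev (lf r n) (2 * H : ℤ) →
    ev l t = ev (lf r n) t := by
  induction n with
  | zero => intro l r h1 _ h2; exact ev_zero t H l h1 h2
  | succ n ih =>
    intro l r h1 hr h2
    rw [ev_head _ l, lf, ev] at h2 ⊢
    rw [l1_head] at h1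
    simp only [Int.cast_id] at h2
    have := hr 0
    have hc : l.headD 0 - r 0 = 0 := Int.eq_zero_of_abs_lt_dvd (m := 2 * H)
      ⟨ev (lf (fun i => r (i + 1)) n) (2 * H : ℤ) - ev l.tail (2 * H : ℤ), by linarith⟩
      (by rw [abs_lt]; omega)
    rw [sub_eq_zero.1 hc] at h2 ⊢
    rw [ih l.tail (fun i => r (i + 1)) (by omega) (fun i => hr _)
      (mul_left_cancel₀ (by omega) (add_left_cancel h2))]

def Enc (W : ℕ) (a : T) (f : ℂ → ℂ) : Prop :=
  ∃ l : List ℤ, ev l (W : ℤ) = a.N ∧ l1 l ≤ a.B ∧ ∀ t : ℂ, ‖t‖ ≤ 1 → ‖f t - ev l t‖ ≤ a.e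

lemma T.frc_eq {α : Type} (a : T) (k : T → α) : T.frc a k = k a := by
  obtain ⟨N, B, e⟩ := a
  cases N <;> (simp only [T.frc]; cases Nat.ble _ _ <;> rfl)

namespace Enc
variable {W : ℕ} {a b : T} {f g : ℂ → ℂ}

lemma congr (h : Enc W a f) (e : ∀ t, ‖t‖ ≤ 1 → f t = g t) : Enc W a g := by
  obtain ⟨l, h1, h2, h3⟩ := h
  exact ⟨l, h1, h2, fun t ht => e t ht ▸ h3 t ht⟩

lemma nb (h : Enc W a f) {t : ℂ} (ht : ‖t‖ ≤ 1) : ‖f t‖ ≤ a.nb := by
  obtain ⟨l, _, h2, h3⟩ := h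
  have h4 := norm_ev_le ht l
  have h5 : (l1 l : ℝ) ≤ a.B := by exact_mod_cast h2
  have := norm_add_le (f t - ev l t) (ev l t)
  simp only [T.nb, Nat.add_eq, Nat.cast_add, sub_add_cancel] at this ⊢
  linarith [h3 t ht]

lemma zero : Enc W T.zero fun _ => 0 := ⟨[], rfl, le_rfl, fun t _ => by simp [ev, T.zero]⟩

lemma nat (c : ℕ) : Enc W (T.nat c) fun _ => c :=
  ⟨[c], by simp [ev, T.nat], by simp [l1, T.nat], fun t _ => by simp [ev, T.nat]⟩

lemma err (e : ℕ) (h : ∀ t, ‖t‖ ≤ 1 → ‖f t‖ ≤ e) : Enc W ⟨0, 0, e⟩ f :=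
  ⟨[], rfl, le_rfl, fun t ht => by simpa [ev] using h t ht⟩

lemma add (ha : Enc W a f) (hb : Enc W b g) : Enc W (a.add b) fun t => f t + g t := by
  obtain ⟨l, h1, h2, h3⟩ := ha
  obtain ⟨m, k1, k2, k3⟩ := hb
  refine ⟨ladd l m, by rw [ev_ladd, h1, k1]; rfl, (l1_ladd _ _).trans (add_le_add h2 k2),
    fun t ht => ?_⟩
  rw [ev_ladd, show (a.add b).e = a.e + b.e from rfl, add_sub_add_comm, Nat.cast_add]
  exact norm_add_le_of_le (h3 t ht) (k3 t ht)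

lemma neg (ha : Enc W a f) : Enc W a.neg fun t => -f t := by
  obtain ⟨l, h1, h2, h3⟩ := ha
  refine ⟨l.map (-1 * ·), by rw [ev_map, h1]; simp [T.neg]; rfl, by rw [l1_map]; simpa [T.neg],
    fun t ht => ?_⟩
  rw [ev_map, ← norm_neg, show -(-f t - ((-1 : ℤ) : ℂ) * ev l t) = f t - ev l t by push_cast; ring]
  exact h3 t ht

lemma mul (ha : Enc W a f) (hb : Enc W b g) : Enc W (a.mul b) fun t => f t * g t := by
  have hg := fun t ht => hb.nb (t := t) ht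
  obtain ⟨l, h1, h2, h3⟩ := ha
  obtain ⟨m, k1, k2, k3⟩ := hb
  refine ⟨lmul l m, by rw [ev_lmul, h1, k1]; rfl, (l1_lmul _ _).trans (Nat.mul_le_mul h2 k2),
    fun t ht => ?_⟩
  rw [ev_lmul, show (a.mul b).e = a.B * b.e + a.e * b.nb from rfl,
    show f t * g t - ev l t * ev m t = ev l t * (g t - ev m t) + (f t - ev l t) * g t by ring]
  push_cast
  refine norm_add_le_of_le ?_ ?_ <;> rw [norm_mul]
  · exact mul_le_mul ((norm_ev_le ht l).trans (by exact_mod_cast h2)) (k3 t ht) (norm_nonneg _)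
      (by positivity)
  · exact mul_le_mul (h3 t ht) (hg t ht) (norm_nonneg _) (by positivity)

lemma adde (ha : Enc W a f) (n : ℕ) (h : ∀ t, ‖t‖ ≤ 1 → ‖g t - f t‖ ≤ n) : Enc W (a.adde n) g := by
  obtain ⟨l, h1, h2, h3⟩ := ha
  refine ⟨l, h1, h2, fun t ht => ?_⟩
  rw [show (a.adde n).e = a.e + n from rfl, show g t - ev l t = (f t - ev l t) + (g t - f t) by ring,
    Nat.cast_add]
  exact norm_add_le_of_le (h3 t ht) (h t ht)

end Enc

/-! ### Digit vectors -/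

def V (W : ℕ) (f : ℕ → ℕ) (n : ℕ) : ℕ := ∑ i ∈ range n, f i * W ^ i

lemma V_succ (W : ℕ) (f : ℕ → ℕ) (n : ℕ) : V W f (n + 1) = f 0 + W * V W (fun i => f (i + 1)) n := by
  rw [V, V, sum_range_succ', mul_sum, add_comm]
  simp only [pow_zero, mul_one, pow_succ, add_right_inj]
  exact sum_congr rfl fun i _ => by ring

lemma rep_eq (W c n : ℕ) : rep W c n = V W (fun _ => c) n := by
  induction n with
  | zero => rfl
  | succ n ih => rw [V_succ, ← ih]; rfl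

lemma V_digits {W : ℕ} (hW : 0 < W) (n : ℕ) : ∀ X, X < W ^ n → X = V W (fun i => X / W ^ i % W) n := by
  induction n with
  | zero => intro X h; simpa [V] using h
  | succ n ih =>
    intro X h
    have := ih (X / W) (Nat.div_lt_of_lt_mul (by rwa [pow_succ'] at h))
    rw [V_succ]
    simp only [pow_succ', ← Nat.div_div_eq_div_mul]
    rw [← this]; simp [Nat.mod_add_div]

lemma V_and (L n : ℕ) : ∀ f g : ℕ → ℕ, (∀ i, f i < 2 ^ L) → (∀ i, g i < 2 ^ L) →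
    V (2 ^ L) f n &&& V (2 ^ L) g n = V (2 ^ L) (fun i => f i &&& g i) n := by
  induction n with
  | zero => intro f g _ _; simp [V]
  | succ n ih =>
    intro f g hf hg
    have hp : 0 < 2 ^ L := by positivity
    rw [← Nat.mod_add_div (V _ f _ &&& V _ g _) (2 ^ L), Nat.and_mod_two_pow, Nat.and_div_two_pow,
      V_succ, V_succ, V_succ, Nat.add_mul_mod_self_left, Nat.add_mul_mod_self_left,
      Nat.add_mul_div_left _ _ hp, Nat.add_mul_div_left _ _ hp, Nat.mod_eq_of_lt (hf 0),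
      Nat.mod_eq_of_lt (hg 0), Nat.div_eq_of_lt (hf 0), Nat.div_eq_of_lt (hg 0), zero_add, zero_add,
      ih _ _ (fun i => hf _) (fun i => hg _)]

lemma V_lin (W n u v : ℕ) (f g : ℕ → ℕ) :
    V W (fun i => u * f i + v * g i) n = u * V W f n + v * V W g n := by
  simp only [V, mul_sum, ← sum_add_distrib]
  exact sum_congr rfl fun i _ => by ring

lemma V_mod (W n : ℕ) (hW : 0 < W) (f : ℕ → ℕ) (h : ∑ i ∈ range n, f i < W - 1) :
    V W f n % (W - 1) = ∑ i ∈ range n, f i := by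
  rw [← Nat.mod_eq_of_lt h]
  refine Nat.ModEq.sum fun i _ => ?_
  have : W ≡ 1 [MOD W - 1] := ((Nat.modEq_iff_dvd' hW).2 dvd_rfl).symm
  simpa using (this.pow i).mul_left (f i)

lemma V_lt {W : ℕ} (n : ℕ) : ∀ f : ℕ → ℕ, (∀ i, f i < W) → V W f n < W ^ n := by
  induction n with
  | zero => intro f _; simp [V]
  | succ n ih =>
    intro f hf
    have := ih (fun i => f (i + 1)) fun i => hf _
    rw [V_succ, pow_succ']
    nlinarith [hf 0]

lemma V_split (W D E : ℕ) (f : ℕ → ℕ) :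
    V W f (D + E) = V W f D + W ^ D * V W (fun i => f (D + i)) E := by
  simp only [V, sum_range_add, mul_sum, pow_add]
  congr 1
  exact sum_congr rfl fun i _ => by ring

lemma V_mod_pow {W : ℕ} (D E : ℕ) (f : ℕ → ℕ) (hf : ∀ i, f i < W) :
    V W f (D + E) % W ^ D = V W f D := by
  rw [V_split, Nat.add_mul_mod_self_left, Nat.mod_eq_of_lt (V_lt D f hf)]

lemma V_div_pow {W : ℕ} (D E : ℕ) (f : ℕ → ℕ) (hf : ∀ i, f i < W) :
    V W f (D + E) / W ^ D = V W (fun i => f (D + i)) E := by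
  have : 0 < W ^ D := lt_of_le_of_lt (Nat.zero_le _) (V_lt D f hf)
  rw [V_split, Nat.add_mul_div_left _ _ this, Nat.div_eq_of_lt (V_lt D f hf), zero_add]

lemma and_pow (z j : ℕ) (hz : z < 2 * 2 ^ j) : z &&& 2 ^ j = 2 ^ j * (z / 2 ^ j) := by
  rw [Nat.and_two_pow]
  by_cases h : z < 2 ^ j
  · simp [Nat.testBit_lt_two_pow h, Nat.div_eq_of_lt h]
  · rw [Nat.testBit_of_two_pow_le_and_two_pow_add_one_gt (not_lt.1 h) (by rw [pow_succ]; omega)]
    have : z / 2 ^ j = 1 := Nat.div_eq_of_lt_le (by omega) (by omega)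
    simp [this]

lemma core_vec (P j n : ℕ) (d : ℕ → ℕ) (hd : ∀ i, d i < 2 ^ (j + P + 1)) (X Z : ℕ)
    (hX : X = V (2 ^ (j + P + 1)) d n)
    (hZ : Z = (X - (X &&& V (2 ^ (j + P + 1)) (fun _ => 2 ^ P - 1) n)) / 2 ^ P) :
    Z = V (2 ^ (j + P + 1)) (fun i => d i / 2 ^ P) n ∧
    2 * (Z &&& ((Z &&& V (2 ^ (j + P + 1)) (fun _ => 2 ^ j) n) / 2 ^ j * (2 ^ j - 1))) +
      V (2 ^ (j + P + 1)) (fun _ => 2 ^ j) n - Z =
      V (2 ^ (j + P + 1)) (fun i => (((d i / 2 ^ P : ℕ) : ℤ) - (2 ^ j : ℕ)).natAbs) n := by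
  have hP : 0 < 2 ^ P := by positivity
  have hj : 0 < 2 ^ j := by positivity
  have hW : 2 ^ (j + P + 1) = 2 * 2 ^ j * 2 ^ P := by ring
  have hjP : 2 ^ j ≤ 2 ^ j * 2 ^ P := Nat.le_mul_of_pos_right _ hP
  have hPj : 2 ^ P ≤ 2 ^ j * 2 ^ P := Nat.le_mul_of_pos_left _ hj
  have hz : ∀ i, d i / 2 ^ P < 2 * 2 ^ j := fun i =>
    Nat.div_lt_of_lt_mul (by rw [mul_comm, ← hW]; exact hd i)
  have hz' : ∀ i, d i / 2 ^ P < 2 ^ (j + P + 1) := fun i => (Nat.div_le_self _ _).trans_lt (hd i)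
  have e1 : Z = V (2 ^ (j + P + 1)) (fun i => d i / 2 ^ P) n := by
    rw [hZ, hX, V_and _ _ _ _ hd (fun _ => by rw [hW, mul_assoc]; omega)]
    simp only [Nat.and_two_pow_sub_one_eq_mod]
    have := V_lin (2 ^ (j + P + 1)) n 1 (2 ^ P) (fun i => d i % 2 ^ P) fun i => d i / 2 ^ P
    simp only [one_mul, Nat.mod_add_div] at this
    rw [this, Nat.add_sub_cancel_left, Nat.mul_div_cancel_left _ hP]
  refine ⟨e1, ?_⟩
  have e2 : (Z &&& V (2 ^ (j + P + 1)) (fun _ => 2 ^ j) n) / 2 ^ j * (2 ^ j - 1) =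
      V (2 ^ (j + P + 1)) (fun i => (2 ^ j - 1) * (d i / 2 ^ P / 2 ^ j)) n := by
    rw [e1, V_and _ _ _ _ hz' (fun _ => by rw [hW, mul_assoc]; omega)]
    simp only [fun i => and_pow _ _ (hz i)]
    have h1 := V_lin (2 ^ (j + P + 1)) n (2 ^ j) 0 (fun i => d i / 2 ^ P / 2 ^ j) fun _ => 0
    have h2 := V_lin (2 ^ (j + P + 1)) n (2 ^ j - 1) 0 (fun i => d i / 2 ^ P / 2 ^ j) fun _ => 0
    simp only [zero_mul, add_zero] at h1 h2
    rw [h1, h2, Nat.mul_div_cancel_left _ hj, mul_comm]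
  have hb : ∀ i, (d i / 2 ^ P < 2 ^ j ∧ d i / 2 ^ P / 2 ^ j = 0) ∨
      (2 ^ j ≤ d i / 2 ^ P ∧ d i / 2 ^ P / 2 ^ j = 1) := fun i => by
    rcases Nat.lt_or_ge (d i / 2 ^ P) (2 ^ j) with h | h
    · exact Or.inl ⟨h, Nat.div_eq_of_lt h⟩
    · exact Or.inr ⟨h, Nat.div_eq_of_lt_le (by omega) (by have := hz i; omega)⟩
  rw [e2]
  nth_rewrite 1 [e1]
  rw [V_and _ _ _ _ hz' (fun i => by
    rcases hb i with h | h <;> rw [h.2, hW, mul_assoc] <;> omega)]
  have h1 := V_lin (2 ^ (j + P + 1)) n 2 1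
    (fun i => d i / 2 ^ P &&& (2 ^ j - 1) * (d i / 2 ^ P / 2 ^ j)) fun _ => 2 ^ j
  have h2 := V_lin (2 ^ (j + P + 1)) n 1 1
    (fun i => (((d i / 2 ^ P : ℕ) : ℤ) - (2 ^ j : ℕ)).natAbs) fun i => d i / 2 ^ P
  simp only [one_mul] at h1 h2
  refine Nat.sub_eq_of_eq_add ?_
  rw [← h1, e1, ← h2]
  congr 1
  funext i
  rcases hb i with h | h
  · rw [h.2]; simp only [mul_zero, Nat.and_zero]; omega
  · have := hz i
    rw [h.2, mul_one, Nat.and_two_pow_sub_one_eq_mod, Nat.mod_eq_sub_mod h.1,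
      Nat.mod_eq_of_lt (by omega)]
    omega

def Cf.ok (C : Cf) : Prop := ∃ P j D, C = mkC P j D ∧ 2 * D + 1 < 2 ^ P

lemma Cf.ok.S_pos {C : Cf} (h : C.ok) : 0 < C.S := by
  obtain ⟨P, j, D, rfl, _⟩ := h
  exact Nat.two_pow_pos P

lemma div_succ_ge (x S : ℕ) (hS : 0 < S) : (x : ℝ) / S ≤ ((x / S).succ : ℕ) := by
  rw [div_le_iff₀ (by exact_mod_cast hS)]
  have := Nat.lt_mul_div_succ x hS
  rw [mul_comm] at this
  exact_mod_cast this.le

lemma rnd_cases (P j D : ℕ) (N : ℤ) (B e : ℕ) :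
    rnd (mkC P j D) ⟨N, B, e⟩ = fb (2 ^ P) B e ∨ ∃ X Z A : ℕ, B < 2 ^ (j + P) ∧
      N + V (2 ^ (j + P + 1)) (fun _ => 2 ^ (j + P)) (D + D) = X ∧ X < (2 ^ (j + P + 1)) ^ (D + D) ∧
      Z = (X - (X &&& V (2 ^ (j + P + 1)) (fun _ => 2 ^ P - 1) (D + D))) / 2 ^ P ∧
      A = 2 * (Z &&& ((Z &&& V (2 ^ (j + P + 1)) (fun _ => 2 ^ j) (D + D)) / 2 ^ j * (2 ^ j - 1))) +
        V (2 ^ (j + P + 1)) (fun _ => 2 ^ j) (D + D) - Z ∧
      rnd (mkC P j D) ⟨N, B, e⟩ = ⟨(Z % (2 ^ (j + P + 1)) ^ D : ℕ) -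
          (V (2 ^ (j + P + 1)) (fun _ => 2 ^ j) D : ℕ),
        A % (2 ^ (j + P + 1)) ^ D % (2 ^ (j + P + 1) - 1),
        A / (2 ^ (j + P + 1)) ^ D % (2 ^ (j + P + 1) - 1) + (e / 2 ^ P + (D + D + 1))⟩ := by
  simp only [rnd, mkC, ← rep_eq, ← Int.subNatNat_eq_coe]
  cases h1 : Nat.ble (Nat.pow 2 (Nat.add j P)) B
  swap
  · exact Or.inl rfl
  cases h2 : Int.add N (Int.ofNat (rep _ _ _)) with
  | negSucc X => exact Or.inl rfl
  | ofNat X =>
    cases h3 : Nat.ble (Nat.pow (Nat.pow 2 (Nat.add j P).succ) (Nat.add D D)) X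
    swap
    · exact Or.inl (by simp only [h3]; rfl)
    refine Or.inr ⟨X, _, _, ?_, h2, ?_, rfl, rfl, by simp only [h3]; rfl⟩
    · exact not_le.1 fun h => Bool.false_ne_true (h1.symm.trans (Nat.ble_eq_true_of_le h))
    · exact not_le.1 fun h => Bool.false_ne_true (h3.symm.trans (Nat.ble_eq_true_of_le h))

lemma ev_V (W : ℕ) (z : ℕ → ℕ) (h n : ℕ) :
    ev (lf (fun i => (z i : ℤ) - h) n) (W : ℤ) = (V W z n : ℕ) - (V W (fun _ => h) n : ℕ) := by
  simp only [ev_lf, V, Int.cast_id]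
  push_cast
  rw [← sum_sub_distrib]
  exact sum_congr rfl fun i _ => by ring

theorem rnd_spec {C : Cf} (hC : C.ok) (a : T) : ∃ l : List ℤ, ev l (C.W : ℤ) = (rnd C a).N ∧
    l1 l ≤ (rnd C a).B ∧ ∀ f : ℂ → ℂ, Enc C.W a f → ∀ t : ℂ, ‖t‖ ≤ 1 →
      ‖f t / C.S - ev l t‖ ≤ (rnd C a).e := by
  have hS := hC.S_pos
  obtain ⟨P, j, D, rfl, hD⟩ := hC
  obtain ⟨N, B, e⟩ := a
  have eW : (mkC P j D).W = 2 ^ (j + P + 1) := rfl
  have eS : (mkC P j D).S = 2 ^ P := rfl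
  rw [eS] at hS
  rw [eW, eS]
  rcases rnd_cases P j D N B e with h | ⟨X, Z, A, hB, hX, hlt, hZ, hA, h⟩ <;> rw [h]
  · refine ⟨[], rfl, le_rfl, fun f hf t ht => ?_⟩
    simp only [ev, sub_zero, norm_div, Complex.norm_natCast, fb]
    exact (div_le_div_of_nonneg_right (hf.nb ht) (by positivity)).trans (div_succ_ge _ _ hS)
  set W := 2 ^ (j + P + 1) with hW
  have hW0 : 0 < W := by positivity
  set d := fun i => X / W ^ i % W
  have hd : ∀ i, d i < W := fun i => Nat.mod_lt _ hW0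
  have hXd := V_digits hW0 _ X hlt
  obtain ⟨e1, e2⟩ := core_vec P j (D + D) d hd X Z hXd hZ
  rw [← hA] at e2
  have hW2 : W = 2 * 2 ^ j * 2 ^ P := by rw [hW]; ring
  have hj : 0 < 2 ^ j := by positivity
  set q : ℕ → ℤ := fun i => ((d i / 2 ^ P : ℕ) : ℤ) - (2 ^ j : ℕ) with hq
  have hz : ∀ i, d i / 2 ^ P < 2 * 2 ^ j := fun i =>
    Nat.div_lt_of_lt_mul (by rw [mul_comm, ← hW2]; exact hd i)
  have hqa : ∀ i, (q i).natAbs ≤ 2 ^ j := fun i => by
    have : ∀ u v : ℕ, u < 2 * v → ((u : ℤ) - v).natAbs ≤ v := by intro u v h; omega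
    exact this _ _ (hz i)
  have hsum : ∀ g : ℕ → ℕ, (∀ i, g i ≤ 2 ^ j) → ∑ i ∈ range D, g i < W - 1 := by
    intro g hg
    have := sum_le_card_nsmul (range D) g _ fun i _ => hg i
    simp only [card_range, smul_eq_mul] at this
    have h2 : (2 * D + 2) * 2 ^ j ≤ 2 ^ P * 2 ^ j := Nat.mul_le_mul_right _ hD
    have h3 : D * 2 ^ j + 2 ≤ W := by rw [hW2]; nlinarith
    exact Nat.lt_sub_of_add_lt (by linarith)
  have hqW : ∀ i, (q i).natAbs < W := fun i => by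
    have := hqa i
    have : 2 ^ j ≤ 2 ^ j * 2 ^ P := Nat.le_mul_of_pos_right _ hS
    rw [hW2, mul_assoc]; omega
  refine ⟨lf q D, ?_, ?_, fun f hf t ht => ?_⟩
  · rw [ev_V, e1, V_mod_pow _ _ _ fun i => (Nat.div_le_self _ _).trans_lt (hd i)]
  · rw [l1_lf, e2, V_mod_pow _ _ _ hqW, V_mod _ _ hW0 _ (hsum _ hqa)]
  obtain ⟨l, h1, h2, h3⟩ := hf
  have hu := ev_unique t (2 ^ (j + P)) (D + D) l (fun i => (d i : ℤ) - (2 ^ (j + P) : ℕ))
    (h2.trans_lt hB) (fun i => by have := hd i; rw [hW, pow_succ] at this; omega) (by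
      have : (2 * (2 ^ (j + P) : ℕ) : ℤ) = (W : ℕ) := by rw [hW]; push_cast; ring
      rw [this, ev_V, ← hXd, h1, ← hX]; simp)
  have hS' : ((2 ^ P : ℕ) : ℂ) ≠ 0 := by exact_mod_cast hS.ne'
  have hSr : (0 : ℝ) < (2 ^ P : ℕ) := by exact_mod_cast hS
  have key : f t / (2 ^ P : ℕ) - ev (lf q D) t = ∑ i ∈ range D, (q (D + i) : ℂ) * t ^ (D + i) +
      ((f t - ev l t) / (2 ^ P : ℕ) +
        ∑ i ∈ range (D + D), ((d i % 2 ^ P : ℕ) : ℂ) / (2 ^ P : ℕ) * t ^ i) := by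
    have : ev l t / (2 ^ P : ℕ) = ∑ i ∈ range (D + D), (q i : ℂ) * t ^ i +
        ∑ i ∈ range (D + D), ((d i % 2 ^ P : ℕ) : ℂ) / (2 ^ P : ℕ) * t ^ i := by
      rw [hu, ev_lf, sum_div, ← sum_add_distrib]
      refine sum_congr rfl fun i _ => ?_
      have h4 : (d i : ℂ) = ((d i % 2 ^ P : ℕ) : ℂ) + (2 ^ P : ℕ) * ((d i / 2 ^ P : ℕ) : ℂ) := by
        exact_mod_cast (Nat.mod_add_div _ _).symm
      simp only [hq, Int.cast_sub, Int.cast_natCast]
      rw [h4, pow_add, Nat.cast_mul]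
      field_simp
      ring
    rw [sub_div, this, sum_range_add _ D D, ev_lf]; ring
  rw [key, e2, V_div_pow _ _ _ hqW, V_mod _ _ hW0 _ (hsum _ fun i => hqa _)]
  have hp : ∀ i, ‖t ^ i‖ ≤ 1 := fun i => by rw [norm_pow]; exact pow_le_one₀ (norm_nonneg _) ht
  have hA1 : ‖∑ i ∈ range D, (q (D + i) : ℂ) * t ^ (D + i)‖ ≤
      ((∑ i ∈ range D, (q (D + i)).natAbs : ℕ) : ℝ) := by
    rw [Nat.cast_sum]
    refine norm_sum_le_of_le _ fun i _ => ?_
    rw [norm_mul, Complex.norm_intCast, Nat.cast_natAbs, Int.cast_abs]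
    exact mul_le_of_le_one_right (abs_nonneg _) (hp _)
  have hA2 : ‖(f t - ev l t) / (2 ^ P : ℕ)‖ ≤ ((e / 2 ^ P).succ : ℕ) := by
    rw [norm_div, Complex.norm_natCast]
    exact (div_le_div_of_nonneg_right (h3 t ht) (by positivity)).trans (div_succ_ge _ _ hS)
  have hA3 : ‖∑ i ∈ range (D + D), ((d i % 2 ^ P : ℕ) : ℂ) / (2 ^ P : ℕ) * t ^ i‖ ≤ (D + D : ℕ) := by
    refine (norm_sum_le_of_le (n := fun _ => 1) _ fun i _ => ?_).trans (by simp)
    rw [norm_mul, norm_div, Complex.norm_natCast, Complex.norm_natCast]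
    refine mul_le_one₀ ?_ (norm_nonneg _) (hp _)
    rw [div_le_one hSr]; exact_mod_cast (Nat.mod_lt _ hS).le
  refine (norm_add_le_of_le hA1 (norm_add_le_of_le hA2 hA3)).trans (le_of_eq ?_)
  push_cast; ring

end Pool.Agent.Lib.MP_3b1384_co
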