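import Pool.Agent.Lib.MP_3b1384_co.Eng
import Pool.Agent.Lib.MP_3b1384_co.Alg

namespace Pool.Agent.Lib.MP_3b1384_co
open Finset

lemma Enc.mono {W : ℕ} {a b : T} {f : ℂ → ℂ} (h : Enc W a f) (h1 : a.N = b.N) (h2 : a.B ≤ b.B)
    (h3 : a.e ≤ b.e) : Enc W b f := by
  obtain ⟨l, k1, k2, k3⟩ := h
  exact ⟨l, k1.trans h1, k2.trans h2, fun t ht => (k3 t ht).trans (by exact_mod_cast h3)⟩

lemma Enc.rnd {C : Cf} (hC : C.ok) {a : T} {f : ℂ → ℂ} (h : Enc C.W a f) :
    Enc C.W (rnd C a) fun t => f t / C.S := by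
  obtain ⟨l, h1, h2, h3⟩ := rnd_spec hC a
  exact ⟨l, h1, h2, h3 f h⟩

lemma Enc.ofl (C : Cf) (l : List ℤ) : Enc C.W (ofl C l) (ev l) := by
  have : ev l (C.W : ℤ) = (MP_3b1384_co.ofl C l).N ∧ l1 l = (MP_3b1384_co.ofl C l).B := by
    induction l with
    | nil => exact ⟨rfl, rfl⟩
    | cons q l ih => exact ⟨by rw [ev, ih.1]; rfl, by rw [l1, ih.2]; rfl⟩
  exact ⟨l, this.1, this.2.le, fun t _ => by simp⟩

def E1 (C : Cf) (a : T) (v : ℂ → ℂ) : Prop := Enc C.W a fun t => C.S * v t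

namespace E1
variable {C : Cf} {a b : T} {u v : ℂ → ℂ}

lemma congr (h : E1 C a u) (e : ∀ t, ‖t‖ ≤ 1 → u t = v t) : E1 C a v :=
  Enc.congr h fun t ht => by rw [e t ht]

lemma nb (hC : C.ok) (h : E1 C a u) {t : ℂ} (ht : ‖t‖ ≤ 1) : ‖u t‖ ≤ a.nb / C.S := by
  have h1 := Enc.nb h ht
  have : (0 : ℝ) < C.S := by exact_mod_cast hC.S_pos
  rw [norm_mul, Complex.norm_natCast] at h1
  rw [le_div_iff₀' this]; exact h1

lemma zero : E1 C T.zero fun _ => 0 := Enc.congr Enc.zero fun _ _ => by simp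
lemma one : E1 C (one C) fun _ => 1 := Enc.congr (Enc.nat _) fun _ _ => by simp
lemma add (ha : E1 C a u) (hb : E1 C b v) : E1 C (a.add b) fun t => u t + v t :=
  Enc.congr (Enc.add ha hb) fun _ _ => by ring
lemma neg (ha : E1 C a u) : E1 C a.neg fun t => -u t :=
  Enc.congr (Enc.neg ha) fun _ _ => by ring
lemma natmul (c : ℕ) (ha : E1 C a u) : E1 C ((T.nat c).mul a) fun t => c * u t :=
  Enc.congr (Enc.mul (Enc.nat c) ha) fun _ _ => by ring
lemma mr (hC : C.ok) (ha : E1 C a u) (hb : E1 C b v) : E1 C (mr C a b) fun t => u t * v t := by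
  have : (C.S : ℂ) ≠ 0 := by exact_mod_cast hC.S_pos.ne'
  exact Enc.congr (Enc.rnd hC (Enc.mul ha hb)) fun _ _ => by field_simp
lemma mrs (hC : C.ok) (ha : E1 C a u) (hb : E1 C b v) : E1 C (mrs C a b) fun t => u t * v t :=
  Enc.adde (Enc.add (ha.mr hC hb) (Enc.nat _)) _ fun t _ => by simp
lemma ofl (hC : C.ok) (l : List ℤ) : E1 C (ofl C l) fun t => ev l t / C.S := by
  have : (C.S : ℂ) ≠ 0 := by exact_mod_cast hC.S_pos.ne'
  exact Enc.congr (Enc.ofl C l) fun _ _ => by field_simp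

lemma cq (q : ℚ) : E1 C (cq C q) fun _ => q := by
  refine ⟨[q.num * C.S / q.den], by simp [ev, MP_3b1384_co.cq]; rfl,
    by simp [l1, MP_3b1384_co.cq]; rfl, fun t _ => ?_⟩
  have hd : (0 : ℤ) < q.den := by exact_mod_cast q.den_pos
  have hd' : (0 : ℝ) < q.den := by exact_mod_cast q.den_pos
  have h1 := Int.emod_add_mul_ediv (q.num * C.S) q.den
  have h2 := Int.emod_nonneg (q.num * C.S) hd.ne'
  have h3 := Int.emod_lt_of_pos (q.num * C.S) hd
  have e : (C.S : ℂ) * q - ev [q.num * C.S / q.den] t =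
      ((q.num * C.S % q.den : ℤ) : ℂ) / ((q.den : ℤ) : ℂ) := by
    have h4 := congrArg (Int.cast : ℤ → ℂ) h1
    have : (q.den : ℂ) ≠ 0 := by exact_mod_cast q.den_pos.ne'
    rw [Rat.cast_def]
    simp only [ev, Int.cast_add, Int.cast_mul, Int.cast_natCast, mul_zero, add_zero] at h4 ⊢
    field_simp
    linear_combination -h4
  rw [e, norm_div, Complex.norm_intCast, Complex.norm_intCast, ← Int.cast_abs, ← Int.cast_abs,
    abs_of_nonneg h2, abs_of_pos hd, show ((MP_3b1384_co.cq C q).e : ℝ) = 1 from Nat.cast_one,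
    div_le_one (by exact_mod_cast hd)]
  exact_mod_cast h3.le

lemma inv (j : ℕ) : E1 C (inv C (j + 1)) fun _ => 1 / ((j : ℂ) + 1) := by
  refine ⟨[(C.S / (j + 1) : ℕ)], by simp [ev, MP_3b1384_co.inv]; rfl,
    by simp only [l1, Int.natAbs_natCast]; rfl, fun t _ => ?_⟩
  have h1 := Nat.mod_add_div C.S (j + 1)
  have e : (C.S : ℂ) * (1 / ((j : ℂ) + 1)) - ev [(C.S / (j + 1) : ℕ)] t =
      ((C.S % (j + 1) : ℕ) : ℂ) / ((j + 1 : ℕ) : ℂ) := by
    have h4 := congrArg (Nat.cast : ℕ → ℂ) h1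
    have : (j : ℂ) + 1 ≠ 0 := by exact_mod_cast j.succ_ne_zero
    simp only [ev, Nat.cast_add, Nat.cast_mul, Int.cast_natCast, mul_zero, add_zero,
      Nat.cast_one] at h4 ⊢
    field_simp
    linear_combination -h4
  rw [e, norm_div, Complex.norm_natCast, Complex.norm_natCast,
    show ((MP_3b1384_co.inv C (j + 1)).e : ℝ) = 1 from Nat.cast_one, div_le_one (by positivity)]
  exact_mod_cast (Nat.mod_lt _ j.succ_pos).le

lemma lin (p q : ℚ) : E1 C (lin C p q) fun t => p + q * t := by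
  have h : Enc C.W ⟨Int.ofNat C.W, 1, 0⟩ fun t => t :=
    ⟨[0, 1], by simp [ev], by simp [l1], fun t _ => by simp [ev]⟩
  exact (cq p).add (v := fun t => q * t) (Enc.congr (Enc.mul (cq q) h) fun _ _ => by ring)

lemma expl (hC : C.ok) (ha : E1 C a u) (f : ℕ) : ∀ (k : ℕ) (tm acc : T),
    E1 C tm (fun t => u t ^ k / k.factorial) →
    E1 C acc (fun t => ∑ m ∈ range (k + 1), u t ^ m / m.factorial) →
    E1 C (expl C a f k tm acc) fun t => ∑ m ∈ range (k + f + 1), u t ^ m / m.factorial := by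
  induction f with
  | zero => intro k tm acc _ h; exact h
  | succ f ih =>
    intro k tm acc h1 h2
    have h3 : E1 C (MP_3b1384_co.mr C (MP_3b1384_co.mr C tm a) (MP_3b1384_co.inv C (k + 1)))
        fun t => u t ^ (k + 1) / (k + 1).factorial :=
      ((h1.mr hC ha).mr hC (inv k)).congr fun t _ => by
        have : (k : ℂ) + 1 ≠ 0 := by exact_mod_cast k.succ_ne_zero
        have : (k.factorial : ℂ) ≠ 0 := by exact_mod_cast k.factorial_ne_zero
        rw [Nat.factorial_succ, pow_succ]; push_cast; field_simp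
    have := ih (k + 1) _ _ h3 ((h2.add h3).congr fun t _ => (sum_range_succ _ _).symm)
    rw [show k + (f + 1) + 1 = k + 1 + f + 1 by ring]
    simpa only [MP_3b1384_co.expl, T.frc_eq] using this

lemma texp (hC : C.ok) (n : ℕ) (ha : E1 C a u) : E1 C (texp C n a) fun t => Complex.exp (u t) := by
  have hS : (0 : ℝ) < C.S := by exact_mod_cast hC.S_pos
  simp only [MP_3b1384_co.texp, T.frc_eq]
  cases h : Nat.ble _ _
  · refine Enc.err _ fun t ht => ?_
    rw [norm_mul, Complex.norm_natCast, Nat.mul_eq, Nat.pow_eq, Nat.cast_mul, Nat.cast_pow]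
    refine mul_le_mul_of_nonneg_left ?_ hS.le
    refine (Complex.norm_exp_le_exp_norm _).trans ?_
    refine (Real.exp_le_exp.2 ((ha.nb hC ht).trans (div_succ_ge _ _ hC.S_pos))).trans ?_
    rw [← Real.exp_one_pow]
    exact pow_le_pow_left₀ (Real.exp_pos 1).le (by
      have := Real.exp_one_lt_d9; push_cast; linarith) _
  · have h1 := expl hC ha n 0 _ _ (one.congr fun t _ => by simp) (one.congr fun t _ => by simp)
    refine Enc.adde h1 _ fun t ht => ?_
    have h2 : 2 * a.nb ≤ (n + 2) * C.S := Nat.le_of_ble_eq_true h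
    have h2' : (2 : ℝ) * a.nb ≤ (n + 2) * C.S := by exact_mod_cast h2
    have h3 := ha.nb hC ht
    have h4 := Complex.exp_bound' (x := u t) (n := n + 1) (by
      rw [div_le_iff₀ (by positivity)]
      refine h3.trans ?_
      rw [div_le_iff₀ hS]; push_cast; linarith)
    rw [← mul_sub, norm_mul, Complex.norm_natCast, zero_add]
    refine le_trans ?_ (div_succ_ge _ _ (Nat.mul_pos (Nat.factorial_pos _) (Nat.pow_pos hC.S_pos)))
    refine (mul_le_mul_of_nonneg_left h4 hS.le).trans ?_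
    have h5 := pow_le_pow_left₀ (norm_nonneg _) h3 (n + 1)
    simp only [Nat.mul_eq, Nat.pow_eq, Nat.succ_eq_add_one]
    push_cast
    have : (0 : ℝ) < (n + 1).factorial := by exact_mod_cast Nat.factorial_pos _
    calc _ ≤ C.S * ((a.nb / C.S : ℝ) ^ (n + 1) / (n + 1).factorial * 2) := by gcongr
      _ = _ := by rw [div_pow, pow_succ (C.S : ℝ)]; field_simp

end E1

def EL (C : Cf) : List T → (ℕ → ℂ → ℂ) → Prop
  | [], _ => True
  | a :: l, f => E1 C a (f 0) ∧ EL C l fun i => f (i + 1)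

def EZ (C : Cf) : List T → (ℕ → ℂ → ℂ) → Prop
  | [], f => ∀ i t, f i t = 0
  | a :: l, f => E1 C a (f 0) ∧ EZ C l fun i => f (i + 1)

variable {C : Cf}

lemma EL.toEZ : ∀ {l : List T} {f : ℕ → ℂ → ℂ}, EL C l f →
    EZ C l fun i t => if i < l.length then f i t else 0
  | [], _, _ => by simp [EZ]
  | a :: l, f, h => ⟨by simpa using h.1, by simpa using EL.toEZ h.2⟩

lemma EZ.head {l : List T} {f : ℕ → ℂ → ℂ} (h : EZ C l f) : E1 C (l.headD T.zero) (f 0) := by
  cases l with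
  | nil => exact E1.zero.congr fun t _ => (h 0 t).symm
  | cons a l => exact h.1

lemma EZ.tail {l : List T} {f : ℕ → ℂ → ℂ} (h : EZ C l f) : EZ C l.tail fun i => f (i + 1) := by
  cases l with
  | nil => exact fun i t => h _ t
  | cons a l => exact h.2

lemma EZ.getD : ∀ {l : List T} {f : ℕ → ℂ → ℂ}, EZ C l f → ∀ i, E1 C (l.getD i T.zero) (f i)
  | [], _, h, i => E1.zero.congr fun t _ => (h i t).symm
  | _ :: _, _, h, 0 => h.1
  | _ :: _, _, h, i + 1 => EZ.getD h.2 i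

lemma EZ.wts : ∀ {l : List T} {f : ℕ → ℂ → ℂ}, EZ C l f → ∀ m,
    EZ C (wts l m) fun i t => ((m + i : ℕ) : ℂ) * f i t
  | [], _, h, m => fun i t => by simp [h i t]
  | a :: l, f, h, m => by
    rw [show MP_3b1384_co.wts (a :: l) m = (T.nat m).mul a :: MP_3b1384_co.wts l (m + 1) from
      T.frc_eq ((T.nat m).mul a) fun y => y :: MP_3b1384_co.wts l (m + 1)]
    refine ⟨h.1.natmul m, ?_⟩
    simpa only [add_assoc, add_comm 1] using EZ.wts h.2 (m + 1)

lemma EZ.neg : ∀ {l : List T} {f : ℕ → ℂ → ℂ}, EZ C l f → EZ C (l.map T.neg) fun i t => -f i t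
  | [], _, h => fun i t => by simp [h i t]
  | _ :: _, _, h => ⟨h.1.neg, EZ.neg h.2⟩

lemma EZ.horT (hC : C.ok) {v : T} {z : ℂ → ℂ} (hv : E1 C v z) : ∀ {l : List T} {f : ℕ → ℂ → ℂ},
    EZ C l f → E1 C (horT C v l) fun t => ∑ i ∈ range l.length, f i t * z t ^ i
  | [], _, _ => E1.zero.congr fun t _ => by simp
  | a :: l, f, h => (h.1.add (hv.mr hC (EZ.horT hC hv h.2))).congr fun t _ => by
    rw [List.length_cons, sum_range_succ', mul_sum, add_comm]
    simp only [pow_zero, mul_one, pow_succ, add_left_inj]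
    exact sum_congr rfl fun i _ => by ring

lemma row0_spec (hC : C.ok) {ne : T} {u : ℂ → ℂ} (h : E1 C ne u) (f : ℕ) : ∀ (k : ℕ) (p : T),
    E1 C p (fun t => u t ^ k) →
    EL C (row0 C ne f k p) (fun i t => u t ^ (k + i) * ((k + i : ℕ) + 1)) ∧
      (row0 C ne f k p).length = f := by
  induction f with
  | zero => intro k p _; exact ⟨trivial, rfl⟩
  | succ f ih =>
    intro k p hp
    have := ih (k + 1) _ ((hp.mrs hC h).congr fun t _ => (pow_succ _ _).symm)
    simp only [row0, T.frc_eq] at this ⊢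
    refine ⟨⟨(hp.natmul _).congr fun t _ => by push_cast; ring, ?_⟩, congrArg _ this.2⟩
    simpa only [add_assoc, add_comm 1] using this.1

lemma stp_spec (hC : C.ok) {Y iv : T} {y w : ℂ → ℂ} (hY : E1 C Y y) (hi : E1 C iv w) :
    ∀ (l : List T) (p a : T) (g : ℕ → ℂ → ℂ), EL C (p :: a :: l) g →
    EL C (stp C Y iv l p a) (fun i t => (g (i + 2) t + y t * g i t) * w t) ∧
      (stp C Y iv l p a).length = l.length
  | [], _, _, _, _ => ⟨trivial, rfl⟩
  | b :: l, p, a, g, h => by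
    have := stp_spec hC hY hi l a b _ h.2
    simp only [stp, T.frc_eq] at this ⊢
    exact ⟨⟨(h.2.2.1.add (hY.mr hC h.1)).mrs hC hi, this.1⟩, congrArg Nat.succ this.2⟩

lemma EL.congr : ∀ {l : List T} {f g : ℕ → ℂ → ℂ}, EL C l f → (∀ i t, f i t = g i t) → EL C l g := by
  intro l f g h e
  rwa [show f = g from funext fun i => funext (e i)] at h

lemma frow_spec (hC : C.ok) {Y : T} {y e : ℂ → ℂ} (hY : E1 C Y y) (f : ℕ) :
    ∀ (n : ℕ) (row : List T), EL C row (fun k t => H (y t) (e t) n k / n.factorial) →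
    row.length = f →
    EL C (frow C Y f n row) (fun i t => H (y t) (e t) (n + i) 0 / (n + i).factorial) ∧
      (frow C Y f n row).length = f := by
  induction f with
  | zero => intro n row _ _; exact ⟨trivial, rfl⟩
  | succ f ih =>
    intro n row h hl
    obtain _ | ⟨a, l⟩ := row
    · cases hl
    have h1 := stp_spec hC hY (E1.inv n) l T.zero a
      (fun i => Nat.casesOn i (fun _ => 0) fun k t => H (y t) (e t) n k / n.factorial) ⟨E1.zero, h⟩
    have := ih (n + 1) _ (h1.1.congr fun i t => by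
      have : (n : ℂ) + 1 ≠ 0 := by exact_mod_cast n.succ_ne_zero
      have : (n.factorial : ℂ) ≠ 0 := by exact_mod_cast n.factorial_ne_zero
      rw [Nat.factorial_succ]
      cases i <;> simp only [H, Nat.rec_zero] <;> push_cast <;> field_simp <;> ring)
      (h1.2.trans (Nat.succ.inj hl))
    simp only [frow] at this ⊢
    refine ⟨⟨h.1, ?_⟩, congrArg _ this.2⟩
    simpa only [add_assoc, add_comm 1] using this.1

lemma Frow_spec (hC : C.ok) {Y e : T} {y u : ℂ → ℂ} (hY : E1 C Y y) (he : E1 C e u) (M : ℕ) :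
    EZ C (Frow C M Y e) (fun i t => if i < M then H (y t) (u t) i 0 / i.factorial else 0) ∧
      (Frow C M Y e).length = M := by
  have h0 := row0_spec hC he.neg M 0 _ (E1.one.congr fun t _ => (pow_zero _).symm)
  have := frow_spec hC (e := u) hY M 0 _ (h0.1.congr fun i t => by simp [H]) h0.2
  refine ⟨?_, this.2⟩
  have h := this.1.toEZ
  rw [this.2] at h
  simpa only [zero_add, Frow] using h

def isum : List ℤ → List ℤ → ℤ
  | x :: a, y :: b => x * y + isum a b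
  | _, _ => 0

lemma idot_eq : ∀ (a b : List ℤ) (p n : ℕ), idot a b p n = p - n + isum a b
  | [], b, p, n => by simp [idot, isum, Int.subNatNat_eq_coe]
  | x :: a, [], p, n => by simp [idot, isum, Int.subNatNat_eq_coe]
  | x :: a, y :: b, p, n => by
    cases x <;> cases y <;> refine (idot_eq a b _ _).trans ?_ <;>
      simp only [isum, Int.negSucc_eq, Nat.add_eq, Nat.mul_eq, Int.ofNat_eq_natCast] <;>
      push_cast <;> ring

lemma mat_eq {α : Type} : ∀ (l : List T) (k : List ℤ → ℕ → ℕ → α),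
    mat l k = k (l.map T.N) (l.map T.B).sum (l.map T.e).sum
  | [], _ => rfl
  | a :: l, k => mat_eq l fun r sb se => k (a.N :: r) (a.B + sb) (a.e + se)

def EQ (W : ℕ) (mB : ℕ) : List ℤ → (ℕ → List ℤ) → Prop
  | [], G => ∀ i, G i = []
  | y :: b, G => (ev (G 0) (W : ℤ) = y ∧ l1 (G 0) ≤ mB) ∧ EQ W mB b fun i => G (i + 1)

lemma EQ.mono {W mB mB' : ℕ} (h : mB ≤ mB') : ∀ {b : List ℤ} {G : ℕ → List ℤ},
    EQ W mB b G → EQ W mB' b G
  | [], _, k => k
  | _ :: _, _, k => ⟨⟨k.1.1, k.1.2.trans h⟩, EQ.mono h k.2⟩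

lemma dotE {mB : ℕ} : ∀ (a : List T) (b : List ℤ) (F : ℕ → ℂ → ℂ) (G : ℕ → List ℤ) (n : ℕ),
    EZ C a F → EQ C.W mB b G → (∀ i, n ≤ i → G i = []) →
    Enc C.W ⟨isum (a.map T.N) b, (a.map T.B).sum * mB, (a.map T.e).sum * mB⟩
      fun t => C.S * ∑ i ∈ range n, F i t * ev (G i) t
  | [], b, F, G, n, hF, _, _ => ⟨[], by simp [isum, ev], by simp [l1], fun t _ => by
      simp [ev, hF _ t]⟩
  | x :: a, [], F, G, n, _, hG, _ => ⟨[], by simp [isum, ev], by simp [l1], fun t _ => by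
      simp only [ev, hG _, mul_zero, sum_const_zero, sub_zero, norm_zero]; positivity⟩
  | x :: a, y :: b, F, G, n, hF, hG, hn => by
    have h1 := dotE a b _ _ (n - 1) hF.2 hG.2 fun i hi => hn _ (by omega)
    have h2 : Enc C.W ⟨y, mB, 0⟩ (ev (G 0)) := ⟨G 0, hG.1.1, hG.1.2, fun t _ => by simp⟩
    refine Enc.congr (Enc.mono ((Enc.mul hF.1 h2).add h1) (by rfl) (le_of_eq ?_) (le_of_eq ?_))
      fun t _ => ?_
    · simp [T.add, T.mul, add_mul]
    · simp [T.add, T.mul, add_mul]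
    · cases n with
      | zero => simp [hn 0 le_rfl, ev]
      | succ n => rw [sum_range_succ', Nat.add_sub_cancel]; ring

def dO : O3 := ⟨T.zero, 0, 0⟩

lemma onl_succ (C : Cf) (f0 : T) (ft : List ℤ) (b0 e0 : ℕ) (f1 : List ℤ) (b1 e1 Mq f m : ℕ)
    (Ts : List T) (qs : List ℤ) (mB : ℕ) (s q : T) (mB' : ℕ)
    (hs : T.add ⟨isum ft qs, b0 * mB, e0 * mB⟩ (T.neg (T.mul (one C) (Ts.headD T.zero))) = s)
    (hq : (Bool.rec (T.ex (T.neg (rnd C s))) T.zero (Nat.ble Mq m) : T) = q)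
    (hm : (Bool.rec q.B mB (Nat.ble q.B mB) : ℕ) = mB') :
    onl C f0 ft b0 e0 f1 b1 e1 Mq (f + 1) m Ts qs mB = ⟨q, (rnd C (T.add s (T.mul f0 q))).nb,
      (rnd C ⟨isum f1 (q.N :: qs), b1 * mB', e1 * mB'⟩).nb⟩ ::
      onl C f0 ft b0 e0 f1 b1 e1 Mq f (m + 1) Ts.tail (q.N :: qs) mB' := by
  subst hs hq hm
  simp only [onl, T.frc_eq, idot_eq, Nat.cast_zero, sub_zero, zero_add]
  rfl

theorem onl_spec (hC : C.ok) {f0 : T} {ft f1 : List T} {F0 : ℂ → ℂ} {F F1 Tg : ℕ → ℂ → ℂ} (Mq : ℕ)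
    (h0 : E1 C f0 F0) (hF : EZ C ft F) (hF1 : EZ C f1 F1) (f : ℕ) :
    ∀ (m : ℕ) (Ts : List T) (qs : List ℤ) (mB : ℕ) (Q0 : ℕ → List ℤ), EZ C Ts (fun i => Tg (m + i)) →
    EQ C.W mB qs (fun i => if i < m then Q0 (m - 1 - i) else []) →
    ∃ Q : ℕ → List ℤ, (∀ i < m, Q i = Q0 i) ∧ (∀ i, m ≤ i → (m + f ≤ i ∨ Mq ≤ i) → Q i = []) ∧
      ∀ j < f, ∀ r, r = (onl C f0 (ft.map T.N) (ft.map T.B).sum (ft.map T.e).sum (f1.map T.N)
        (f1.map T.B).sum (f1.map T.e).sum Mq f m Ts qs mB).getD j dO →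
        ev (Q (m + j)) (C.W : ℤ) = r.q.N ∧ l1 (Q (m + j)) ≤ r.q.B ∧ ∀ t : ℂ, ‖t‖ ≤ 1 →
        ‖∑ i ∈ range (m + j), F i t * ev (Q (m + j - 1 - i)) t - C.S * Tg (m + j) t +
          F0 t * ev (Q (m + j)) t‖ ≤ r.g ∧
        ‖∑ i ∈ range (m + j + 1), F1 i t * ev (Q (m + j - i)) t‖ ≤ r.h := by
  have hS : (C.S : ℂ) ≠ 0 := by exact_mod_cast hC.S_pos.ne'
  induction f with
  | zero =>
    intro m Ts qs mB Q0 _ _
    refine ⟨fun i => if i < m then Q0 i else [], fun i hi => if_pos hi,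
      fun i hi _ => if_neg (not_lt.2 hi), fun j hj => absurd hj (Nat.not_lt_zero _)⟩
  | succ f ih =>
    intro m Ts qs mB Q0 hT hq
    set s := T.add ⟨isum (ft.map T.N) qs, (ft.map T.B).sum * mB, (ft.map T.e).sum * mB⟩
      (T.neg (T.mul (one C) (Ts.headD T.zero))) with hs
    generalize hqd : (Bool.rec (T.ex (T.neg (rnd C s))) T.zero (Nat.ble Mq m) : T) = q
    obtain ⟨l, hl1, hl2, hl3, hl4⟩ : ∃ l : List ℤ, ev l (C.W : ℤ) = q.N ∧ l1 l ≤ q.B ∧ q.e = 0 ∧
        (Mq ≤ m → l = []) := by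
      rw [← hqd]
      cases h : Nat.ble Mq m
      · obtain ⟨l, k1, k2, -⟩ := rnd_spec hC s
        refine ⟨l.map (-1 * ·), by rw [ev_map, k1]; simp [T.neg, T.ex]; rfl,
          by rw [l1_map]; simpa [T.neg, T.ex], rfl, fun h' => ?_⟩
        exact absurd (h.symm.trans (Nat.ble_eq_true_of_le h')) Bool.false_ne_true
      · exact ⟨[], rfl, le_rfl, rfl, fun _ => rfl⟩
    generalize hmB : (Bool.rec q.B mB (Nat.ble q.B mB) : ℕ) = mB'
    rw [onl_succ C f0 _ _ _ _ _ _ Mq f m Ts qs mB s q mB' rfl hqd hmB]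
    obtain ⟨N, B, e⟩ := q
    have hB : B ≤ mB' ∧ mB ≤ mB' := by
      rw [← hmB]
      cases h : Nat.ble B mB
      · exact ⟨le_rfl, (not_le.1 fun h' =>
          Bool.false_ne_true (h.symm.trans (Nat.ble_eq_true_of_le h'))).le⟩
      · exact ⟨Nat.le_of_ble_eq_true h, le_rfl⟩
    have hq' : EQ C.W mB' (N :: qs)
        fun i => if i < m + 1 then Function.update Q0 m l (m + 1 - 1 - i) else [] := by
      refine ⟨by simpa using ⟨hl1, hl2.trans hB.1⟩, ?_⟩
      convert hq.mono hB.2 using 2 with i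
      beta_reduce
      by_cases hi : i < m
      · rw [if_pos hi, if_pos (by omega), Function.update_of_ne (by omega)]
        congr 1; omega
      · rw [if_neg hi, if_neg (by omega)]
    obtain ⟨Q, k1, k2, k3⟩ := ih (m + 1) Ts.tail (N :: qs) mB' (Function.update Q0 m l)
      (by simpa only [add_assoc, add_comm 1] using hT.tail) hq'
    have kQ : ∀ i < m, Q i = Q0 i := fun i hi => by
      rw [k1 i (by omega), Function.update_of_ne hi.ne]
    have km : Q m = l := by rw [k1 m (by omega), Function.update_self]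
    refine ⟨Q, kQ, fun i hi h => ?_, fun j hj r hr => ?_⟩
    · rcases hi.eq_or_lt with rfl | hi
      · rw [km]; exact hl4 (by omega)
      · exact k2 i hi (by omega)
    cases j with
    | succ j =>
      have := k3 j (by omega) r hr
      simpa only [add_assoc, add_comm 1 j] using this
    | zero =>
      subst hr
      simp only [add_zero, km]
      refine ⟨hl1, hl2, fun t ht => ⟨?_, ?_⟩⟩
      · have e1 := dotE ft qs F _ m hF hq fun i hi => if_neg (not_lt.2 hi)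
        have e2 : Enc C.W ⟨N, B, e⟩ (ev l) := ⟨l, hl1, hl2, fun t _ => by simp⟩
        have := (Enc.rnd hC ((e1.add (Enc.mul E1.one hT.head).neg).add (Enc.mul h0 e2))).nb ht
        rw [sum_congr rfl fun i hi => by rw [if_pos (mem_range.1 hi), ← kQ _ (by
          have := mem_range.1 hi; omega)]] at this
        refine le_of_eq_of_le (congrArg _ ?_) this
        simp only [add_zero]
        field_simp
        ring
      · have e1 := dotE f1 (N :: qs) F1 _ (m + 1) hF1 hq' fun i hi => if_neg (not_lt.2 hi)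
        have := (Enc.rnd hC e1).nb ht
        rw [sum_congr rfl fun i hi => by rw [if_pos (mem_range.1 hi), ← k1 _ (by omega)]] at this
        refine le_of_eq_of_le (congrArg _ ?_) this
        simp only [Nat.add_sub_cancel]
        field_simp

lemma onl_length (C : Cf) (f0 : T) (ft : List ℤ) (b0 e0 : ℕ) (f1 : List ℤ) (b1 e1 Mq f : ℕ) :
    ∀ m Ts qs mB, (onl C f0 ft b0 e0 f1 b1 e1 Mq f m Ts qs mB).length = f := by
  induction f with
  | zero => intro _ _ _ _; rfl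
  | succ f ih =>
    intro m Ts qs mB
    rw [onl_succ C f0 ft b0 e0 f1 b1 e1 Mq f m Ts qs mB _ _ _ rfl rfl rfl]
    exact congrArg Nat.succ (ih _ _ _ _)

theorem Onl_spec (hC : C.ok) {fs f1 Ts : List T} {F F1 Tg : ℕ → ℂ → ℂ} (Mq f : ℕ)
    (hF : EZ C fs F) (hF1 : EZ C f1 F1) (hT : EZ C Ts Tg) :
    (Onl C fs f1 Ts Mq f).length = f ∧
    ∃ Q : ℕ → List ℤ, (∀ i, (f ≤ i ∨ Mq ≤ i) → Q i = []) ∧
      ∀ j < f, ∀ r, r = (Onl C fs f1 Ts Mq f).getD j dO →
        ev (Q j) (C.W : ℤ) = r.q.N ∧ l1 (Q j) ≤ r.q.B ∧ ∀ t : ℂ, ‖t‖ ≤ 1 →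
        ‖∑ p ∈ antidiagonal j, F p.1 t * ev (Q p.2) t - C.S * Tg j t‖ ≤ r.g ∧
        ‖∑ p ∈ antidiagonal j, F1 p.1 t * ev (Q p.2) t‖ ≤ r.h := by
  simp only [Onl, mat_eq]
  refine ⟨onl_length _ _ _ _ _ _ _ _ _ _ _ _ _ _, ?_⟩
  obtain ⟨Q, -, k2, k3⟩ := onl_spec hC Mq hF.head hF.tail hF1 f 0 Ts [] 0 (fun _ => [])
    (Tg := Tg) (by simpa using hT) (by simp [EQ])
  refine ⟨Q, fun i hi => k2 i (Nat.zero_le _) (by simpa using hi), fun j hj r hr => ?_⟩
  obtain ⟨a1, a2, a3⟩ := k3 j hj r hr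
  simp only [zero_add] at a1 a2 a3
  refine ⟨a1, a2, fun t ht => ?_⟩
  rw [Finset.Nat.sum_antidiagonal_eq_sum_range_succ (fun i k => F i t * ev (Q k) t),
    Finset.Nat.sum_antidiagonal_eq_sum_range_succ (fun i k => F1 i t * ev (Q k) t), sum_range_succ']
  refine ⟨?_, (a3 t ht).2⟩
  convert (a3 t ht).1 using 2
  rw [sum_congr rfl fun i _ => by rw [show j - (i + 1) = j - 1 - i by omega]]
  simp only [tsub_zero]; ring

lemma hor_spec (u v : ℕ) (hv : 0 < v) : ∀ (l : List ℕ) (c : ℕ → ℝ), (∀ j, c j ≤ l.getD j 0) →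
    ∀ n, ∑ j ∈ range n, c j * ((u : ℝ) / v) ^ j ≤ hor u v l
  | [], c, h, n => by
    refine (sum_nonpos fun j _ => mul_nonpos_of_nonpos_of_nonneg (by simpa using h j)
      (by positivity)).trans (by positivity)
  | x :: l, c, h, 0 => by simp
  | x :: l, c, h, n + 1 => by
    have h1 := hor_spec u v hv l (fun j => c (j + 1)) (fun j => h (j + 1)) n
    have h2 := div_succ_ge (hor u v l * u) v hv
    have h3 : c 0 ≤ x := h 0
    have h4 : ∑ j ∈ range n, c (j + 1) * ((u : ℝ) / v) ^ (j + 1) =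
        (∑ j ∈ range n, c (j + 1) * ((u : ℝ) / v) ^ j) * (u / v) := by
      rw [sum_mul]; exact sum_congr rfl fun j _ => by ring
    have h5 := mul_le_mul_of_nonneg_right h1 (by positivity : (0 : ℝ) ≤ u / v)
    rw [sum_range_succ', h4, show hor u v (x :: l) = x + (hor u v l * u / v).succ from rfl,
      Nat.cast_add]
    rw [Nat.cast_mul, mul_div_assoc] at h2
    simp only [pow_zero, mul_one]
    linarith

lemma mx_spec : ∀ (l : List ℕ) (j : ℕ), l.getD j 0 ≤ mx l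
  | [], j => by simp
  | x :: l, j => by
    have h : x ≤ mx (x :: l) ∧ mx l ≤ mx (x :: l) := by
      rw [show mx (x :: l) = Bool.rec x (mx l) (Nat.ble x (mx l)) from rfl]
      cases h : Nat.ble x (mx l)
      · exact ⟨le_rfl, (not_le.1 fun h' =>
          Bool.false_ne_true (h.symm.trans (Nat.ble_eq_true_of_le h'))).le⟩
      · exact ⟨Nat.le_of_ble_eq_true h, le_rfl⟩
    cases j with
    | zero => exact h.1
    | succ j => exact (mx_spec l j).trans h.2

end Pool.Agent.Lib.MP_3b1384_co
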