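import Mathlib

namespace Pool.Agent.Lib.MP_3b1384_co

structure T where
  N : ℤ
  B : ℕ
  e : ℕ

structure Cf where
  W : ℕ
  S : ℕ
  H : ℕ
  h : ℕ
  n : ℕ
  O : ℕ
  WN : ℕ
  ml : ℕ
  Oh : ℕ
  WD : ℕ
  OD : ℕ

noncomputable def rep (W c n : ℕ) : ℕ := Nat.rec 0 (fun _ ih => Nat.add c (Nat.mul W ih)) n

noncomputable def mkC (P j D : ℕ) : Cf :=
  (fun W S H h n => ⟨W, S, H, h, n, rep W H n, Nat.pow W n, rep W (Nat.sub S 1) n, rep W h n,
    Nat.pow W D, rep W h D⟩)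
  (Nat.pow 2 (Nat.succ (Nat.add j P))) (Nat.pow 2 P) (Nat.pow 2 (Nat.add j P)) (Nat.pow 2 j)
  (Nat.add D D)

namespace T

def zero : T := ⟨0, 0, 0⟩
noncomputable def add (a b : T) : T :=
  T.rec (fun N B e => T.rec (fun N' B' e' => ⟨Int.add N N', Nat.add B B', Nat.add e e'⟩) b) a
def neg (a : T) : T := ⟨Int.neg a.N, a.B, a.e⟩
noncomputable def mul (a b : T) : T :=
  T.rec (fun N B e => T.rec (fun N' B' e' => ⟨Int.mul N N', Nat.mul B B',
    Nat.add (Nat.mul B e') (Nat.mul e (Nat.add B' e'))⟩) b) a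
def nat (c : ℕ) : T := ⟨Int.ofNat c, c, 0⟩
def nb (a : T) : ℕ := Nat.add a.B a.e
def adde (a : T) (n : ℕ) : T := ⟨a.N, a.B, Nat.add a.e n⟩
def ex (a : T) : T := ⟨a.N, a.B, 0⟩

noncomputable def frc {α : Type} (a : T) (k : T → α) : α :=
  T.rec (fun N B e => Int.rec
    (fun m => Bool.rec (k ⟨Int.ofNat m, B, e⟩) (k ⟨Int.ofNat m, B, e⟩) (Nat.ble m (Nat.add B e)))
    (fun m => Bool.rec (k ⟨Int.negSucc m, B, e⟩) (k ⟨Int.negSucc m, B, e⟩) (Nat.ble m (Nat.add B e)))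
    N) a

end T

def fb (S B e : ℕ) : T := ⟨0, 0, Nat.succ (Nat.div (Nat.add B e) S)⟩

noncomputable def rnd (C : Cf) (a : T) : T :=
  Cf.rec (fun W S H h n O WN ml Oh WD OD => T.rec (fun N B e =>
    Bool.rec (Int.rec (fun X => Bool.rec
      ((fun Z => (fun A => (⟨Int.subNatNat (Nat.mod Z WD) OD, Nat.mod (Nat.mod A WD) (Nat.sub W 1),
          Nat.add (Nat.mod (Nat.div A WD) (Nat.sub W 1)) (Nat.add (Nat.div e S) (Nat.succ n))⟩ : T))
        (Nat.sub (Nat.add (Nat.mul 2 (Nat.land Z (Nat.mul (Nat.div (Nat.land Z Oh) h) (Nat.sub h 1))))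
          Oh) Z))
        (Nat.div (Nat.sub X (Nat.land X ml)) S))
      (fb S B e) (Nat.ble WN X)) (fun _ => fb S B e) (Int.add N (Int.ofNat O)))
      (fb S B e) (Nat.ble H B)) a) C

noncomputable def mr (C : Cf) (a b : T) : T := rnd C (T.mul a b)

noncomputable def mrs (C : Cf) (a b : T) : T :=
  T.rec (fun N B e => (fun s => T.adde (T.add ⟨N, B, e⟩ (T.nat s)) s) (Nat.mod B 1021)) (mr C a b)

def one (C : Cf) : T := T.nat C.S
def inv (C : Cf) (j : ℕ) : T := ⟨Int.ofNat (Nat.div C.S j), Nat.div C.S j, 1⟩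
def cq (C : Cf) (q : ℚ) : T :=
  ⟨Int.ediv (Int.mul q.num (Int.ofNat C.S)) (Int.ofNat q.den),
    Int.natAbs (Int.ediv (Int.mul q.num (Int.ofNat C.S)) (Int.ofNat q.den)), 1⟩
noncomputable def lin (C : Cf) (p q : ℚ) : T := T.add (cq C p) (T.mul (cq C q) ⟨Int.ofNat C.W, 1, 0⟩)

noncomputable def ofl (C : Cf) (l : List ℤ) : T :=
  List.rec T.zero (fun q _ ih =>
    ⟨Int.add q (Int.mul (Int.ofNat C.W) ih.N), Nat.add (Int.natAbs q) ih.B, 0⟩) l

noncomputable def expl (C : Cf) (a : T) (f : ℕ) : ℕ → T → T → T :=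
  Nat.rec (motive := fun _ => ℕ → T → T → T) (fun _ _ acc => acc)
    (fun _ ih k tm acc => T.frc (mr C (mr C tm a) (inv C (Nat.succ k))) fun tm' =>
      T.frc (T.add acc tm') fun acc' => ih (Nat.succ k) tm' acc') f

noncomputable def texp (C : Cf) (n : ℕ) (a : T) : T :=
  T.frc a fun a => Bool.rec ⟨0, 0, Nat.mul C.S (Nat.pow 3 (Nat.succ (Nat.div a.nb C.S)))⟩
    (T.adde (expl C a n 0 (one C) (one C))
      (Nat.succ (Nat.div (Nat.mul 2 (Nat.pow a.nb (Nat.succ n)))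
        (Nat.mul (Nat.factorial (Nat.succ n)) (Nat.pow C.S n)))))
    (Nat.ble (Nat.mul 2 a.nb) (Nat.mul (Nat.succ (Nat.succ n)) C.S))

noncomputable def row0 (C : Cf) (ne : T) (f : ℕ) : ℕ → T → List T :=
  Nat.rec (motive := fun _ => ℕ → T → List T) (fun _ _ => [])
    (fun _ ih k p => T.frc (T.mul (T.nat (Nat.succ k)) p) fun x =>
      T.frc (mrs C p ne) fun p' => x :: ih (Nat.succ k) p') f

noncomputable def stp (C : Cf) (Y iv : T) (l : List T) : T → T → List T :=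
  List.rec (motive := fun _ => T → T → List T) (fun _ _ => [])
    (fun b _ ih p a => T.frc (mrs C (T.add b (mr C Y p)) iv) fun x => x :: ih a b) l

noncomputable def frow (C : Cf) (Y : T) (f : ℕ) : ℕ → List T → List T :=
  Nat.rec (motive := fun _ => ℕ → List T → List T) (fun _ _ => [])
    (fun _ ih n row => List.rec [] (fun a l _ =>
      a :: ih (Nat.succ n) (stp C Y (inv C (Nat.succ n)) l T.zero a)) row) f

noncomputable def Frow (C : Cf) (M : ℕ) (Y e : T) : List T :=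
  frow C Y M 0 (row0 C (T.neg e) M 0 (one C))

noncomputable def idot (a : List ℤ) : List ℤ → ℕ → ℕ → ℤ :=
  List.rec (motive := fun _ => List ℤ → ℕ → ℕ → ℤ) (fun _ p n => Int.subNatNat p n)
    (fun x _ ih b p n => List.rec (Int.subNatNat p n) (fun y b _ =>
      Int.rec (fun u => Int.rec (fun v => ih b (Nat.add p (Nat.mul u v)) n)
          (fun v => ih b p (Nat.add n (Nat.mul u (Nat.succ v)))) y)
        (fun u => Int.rec (fun v => ih b p (Nat.add n (Nat.mul (Nat.succ u) v)))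
          (fun v => ih b (Nat.add p (Nat.mul (Nat.succ u) (Nat.succ v))) n) y) x) b) a

noncomputable def mat {α : Type} (l : List T) : (List ℤ → ℕ → ℕ → α) → α :=
  List.rec (motive := fun _ => (List ℤ → ℕ → ℕ → α) → α) (fun k => k [] 0 0)
    (fun a _ ih k => T.rec (fun N B e => ih fun r sb se => k (N :: r) (Nat.add B sb) (Nat.add e se)) a) l

noncomputable def wts (l : List T) : ℕ → List T :=
  List.rec (motive := fun _ => ℕ → List T) (fun _ => [])
    (fun x _ ih m => T.frc (T.mul (T.nat m) x) fun y => y :: ih (Nat.succ m)) l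

structure O3 where
  q : T
  g : ℕ
  h : ℕ

noncomputable def onl (C : Cf) (f0 : T) (ft : List ℤ) (b0 e0 : ℕ) (f1 : List ℤ) (b1 e1 : ℕ)
    (Mq : ℕ) (f : ℕ) : ℕ → List T → List ℤ → ℕ → List O3 :=
  Nat.rec (motive := fun _ => ℕ → List T → List ℤ → ℕ → List O3) (fun _ _ _ _ => [])
    (fun _ ih m Ts qs mB => T.frc (T.add ⟨idot ft qs 0 0, Nat.mul b0 mB, Nat.mul e0 mB⟩
        (T.neg (T.mul (one C) (Ts.headD T.zero)))) fun s =>
      T.frc (Bool.rec (T.ex (T.neg (rnd C s))) T.zero (Nat.ble Mq m)) fun q =>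
        T.rec (fun N B _ => (fun mB' => ⟨q, (rnd C (T.add s (T.mul f0 q))).nb,
          (rnd C ⟨idot f1 (N :: qs) 0 0, Nat.mul b1 mB', Nat.mul e1 mB'⟩).nb⟩ ::
          ih (Nat.succ m) Ts.tail (N :: qs) mB') (Bool.rec B mB (Nat.ble B mB))) q) f

noncomputable def Onl (C : Cf) (fs f1 Ts : List T) (Mq f : ℕ) : List O3 :=
  mat fs.tail fun ft b0 e0 => mat f1 fun f1 b1 e1 =>
    onl C (fs.headD T.zero) ft b0 e0 f1 b1 e1 Mq f 0 Ts [] 0

noncomputable def hor (u v : ℕ) (l : List ℕ) : ℕ :=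
  List.rec 0 (fun c _ ih => Nat.add c (Nat.succ (Nat.div (Nat.mul ih u) v))) l

noncomputable def mx (l : List ℕ) : ℕ :=
  List.rec 0 (fun c _ ih => Bool.rec c ih (Nat.ble c ih)) l

noncomputable def horT (C : Cf) (v : T) (l : List T) : T :=
  List.rec T.zero (fun c _ ih => T.add c (mr C v ih)) l

end Pool.Agent.Lib.MP_3b1384_co
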