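import Pool.Agent.Lib.MP_3b1384_co.Comb

namespace Pool.Agent.Lib.MP_3b1384_co
open Finset hiding mk
open scoped PowerSeries

abbrev R2 := MvPolynomial ℕ ℚ

noncomputable def y (i : ℕ) : R2 := MvPolynomial.X i

noncomputable def Ks : R2⟦X⟧ := PowerSeries.mk y

open PowerSeries in
noncomputable def D2 : Derivation ℚ R2 R2 :=
  MvPolynomial.mkDerivation ℚ fun m => coeff m (sh Ks + X * (X * (sh Ks * derivative R2 Ks)))

open PowerSeries in
lemma D2_lam (φ : R2⟦X⟧) (n : ℕ) :
    D2 (lam (-Ks) φ n) = lam (-Ks) (Dt D2 φ - derivative R2 (X * φ) * (X * sh Ks)) n := by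
  have hK : Dt D2 (-Ks) = -(sh Ks + X * (X * (sh Ks * derivative R2 Ks))) := by
    ext1 m
    rw [Dt, coeff_mk, map_neg, map_neg, map_neg, Ks, coeff_mk, y, D2, MvPolynomial.mkDerivation_X]
    rfl
  induction n generalizing φ with
  | zero => simp [lam_zero, Dt_cc]
  | succ n ih =>
    rw [lam_succ, lam_succ, ih]; congr 1
    have h1 : derivative R2 (X * sh φ) = derivative R2 φ := by
      conv_rhs => rw [sh_spec φ]
      rw [map_add, derivative_C, zero_add]
    have h2 : sh (derivative R2 (X * φ) * (X * sh Ks)) = derivative R2 (X * φ) * sh Ks := by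
      rw [mul_left_comm, sh_X_mul]
    simp only [U]
    rw [Dt_add, Dt_mul, hK, Dt_sh, sh_sub, h2, mul_add X, map_add, h1]
    simp only [Derivation.leibniz, derivative_X, smul_eq_mul, map_neg]
    ring

noncomputable def ev2 : R2 →ₐ[ℚ] Polynomial ℚ :=
  MvPolynomial.aeval fun b => Polynomial.C (catalan b : ℚ) * Polynomial.X

lemma ev2_y (b : ℕ) : ev2 (y b) = Polynomial.C (catalan b : ℚ) * Polynomial.X := by simp [ev2, y]

open PowerSeries in
lemma ev2_D2 (i : ℕ) : ev2 (D2^[i] (y 0)) = A Polynomial.X i := by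
  have hK0 : constantCoeff Ks = y 0 := by rw [← coeff_zero_eq_constantCoeff_apply, Ks, coeff_mk]
  have hm := cumul D2 (y 0) (lam (-Ks) 1) (by simp [lam_zero]) (fun n => by
    have e : U (-Ks) 1 = (Dt D2 1 - derivative R2 (X * 1) * (X * sh Ks)) + C (-y 0) * 1 := by
      have := sh_spec Ks
      rw [hK0] at this
      rw [U, Dt_one, ← map_one (C (R := R2)), sh_C]
      simp only [map_one, mul_one, derivative_X, map_neg]
      linear_combination -this
    rw [D2_lam, lam_succ, e, lam_add, lam_C_mul]; ring)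
  obtain ⟨σ, hX, hC⟩ := exists_subst (1 - X : (Polynomial ℚ)⟦X⟧)
  have h3 := mk_one_mul_one_sub_eq_one (Polynomial ℚ)
  set Ct : (Polynomial ℚ)⟦X⟧ := map (Nat.castRingHom _) catalanSeries with hCt
  have hC1 : Ct ^ 2 * X + 1 = Ct := by
    simpa using congrArg (map (Nat.castRingHom (Polynomial ℚ))) catalanSeries_sq_mul_X_add_one
  have hσ : σ Ct = mk 1 := by
    have h4 := congrArg σ hC1
    simp only [map_add, map_mul, map_pow, map_one, hX] at h4
    have h5 : (σ Ct - mk 1) * (1 - X * ((1 - X) * (σ Ct + mk 1))) = 0 := by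
      linear_combination -h4 + (X * mk 1 - 1) * h3
    rcases mul_eq_zero.1 h5 with h | h
    · exact sub_eq_zero.1 h
    · simpa using congrArg constantCoeff h
  have hmK : map ev2.toRingHom (-Ks) = -(C Polynomial.X * Ct) := by
    ext1 b
    simp [Ks, ev2_y, hCt, mul_comm]
  have key : ∀ n, ev2 (lam (-Ks) 1 n) =
      lam (-(C (Polynomial.X - 1) * mk 1) - C 0) (1 - X) n := by
    intro n
    have := map_lam ev2.toRingHom (-Ks) 1 n
    rw [hmK, map_one, ← lam_conj σ (1 - X) _ (-(C (Polynomial.X - 1) * mk 1) - C 0) hX hC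
      (by simp), map_one, mul_one] at this
    · exact this
    · rw [map_neg, map_mul, hC, hσ, sh_sub, ← map_one (C (R := Polynomial ℚ)), sh_C,
        ← mul_one X, sh_X_mul]
      simp only [map_sub, map_one, map_zero]
      linear_combination h3
  refine cum_unique (lam (-(C (Polynomial.X - 1) * mk 1) - C 0) (1 - X))
    (fun i => ev2 (D2^[i] (y 0))) (A Polynomial.X) (by simp [lam_zero]) (fun n => ?_)
    (fun n => by simpa using model1 Polynomial.X (0 : Polynomial ℚ) n) i
  have := congrArg ev2 (hm n)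
  simpa only [map_neg, map_sum, map_mul, map_natCast, key] using this

noncomputable def cc (j : ℕ) : R2 := ∑ p ∈ antidiagonal j, y (p.1 + 1) * y (p.2 + 1)

lemma D2_0 : D2 (y 0) = y 1 := by simp [D2, y, Ks, sh]
lemma D2_1 : D2 (y 1) = y 2 := by simp [D2, y, Ks, sh, PowerSeries.coeff_succ_X_mul]
lemma D2_2 (j : ℕ) : D2 (y (j + 2)) = y (j + 3) + ((j + 2 : ℚ) / 2) • cc j := by
  have e : ∑ p ∈ antidiagonal j, y (p.1 + 1) * (y (p.2 + 1) * ((p.2 : R2) + 1)) =
      ((j + 2 : ℚ) / 2) • cc j := by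
    have h := Finset.Nat.sum_antidiagonal_swap (n := j)
      (f := fun p => y (p.1 + 1) * (y (p.2 + 1) * ((p.2 : R2) + 1)))
    have h2 : (2 : ℚ) • ∑ p ∈ antidiagonal j, y (p.1 + 1) * (y (p.2 + 1) * ((p.2 : R2) + 1)) =
        (j + 2 : ℚ) • cc j := by
      rw [two_smul]
      nth_rewrite 1 [← h]
      rw [← sum_add_distrib, cc, smul_sum]
      refine sum_congr rfl fun p hp => ?_
      rw [← mem_antidiagonal.1 hp, Algebra.smul_def]
      simp only [Prod.fst_swap, Prod.snd_swap, map_add, map_natCast, map_ofNat, Nat.cast_add]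
      ring
    rw [div_eq_inv_mul, mul_smul, ← h2, smul_smul]; simp
  rw [← e, D2, y, MvPolynomial.mkDerivation_X, map_add, PowerSeries.coeff_succ_X_mul,
    PowerSeries.coeff_succ_X_mul]
  simp [Ks, sh, PowerSeries.coeff_mul, PowerSeries.coeff_derivative]

inductive Pos : R2 → Prop
  | c (q : ℚ) (h : 0 ≤ q) : Pos (MvPolynomial.C q)
  | v (i : ℕ) : Pos (y i)
  | add {p q : R2} : Pos p → Pos q → Pos (p + q)
  | mul {p q : R2} : Pos p → Pos q → Pos (p * q)

lemma Pos.zero : Pos 0 := by simpa using Pos.c 0 le_rfl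
lemma Pos.smul {q : ℚ} (h : 0 ≤ q) {p : R2} (hp : Pos p) : Pos (q • p) := by
  rw [MvPolynomial.smul_eq_C_mul]; exact (Pos.c q h).mul hp
lemma Pos.sum {ι : Type*} (t : Finset ι) (f : ι → R2) (h : ∀ i ∈ t, Pos (f i)) :
    Pos (∑ i ∈ t, f i) :=
  Finset.sum_induction f Pos (fun _ _ => Pos.add) Pos.zero h
lemma Pos.der (D : Derivation ℚ R2 R2) (hD : ∀ i, Pos (D (y i))) {p : R2} (hp : Pos p) :
    Pos (D p) := by
  induction hp with
  | c q h => rw [show D (MvPolynomial.C q) = 0 from D.map_algebraMap q]; exact Pos.zero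
  | v i => exact hD i
  | add _ _ h1 h2 => rw [map_add]; exact h1.add h2
  | mul hp hq h1 h2 => rw [Derivation.leibniz]; exact (hp.mul h2).add (hq.mul h1)
lemma Pos.coeff {p : R2} (hp : Pos p) (k : ℕ) : 0 ≤ (ev2 p).coeff k := by
  induction hp generalizing k with
  | c q h => simp [ev2, Polynomial.coeff_C]; split_ifs <;> simp [h]
  | v i => rw [ev2_y, Polynomial.coeff_C_mul, Polynomial.coeff_X]; split_ifs <;> simp
  | add _ _ h1 h2 => rw [map_add, Polynomial.coeff_add]; exact add_nonneg (h1 k) (h2 k)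
  | mul _ _ h1 h2 =>
    rw [map_mul, Polynomial.coeff_mul]; exact sum_nonneg fun p _ => mul_nonneg (h1 _) (h2 _)

lemma pos_cc (j : ℕ) : Pos (cc j) := Pos.sum _ _ fun _ _ => (Pos.v _).mul (Pos.v _)

lemma pos_D2 : ∀ i, Pos (D2 (y i))
  | 0 => D2_0 ▸ Pos.v 1
  | 1 => D2_1 ▸ Pos.v 2
  | j + 2 => D2_2 j ▸ (Pos.v _).add (Pos.smul (by positivity) (pos_cc j))

noncomputable def dg (f : ℕ → ℚ) : Derivation ℚ R2 R2 :=
  MvPolynomial.mkDerivation ℚ fun m => f m • y m

lemma dg_y (f : ℕ → ℚ) (m : ℕ) : dg f (y m) = f m • y m := MvPolynomial.mkDerivation_X _ _ _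

def sg : ℕ → ℚ
  | j + 3 => (j + 5) * j / 2
  | _ => 0

noncomputable def Sd : Derivation ℚ R2 R2 :=
  MvPolynomial.mkDerivation ℚ fun m => sg m • (y 1 * y (m - 2))

lemma Sd_y (m : ℕ) : Sd (y m) = sg m • (y 1 * y (m - 2)) := MvPolynomial.mkDerivation_X _ _ _

lemma dg_cc (u v : ℚ) (j : ℕ) : dg (fun m => u * m + v) (cc j) = (u * (j + 2) + 2 * v) • cc j := by
  rw [cc, map_sum, smul_sum]
  refine sum_congr rfl fun p hp => ?_
  rw [← mem_antidiagonal.1 hp, Derivation.leibniz, dg_y, dg_y]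
  simp only [smul_eq_mul, mul_smul_comm]
  rw [mul_comm (y (p.2 + 1)), ← add_smul]
  congr 1; push_cast; ring

lemma cc_succ (i : ℕ) : cc (i + 2) =
    (2 : ℚ) • (y 1 * y (i + 3)) + ∑ p ∈ antidiagonal i, y (p.1 + 2) * y (p.2 + 2) := by
  rw [cc, Finset.Nat.sum_antidiagonal_succ, Finset.Nat.sum_antidiagonal_succ', two_smul]
  ring

lemma Sd_cc (i : ℕ) : Sd (cc (i + 2)) =
    ∑ p ∈ antidiagonal i, (sg (p.1 + 3) + sg (p.2 + 3)) • (y 1 * (y (p.1 + 1) * y (p.2 + 1))) := by
  rw [cc, map_sum]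
  simp only [Derivation.leibniz, Sd_y, sum_add_distrib, add_smul]
  rw [Finset.Nat.sum_antidiagonal_succ', Finset.Nat.sum_antidiagonal_succ',
    Finset.Nat.sum_antidiagonal_succ, Finset.Nat.sum_antidiagonal_succ]
  simp only [show sg (0 + 1) = 0 from rfl, show sg (0 + 1 + 1) = 0 from rfl, zero_smul, smul_zero,
    zero_add]
  rw [add_comm]
  congr 1 <;> refine sum_congr rfl fun p _ => ?_ <;>
    simp only [smul_eq_mul, mul_smul_comm, add_assoc, Nat.reduceAdd, Nat.add_succ_sub_one,
      show ∀ k, k + 3 - 2 = k + 1 from fun k => rfl] <;> congr 1 <;> ring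

lemma pos_Delta : ∀ i, Pos (⁅dg (fun m => 0 * m + 1) - Sd, D2⁆ (y i))
  | 0 => by simpa [Derivation.commutator_apply, D2_0, dg_y, Sd_y, sg] using Pos.zero
  | 1 => by simpa [Derivation.commutator_apply, D2_1, dg_y, Sd_y, sg] using Pos.zero
  | 2 => by
    have : ⁅dg (fun m => 0 * m + 1) - Sd, D2⁆ (y 2) = y 1 * y 1 := by
      have := D2_2 0
      simp only [zero_add, cc, Finset.Nat.antidiagonal_zero, sum_singleton] at this
      simp [Derivation.commutator_apply, this, dg_y, Sd_y, sg]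
    exact this ▸ (Pos.v _).mul (Pos.v _)
  | 3 => by
    have : ⁅dg (fun m => 0 * m + 1) - Sd, D2⁆ (y 3) = 0 := by
      have := D2_2 1
      simp only [cc, Finset.Nat.sum_antidiagonal_succ, Finset.Nat.antidiagonal_zero,
        sum_singleton, Nat.reduceAdd, mul_comm (y 2)] at this
      have h4 : sg 4 = 3 := by norm_num [sg]
      have h3 : sg 3 = 0 := by norm_num [sg]
      simp only [Derivation.commutator_apply, this, dg_y, Sd_y, Derivation.sub_apply, map_add,
        map_sub, Derivation.map_smul, Derivation.leibniz, h3, h4, show sg 1 = 0 from rfl,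
        show sg 2 = 0 from rfl, zero_smul, smul_zero, smul_eq_mul, mul_smul_comm, mul_comm (y 2),
        Nat.reduceSub, map_zero, sub_zero, smul_mul_assoc]
      module
    exact this ▸ Pos.zero
  | i + 4 => by
    have : ⁅dg (fun m => 0 * m + 1) - Sd, D2⁆ (y (i + 4)) =
        ((i + 4 : ℚ) / 2) • ∑ p ∈ antidiagonal i, y (p.1 + 2) * y (p.2 + 2) +
        sg (i + 4) • (y 2 * y (i + 2)) +
        ∑ p ∈ antidiagonal i, (sg (i + 4) * ((i + 2) / 2) -
          ((i + 4) / 2) * (sg (p.1 + 3) + sg (p.2 + 3))) • (y 1 * (y (p.1 + 1) * y (p.2 + 1))) := by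
      have e1 : sg (i + 5) = sg (i + 4) + (i + 4) := by
        simp only [sg]; push_cast; ring
      have e2 : ∑ p ∈ antidiagonal i, (sg (i + 4) * ((i + 2) / 2) -
          ((i + 4) / 2) * (sg (p.1 + 3) + sg (p.2 + 3))) • (y 1 * (y (p.1 + 1) * y (p.2 + 1))) =
          (sg (i + 4) * ((i + 2) / 2)) • (y 1 * cc i) - ((i + 4 : ℚ) / 2) • Sd (cc (i + 2)) := by
        rw [Sd_cc, cc, mul_sum, smul_sum, smul_sum, ← sum_sub_distrib]
        exact sum_congr rfl fun p _ => by rw [sub_smul, smul_smul]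
      rw [e2, Derivation.commutator_apply, D2_2 (i + 2)]
      simp only [Derivation.sub_apply, map_add, map_sub, Derivation.map_smul, dg_y, Sd_y, dg_cc,
        Derivation.leibniz, D2_1, show i + 4 - 2 = i + 2 from rfl, show i + 2 + 3 = i + 5 from rfl,
        show i + 5 - 2 = i + 3 from rfl, D2_2 i, e1, D2_2 (i + 2)]
      rw [cc_succ]
      generalize Sd _ = w
      simp only [smul_eq_mul, mul_add, mul_smul_comm, mul_comm (y (i + 2))]
      push_cast
      module
    rw [this]
    refine ((Pos.smul (by positivity) (Pos.sum _ _ fun _ _ => (Pos.v _).mul (Pos.v _))).add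
      (Pos.smul (by simp only [sg]; positivity) ((Pos.v _).mul (Pos.v _)))).add
      (Pos.sum _ _ fun p hp => Pos.smul ?_ ((Pos.v _).mul ((Pos.v _).mul (Pos.v _))))
    rw [← mem_antidiagonal.1 hp]
    simp only [sg]; push_cast
    have h1 : (0 : ℚ) ≤ p.1 := by positivity
    have h2 : (0 : ℚ) ≤ p.2 := by positivity
    nlinarith [mul_nonneg h1 h2, mul_nonneg (mul_nonneg h1 h2) (add_nonneg h1 h2)]

lemma pos_Q (n : ℕ) : Pos (D2^[n] (y 0)) := by
  induction n with
  | zero => exact Pos.v 0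
  | succ n ih => rw [Function.iterate_succ_apply']; exact ih.der _ pos_D2

lemma pos_X (n : ℕ) : Pos ((dg (fun m => 0 * m + 1) - Sd) (D2^[n] (y 0)) - D2^[n] (y 0)) := by
  induction n with
  | zero => simpa [dg_y, Sd_y, sg] using Pos.zero
  | succ n ih =>
    have := (ih.der _ pos_D2).add ((pos_Q n).der _ pos_Delta)
    rw [Function.iterate_succ_apply']
    convert this using 1
    rw [Derivation.commutator_apply, map_sub]; ring

lemma wt_Q (n : ℕ) : dg (fun m => 1 * m + 1) (D2^[n] (y 0)) = (n + 1 : ℚ) • D2^[n] (y 0) := by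
  have h : ⁅dg (fun m => 1 * m + 1), D2⁆ = D2 := by
    refine MvPolynomial.derivation_ext fun m => ?_
    change ⁅dg _, D2⁆ (y m) = D2 (y m)
    rw [Derivation.commutator_apply, dg_y, Derivation.map_smul]
    match m with
    | 0 => rw [D2_0, dg_y]; push_cast; module
    | 1 => rw [D2_1, dg_y]; push_cast; module
    | j + 2 => rw [D2_2, map_add, Derivation.map_smul, dg_y, dg_cc]; push_cast; module
  induction n with
  | zero => simp [dg_y]
  | succ n ih =>
    have := congrArg (fun D : Derivation ℚ R2 R2 => D (D2^[n] (y 0))) h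
    simp only [Derivation.commutator_apply, ih, Derivation.map_smul] at this
    rw [Function.iterate_succ_apply', sub_eq_iff_eq_add.1 this]; push_cast; module

lemma ev2_N (p : R2) :
    ev2 (dg (fun m => 0 * m + 1) p) = Polynomial.X * Polynomial.derivative (ev2 p) := by
  induction p using MvPolynomial.induction_on with
  | C q => rw [show dg _ (MvPolynomial.C q) = 0 from (dg _).map_algebraMap q]; simp [ev2]
  | add p q hp hq => simp only [map_add, hp, hq, mul_add]
  | mul_X p i hp =>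
    change ev2 (dg _ (p * y i)) = _ * Polynomial.derivative (ev2 (p * y i))
    rw [Derivation.leibniz, dg_y, map_add, smul_eq_mul, smul_eq_mul, map_mul, map_mul, hp]
    simp only [map_mul, ev2_y, zero_mul, zero_add, one_smul,
      Polynomial.derivative_mul, Polynomial.derivative_C, Polynomial.derivative_X]
    ring

noncomputable def ph (m : ℕ) : ℚ := sg m * catalan (m - 2) / catalan m

lemma cat_pos (m : ℕ) : (0 : ℚ) < catalan m := by
  have h := succ_mul_catalan_eq_centralBinom m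
  have := Nat.centralBinom_pos m
  rw [← h] at this
  exact_mod_cast Nat.pos_of_mul_pos_left this

lemma cat_succ (m : ℕ) : (catalan (m + 1) : ℚ) = 2 * (2 * m + 1) / (m + 2) * catalan m := by
  have h1 := succ_mul_catalan_eq_centralBinom m
  have h2 := succ_mul_catalan_eq_centralBinom (m + 1)
  have h3 := Nat.succ_mul_centralBinom_succ m
  rw [← h1, ← h2] at h3
  have h4 : ((m + 1 : ℕ) : ℚ) * (((m + 1 + 1 : ℕ) : ℚ) * catalan (m + 1)) =
      2 * (2 * m + 1) * (((m + 1 : ℕ) : ℚ) * catalan m) := by exact_mod_cast h3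
  push_cast at h4
  field_simp
  have : (m + 1 : ℚ) ≠ 0 := by positivity
  apply mul_left_cancel₀ this
  linear_combination h4

lemma ev2_S (p : R2) : ev2 (Sd p) = Polynomial.X * ev2 (dg ph p) := by
  induction p using MvPolynomial.induction_on with
  | C q =>
    rw [show dg _ (MvPolynomial.C q) = 0 from (dg _).map_algebraMap q,
      show Sd (MvPolynomial.C q) = 0 from Sd.map_algebraMap q]; simp
  | add p q hp hq => simp only [map_add, hp, hq, mul_add]
  | mul_X p i hp =>
    change ev2 (Sd (p * y i)) = _ * ev2 (dg _ (p * y i))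
    have : ev2 (Sd (y i)) = Polynomial.X * ev2 (dg ph (y i)) := by
      rw [Sd_y, dg_y, map_smul, map_smul, map_mul, ev2_y, ev2_y, ev2_y, ph]
      simp only [Polynomial.smul_eq_C_mul, ← mul_assoc, ← map_mul, mul_comm Polynomial.X]
      rw [div_mul_cancel₀ _ (cat_pos i).ne', catalan_one]
      simp only [map_mul, Nat.cast_one, map_one]; ring
    rw [Derivation.leibniz, Derivation.leibniz]
    simp only [smul_eq_mul, map_add, map_mul, hp, this]
    ring

lemma ph_ge : ∀ m : ℕ, 0 ≤ ph m - 7 / 16 * (1 * m + 1) + 9 / 5 * (0 * m + 1)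
  | 0 => by norm_num [ph, sg]
  | 1 => by norm_num [ph, sg]
  | 2 => by norm_num [ph, sg]
  | j + 3 => by
    have hp := cat_pos (j + 1)
    have e : ph (j + 3) = (j + 5) * j * (j + 3) * (j + 4) / (8 * (2 * j + 3) * (2 * j + 5)) := by
      rw [ph, cat_succ (j + 2), cat_succ (j + 1), show j + 3 - 2 = j + 1 from rfl]
      simp only [sg]; push_cast; field_simp; ring
    rw [e]
    push_cast
    have : 7 / 16 * (j + 4 : ℚ) - 9 / 5 ≤
        (j + 5) * j * (j + 3) * (j + 4) / (8 * (2 * j + 3) * (2 * j + 5)) := by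
      rw [le_div_iff₀ (by positivity)]
      rcases Nat.lt_or_ge j 4 with h | h
      · interval_cases j <;> norm_num
      · obtain ⟨t, rfl⟩ := Nat.exists_eq_add_of_le h
        push_cast
        have h1 : (0 : ℚ) ≤ t := by positivity
        nlinarith [pow_nonneg h1 2, pow_nonneg h1 3, pow_nonneg h1 4]
    linarith

lemma coeff_A (m k : ℕ) : (A (Polynomial.X : Polynomial ℚ) m).coeff k = a (m + 1) k := by
  rw [A_sum _ m (m + 2 + k + 1) (by omega), Polynomial.finset_sum_coeff,
    sum_eq_single k]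
  · simp
  · intro j _ hj; simp [Polynomial.coeff_X_pow, hj.symm]
  · intro h; exact absurd (mem_range.2 (by omega)) h

theorem low (m k : ℕ) (hk : 1 ≤ k) (h : 32 * k ≤ 5 * (m + 1)) : a (m + 1) k ≤ a (m + 1) (k + 1) := by
  set τ : ℕ → ℚ := fun m => ph m - 7 / 16 * (1 * m + 1) + 9 / 5 * (0 * m + 1)
  have hT : dg ph = dg τ + (7 / 16 : ℚ) • dg (fun m => 1 * m + 1) -
      (9 / 5 : ℚ) • dg (fun m => 0 * m + 1) := by
    refine MvPolynomial.derivation_ext fun i => ?_
    change dg ph (y i) = (dg τ + _ - _ : Derivation ℚ R2 R2) (y i)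
    simp only [Derivation.sub_apply, Derivation.add_apply, Derivation.smul_apply, dg_y, τ]
    module
  have h1 := (pos_X m).coeff (k + 1)
  have h2 := ((pos_Q m).der (dg τ) fun i => dg_y τ i ▸ Pos.smul (ph_ge i) (Pos.v i)).coeff k
  rw [map_sub, Derivation.sub_apply, map_sub, ev2_S, hT] at h1
  obtain ⟨k, rfl⟩ := Nat.exists_eq_add_of_le' hk
  simp only [Derivation.sub_apply, Derivation.add_apply, Derivation.smul_apply, wt_Q, map_sub,
    map_add, map_smul, ev2_N, ev2_D2, Polynomial.coeff_sub, Polynomial.coeff_X_mul,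
    Polynomial.coeff_add, Polynomial.coeff_smul, Polynomial.coeff_derivative, coeff_A,
    smul_eq_mul] at h1
  have h' : (32 : ℚ) * (k + 1) ≤ 5 * (m + 1) := by exact_mod_cast h
  have h3 : (0 : ℚ) ≤ a (m + 1) (k + 1) := by positivity
  have h4 : (0 : ℚ) < k + 1 := by positivity
  push_cast at h1
  have : (a (m + 1) (k + 1) : ℚ) ≤ a (m + 1) (k + 1 + 1) := by
    refine le_of_mul_le_mul_left ?_ h4
    nlinarith [mul_nonneg h3 (sub_nonneg.2 h')]
  exact_mod_cast this

end Pool.Agent.Lib.MP_3b1384_co
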