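import Pool.Agent.Lib.MP_3b1384_co.D1
import Pool.Agent.Lib.MP_3b1384_co.D2
import Pool.Agent.Lib.MP_3b1384_co.D3
import Pool.Agent.Lib.MP_3b1384_co.D4
import Pool.Agent.Lib.MP_3b1384_co.D5
import Pool.Agent.Lib.MP_3b1384_co.D6
import Pool.Agent.Lib.MP_3b1384_co.D7
import Pool.Agent.Lib.MP_3b1384_co.Low

namespace Pool.Agent.Lib.MP_3b1384_co

lemma okC {P j D : ℕ} (h : Nat.blt (2 * D + 1) (2 ^ P) = true) : (mkC P j D).ok :=
  ⟨P, j, D, rfl, Nat.blt_eq ▸ h⟩

theorem step_all (m k : ℕ) (hk : 5 * (m + 2) < 32 * k) : Step (m + 2) k := by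
  have hm : (0 : ℚ) ≤ m + 2 := by positivity
  have up : q6.n3 ≤ m + 2 → q6.μ * (m + 2) ≤ k + 1 → Step (m + 2) k := fun h1 h2 _ =>
    upper (okC rfl) q6 q6_ok m (k + 1) h1 (by push_cast; exact h2)
  have mul : ∀ {x y : ℚ}, x ≤ y → ¬ x * (m + 2) ≤ k + 1 → k + 1 ≤ y * (m + 2) := fun h1 h2 =>
    (not_le.1 h2).le.trans (mul_le_mul_of_nonneg_right h1 hm)
  rcases Nat.lt_or_ge (m + 2) 400 with hn | hn
  · rcases Nat.lt_or_ge k (hi (m + 2)) with h | h
    · exact small (okC rfl) (okC rfl) q7_ok m k hn hk h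
    unfold hi at h
    cases h1 : Nat.ble 38 (m + 2) <;> simp only [h1, cond_true, cond_false] at h
    · intro _
      rw [a_zero m (k + 2) (by omega)]; exact Nat.zero_le _
    · refine up (Nat.le_of_ble_eq_true h1) ((mul_le_mul_of_nonneg_right
        (show q6.μ ≤ 5 / 12 by decide +kernel) hm).trans ?_)
      have : (5 * (m + 2) : ℚ) ≤ 12 * (k + 1) := by exact_mod_cast (by omega)
      linarith
  by_cases h6 : q6.μ * (m + 2) ≤ k + 1
  · exact up (le_trans (by decide) hn) h6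
  by_cases h5 : q5.mlo * (m + 2) ≤ k + 1
  · exact strip (okC rfl) (okC rfl) q5 q5_ok m k hn h5 (mul (by decide +kernel) h6)
  by_cases h4 : q4.mlo * (m + 2) ≤ k + 1
  · exact strip (okC rfl) (okC rfl) q4 q4_ok m k hn h4 (mul (by decide +kernel) h5)
  by_cases h3 : q3.mlo * (m + 2) ≤ k + 1
  · exact strip (okC rfl) (okC rfl) q3 q3_ok m k hn h3 (mul (by decide +kernel) h4)
  by_cases h2 : q2.mlo * (m + 2) ≤ k + 1
  · exact strip (okC rfl) (okC rfl) q2 q2_ok m k hn h2 (mul (by decide +kernel) h3)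
  refine strip (okC rfl) (okC rfl) q1 q1_ok m k hn ((mul_le_mul_of_nonneg_right
    (show q1.mlo ≤ 5 / 32 by decide +kernel) hm).trans ?_) (mul (by decide +kernel) h2)
  have : (5 * (m + 2) : ℚ) < 32 * k := by exact_mod_cast hk
  linarith

theorem after_descent (m k : ℕ) (h1 : 1 ≤ k) (h : a (m + 2) (k + 1) < a (m + 2) k) (j : ℕ)
    (hj : k ≤ j) : a (m + 2) (j + 1) ≤ a (m + 2) j := by
  have hk : 5 * (m + 2) < 32 * k := not_le.1 fun h' => absurd (low (m + 1) k h1 h') (not_le.2 h)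
  induction j, hj using Nat.le_induction with
  | base => exact h.le
  | succ j hj ih => exact step_all m j (by omega) ih

end Pool.Agent.Lib.MP_3b1384_co
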