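import Pool.Agent.Lib.MP_3b1384_co.TS

namespace Pool.Agent.Lib.MP_3b1384_co
open PowerSeries Filter Topology Metric
open Finset hiding mk

lemma al_le {t : ℂ} (ht : ‖t‖ ≤ 1) : ∀ i, ‖coeff i (al (1 - t) 1)‖ ≤ 2
  | 0 => by simp [al]
  | 1 => by simp [al, coeff_succ_X_mul, Bc_eq, A_zero]
  | m + 2 => by
    have h := al_coeff 1 t m
    have h1 := A_one (K := ℝ) (m + 1)
    simp only [one_pow, one_mul] at h
    rw [A_sum _ _ _ le_rfl] at h h1
    rw [h, norm_div, Complex.norm_natCast, div_le_iff₀ (by positivity), ← h1]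
    refine (norm_sum_le_of_le _ fun k _ => ?_).trans (le_mul_of_one_le_left (by positivity) one_le_two)
    rw [norm_mul, norm_pow, Complex.norm_natCast]
    gcongr

lemma inv_bound {t : ℂ} (ht : ‖t‖ ≤ 1) : ∃ I, Fs (1 - t) 1 * I = 1 ∧ ∀ m, ‖coeff m I‖ ≤ m + 1 := by
  have h0 : constantCoeff (Fs (1 - t) 1) = 1 := by
    rw [← coeff_zero_eq_constantCoeff_apply]; simp [Fs, H]
  have h1 := PowerSeries.mul_inv_cancel (Fs (1 - t) 1) (by rw [h0]; exact one_ne_zero)
  generalize (Fs (1 - t) 1)⁻¹ = I at h1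
  refine ⟨I, h1, fun m => ?_⟩
  have h2 : eu I = I * al (1 - t) 1 := by
    have := eu_mul (Fs (1 - t) 1) I
    rw [h1, eu_Fs, show eu 1 = 0 by ext n; simp [eu, coeff_one]] at this
    linear_combination (I * al (1 - t) 1 - eu I) * h1 - I * this
  induction m using Nat.strong_induction_on with
  | _ m ih =>
    cases m with
    | zero => simpa [h0] using (congrArg (‖constantCoeff ·‖) h1).le
    | succ m =>
      have := congrArg (‖coeff (m + 1) ·‖) h2
      simp only [eu, coeff_mk, coeff_mul, norm_mul, Complex.norm_natCast] at this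
      rw [Finset.Nat.sum_antidiagonal_eq_sum_range_succ_mk, sum_range_succ] at this
      refine le_of_mul_le_mul_left (this.trans_le ?_) (by positivity)
      rw [Nat.sub_self, show coeff 0 (al (1 - t) 1) = 0 by simp [al], mul_zero, add_zero]
      refine (norm_sum_le_of_le (n := fun j : ℕ => ((j : ℝ) + 1) * 2) _ fun j hj => (norm_mul _ _).trans_le
        (mul_le_mul (ih j (mem_range.1 hj)) (al_le ht _) (norm_nonneg _) (by positivity))).trans
        (le_of_eq ?_)
      generalize m + 1 = n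
      induction n with
      | zero => simp
      | succ n ih => rw [sum_range_succ, ih]; push_cast; ring

lemma lf_getD : ∀ (n : ℕ) (r : ℕ → ℤ) (k : ℕ), k < n → (lf r n).getD k 0 = r k
  | _ + 1, _, 0, _ => rfl
  | n + 1, _, k + 1, h => lf_getD n _ k (by omega)

lemma EZ.cast {C C' : Cf} (h1 : C.W = C'.W) (h2 : C.S = C'.S) :
    ∀ {l : List T} {f : ℕ → ℂ → ℂ}, EZ C l f → EZ C' l f
  | [], _, h => h
  | _ :: _, _, h => ⟨by simpa only [E1, ← h1, ← h2] using h.1, EZ.cast h1 h2 h.2⟩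

noncomputable def dck (W ε f : ℕ) : ℕ → ℕ → ℕ → Bool :=
  Nat.rec (motive := fun _ => ℕ → ℕ → ℕ → Bool) (fun _ _ _ => true)
    (fun _ ih d0 d1 X => (fun d2 => (Nat.blt (Nat.add d0 ε) d1 || Nat.ble (Nat.add d2 ε) d1) &&
      ih d1 d2 (Nat.div X W)) (Nat.mod X W)) f

lemma dck_spec (W ε f : ℕ) : ∀ X, dck W ε f (X % W) (X / W % W) (X / W / W) = true → ∀ j < f,
    X / W ^ j % W + ε < X / W ^ (j + 1) % W ∨ X / W ^ (j + 2) % W + ε ≤ X / W ^ (j + 1) % W := by
  induction f with
  | zero => intro _ _ j hj; omega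
  | succ f ih =>
    intro X h j hj
    simp only [dck, Bool.and_eq_true, Bool.or_eq_true, Nat.blt_eq, Nat.ble_eq] at h
    cases j with
    | zero => simpa [pow_two, ← Nat.div_div_eq_div_mul] using! h.1
    | succ j =>
      have := ih (X / W) h.2 j (by omega)
      simpa only [Nat.div_div_eq_div_mul, ← pow_succ', add_right_comm _ 2] using this

def hi (n : ℕ) : ℕ := cond (Nat.ble 38 n) ((5 * n - 1) / 12) (n / 2 - 1)

noncomputable def chk1 (C : Cf) (ε : ℕ) (q : T) (n : ℕ) : Bool :=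
  Int.rec (fun X => Nat.blt q.B C.H && Nat.blt X C.WN &&
    (fun Z => dck C.W ε (hi n - (5 * n / 32 + 1)) (Nat.mod Z C.W) (Nat.mod (Nat.div Z C.W) C.W)
      (Nat.div (Nat.div Z C.W) C.W)) (Nat.div X (Nat.pow C.W (5 * n / 32 + 1))))
    (fun _ => false) (Int.add q.N (Int.ofNat C.O))

noncomputable def allI (C : Cf) (ε : ℕ) (l : List O3) : ℕ → Bool :=
  List.rec (fun _ => true) (fun r _ ih n => chk1 C ε r.q n && ih (Nat.succ n)) l

lemma allI_spec {C : Cf} {ε : ℕ} : ∀ (l : List O3) (n : ℕ), allI C ε l n = true → ∀ j < l.length,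
    chk1 C ε (l.getD j dO).q (n + j) = true
  | r :: l, n, h, j, hj => by
    simp only [allI, Bool.and_eq_true] at h
    cases j with
    | zero => exact h.1
    | succ j =>
      rw [← add_assoc, add_right_comm]
      exact allI_spec l (n + 1) h.2 j (by simpa using hj)

noncomputable def chkF (C1 C : Cf) (M N ε : ℕ) : Bool :=
  Nat.ble 12 M && Nat.ble N C.n && T.frc (mrs C1 (one C1) (lin C1 1 (-1))) fun Y =>
    (fun fs => (fun res => allI C (2 * ε) res 0 && decide (((mx (res.map O3.g) : ℚ) +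
      2 * (M * (M + 1) * (17 / 6 * 1) ^ M / M.factorial) * (mx (res.map fun r => r.q.nb) + C.S)) *
      (N * N) ≤ ε)) (Onl C fs [] ((wts fs 0).map T.neg) N N)) (Frow C1 M Y (one C1))

theorem small {P j D1 D M N ε : ℕ} (h1 : (mkC P j D1).ok) (hC : (mkC P j D).ok)
    (h : chkF (mkC P j D1) (mkC P j D) M N ε = true) (m k : ℕ) (hm : m + 2 < N)
    (hk : 5 * (m + 2) < 32 * k) (hk' : k < hi (m + 2)) : Step (m + 2) k := by
  simp only [chkF, T.frc_eq, Bool.and_eq_true, Nat.ble_eq, decide_eq_true_eq] at h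
  obtain ⟨⟨c1, c2⟩, c3, c4⟩ := h
  rw [← Rat.cast_le (K := ℝ)] at c4
  push_cast at c4
  obtain ⟨hF, -⟩ := Frow_spec h1 (y := fun t => 1 - t) ((E1.one.mrs h1 (E1.lin 1 (-1))).congr
    fun t _ => by push_cast; ring) E1.one M
  replace hF := EZ.cast (C' := mkC P j D) (by rfl) (by rfl) hF
  obtain ⟨hlen, Q, hQ, hres⟩ := Onl_spec hC N N hF (f1 := []) (F1 := fun _ _ => 0) (fun _ _ => rfl)
    (hF.wts 0).neg
  generalize Onl _ _ _ _ N N = res at *
  have c5 := allI_spec _ _ c3 (m + 2) (hlen ▸ hm)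
  have hS0 := hC.S_pos
  have eW : (mkC P j D).W = 2 * (mkC P j D).H := by simp [mkC, pow_succ']
  have eO : (mkC P j D).O = V (mkC P j D).W (fun _ => (mkC P j D).H) (mkC P j D).n := rep_eq _ _ _
  have eN : (mkC P j D).WN = (mkC P j D).W ^ (mkC P j D).n := rfl
  generalize mkC P j D = C at *
  have hS : (0 : ℝ) < C.S := by exact_mod_cast hS0
  have hSc : (C.S : ℂ) ≠ 0 := by exact_mod_cast hS0.ne'
  have key : ∀ t : ℂ, ‖t‖ ≤ 1 → ‖ev (Q (m + 2)) t + -(C.S / (m + 1).factorial) * A t (m + 1)‖ ≤ ε := by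
    intro t ht
    obtain ⟨I, i1, i2⟩ := inv_bound ht
    set F := Fs (1 - t) 1
    have t1 := hi_nb (Y := 1 - t) (e := 1) (β := 3 / 2) (Λ := 17 / 6) (R := 1) (M := M) (by norm_num)
      (by norm_num) (by linarith [norm_sub_le_of_le norm_one.le ht]) zero_le_one
      (by linarith [show (12 : ℝ) ≤ M by exact_mod_cast c1]) (by omega)
    generalize 2 * (M * (M + 1) * (17 / 6 * 1 : ℝ) ^ M / M.factorial) = τ at *
    have t2 : NB 1 (hiP M F) τ := by simpa [hiP, show 0 < M by omega] using t1.of_eu zero_le_one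
    set Z : ℂ⟦X⟧ := mk fun i => ev (Q i) t
    have t3 : SB 1 Z (mx (res.map fun r => r.q.nb)) := fun i => by
      rw [one_pow, mul_one, coeff_mk]
      rcases Nat.lt_or_ge i N with hi | hi
      · refine (norm_ev_le ht _).trans (Nat.cast_le.2 (le_trans ?_ (mx_spec _ i)))
        rw [show 0 = (fun r : O3 => r.q.nb) dO from rfl, getD_map]
        exact (hres i hi _ rfl).2.1.trans (Nat.le_add_right _ _)
      · simp [hQ i (Or.inl hi), ev]
    set lo : ℂ⟦X⟧ := mk fun m => if m < M then H (1 - t) 1 m 0 / m.factorial else 0 with hlo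
    have hsp : F = lo + hiP M F := by
      ext m; simp only [hlo, hiP, map_add, coeff_mk]; split_ifs <;> simp [F, Fs]
    have hsp1 : eu F = eu lo + eu (hiP M F) := by
      ext m; nth_rewrite 1 [hsp]; simp [eu, mul_add]
    have t4 : ∀ i < N, ‖coeff i (F * Z + PowerSeries.C (C.S : ℂ) * eu F)‖ ≤ mx (res.map O3.g) +
        τ * (mx (res.map fun r => r.q.nb) + C.S) := fun i hi => by
      rw [show F * Z + PowerSeries.C (C.S : ℂ) * eu F = (lo * Z + PowerSeries.C (C.S : ℂ) * eu lo) +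
        (hiP M F * Z + PowerSeries.C (C.S : ℂ) * eu (hiP M F)) by
          rw [hsp1]; nth_rewrite 1 [hsp]; ring, map_add, map_add _ (hiP M F * Z), mul_add τ]
      refine norm_add_le_of_le (le_trans ?_ (Nat.cast_le.2 (mx_spec _ i))) (norm_add_le_of_le ?_ ?_)
      · rw [show 0 = O3.g dO from rfl, getD_map, map_add, coeff_C_mul]
        simpa [hlo, eu, coeff_mul, Z] using ((hres i hi _ rfl).2.2 t ht).1
      · simpa using t2.mul_sb zero_le_one t3 i
      · rw [coeff_C_mul, norm_mul, Complex.norm_natCast, mul_comm]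
        simpa using mul_le_mul_of_nonneg_right (t1.sb zero_le_one i) hS.le
    have t5 := congrArg (coeff (m + 2)) (show (F * Z + PowerSeries.C (C.S : ℂ) * eu F) * I =
      Z - PowerSeries.C (C.S : ℂ) * al (1 - t) 1 by
        rw [eu_Fs]; linear_combination (Z - PowerSeries.C (C.S : ℂ) * al (1 - t) 1) * i1)
    have t6 := al_coeff 1 t m
    simp only [one_pow, one_mul] at t6
    rw [map_sub, coeff_C_mul, t6, coeff_mk, coeff_mul] at t5
    rw [show ev (Q (m + 2)) t + -(C.S / (m + 1).factorial) * A t (m + 1) = _ from Eq.trans (by ring) t5.symm]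
    generalize (mx (res.map O3.g) : ℝ) + τ * _ = γ at *
    have γ0 : 0 ≤ γ := (norm_nonneg _).trans (t4 0 (by omega))
    refine (norm_sum_le_of_le (n := fun _ => γ * N) _ fun p hp => (norm_mul _ _).trans_le (mul_le_mul
      (t4 _ (by have := mem_antidiagonal.1 hp; omega)) ((i2 _).trans ?_) (norm_nonneg _) γ0)).trans ?_
    · exact_mod_cast (by have := mem_antidiagonal.1 hp; omega)
    · rw [sum_const, Nat.card_antidiagonal, nsmul_eq_mul]
      refine le_trans ?_ c4
      have : ((m + 2 + 1 : ℕ) : ℝ) ≤ N := by exact_mod_cast hm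
      calc _ ≤ N * (γ * N) := by gcongr
        _ = _ := by ring
  obtain ⟨q1, q2, -⟩ := hres _ hm _ rfl
  rw [zero_add, chk1] at c5
  generalize (res.getD (m + 2) dO).q = q at *
  generalize hX : Int.add q.N (Int.ofNat C.O) = X at c5
  obtain X | X := X
  swap
  · cases c5
  simp only [Bool.and_eq_true, Nat.blt_eq] at c5
  obtain ⟨⟨d1, d2⟩, d3⟩ := c5
  have hW : 0 < C.W := by omega
  have d4 := dck_spec _ _ _ _ d3 (k - (5 * (m + 2) / 32 + 1)) (by omega)
  change X / C.W ^ _ / _ % _ + _ < X / C.W ^ _ / _ % _ ∨ X / C.W ^ _ / _ % _ + _ ≤ X / C.W ^ _ / _ % _ at d4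
  simp only [Nat.div_div_eq_div_mul, ← pow_add, ← add_assoc] at d4
  rw [show 5 * (m + 2) / 32 + 1 + (k - (5 * (m + 2) / 32 + 1)) = k by omega] at d4
  set d := fun i => X / C.W ^ i % C.W with hd
  have hu := fun t : ℂ => ev_unique t C.H C.n (Q (m + 2)) (fun i => (d i : ℤ) - C.H) (q2.trans_lt d1)
    (fun i => by have : d i < C.W := Nat.mod_lt _ hW; omega) (by
      rw [show (2 * C.H : ℤ) = C.W by rw [eW]; simp, ev_V, ← V_digits hW _ X (eN ▸ d2), q1, ← eO]
      exact eq_sub_of_add_eq hX)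
  have co : ∀ i < m + 3, |(d i - C.H : ℝ) - C.S / (m + 1).factorial * a (m + 2) i| ≤ ε := fun i hi => by
    have e1 := diff_ev (lf (fun i => (d i : ℤ) - C.H) C.n)
    have e2 := (diff_ev (lf (fun i => (a (m + 2) i : ℤ)) (m + 3))).const_mul
      (-(C.S / (m + 1).factorial) : ℂ)
    have := Complex.norm_iteratedDeriv_le_of_forall_mem_sphere_norm_le i one_pos
      (e1.fun_add e2).diffContOnCl (c := 0) (C := ε) fun z hz => by
        have := key z (by simpa using hz.le)
        rw [hu, A_sum _ _ _ le_rfl] at this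
        simpa only [ev_lf, Int.cast_natCast] using this
    have e3 := congrArg (coeff i) (TS_add (e1.analyticAt 0) (e2.analyticAt 0))
    rw [TS_cmul, TS_ev, TS_ev, map_add, coeff_C_mul, coeff_mk, coeff_mk, lf_getD _ _ _ (by omega),
      lf_getD _ _ _ hi, TS, coeff_mk] at e3
    rw [one_pow, div_one, ← div_le_iff₀' (by positivity), ← Complex.norm_natCast, ← norm_div, e3] at this
    rw [← Real.norm_eq_abs, ← Complex.norm_real]
    refine le_of_eq_of_le (congrArg _ ?_) this
    push_cast; ring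
  have hk2 : k + 2 < m + 3 := by
    unfold hi at hk'
    cases h : Nat.ble 38 (m + 2) <;> simp only [h, cond_true, cond_false] at hk' <;> omega
  have f0 := abs_le.1 (co k (by omega))
  have f1 := abs_le.1 (co (k + 1) (by omega))
  have f2 := abs_le.1 (co (k + 2) hk2)
  have hf : (0 : ℝ) < C.S / (m + 1).factorial := by positivity
  intro hs
  rcases d4 with d4 | d4
  · have d5 : (d k + 2 * ε : ℝ) < d (k + 1) := by exact_mod_cast d4
    have := mul_le_mul_of_nonneg_left ((Nat.cast_le (α := ℝ)).2 hs) hf.le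
    linarith only [this, d5, f0.1, f1.2]
  · have d5 : (d (k + 2) + 2 * ε : ℝ) ≤ d (k + 1) := by exact_mod_cast d4
    exact_mod_cast le_of_mul_le_mul_left (by linarith only [d5, f2.1, f1.2] :
      C.S / (m + 1).factorial * (a (m + 2) (k + 2) : ℝ) ≤ C.S / (m + 1).factorial * a (m + 2) (k + 1)) hf

end Pool.Agent.Lib.MP_3b1384_co
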