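import Pool.Agent.Lib.MP_3b1384_co.Der

namespace Pool.Agent.Lib.MP_3b1384_co
open PowerSeries Filter Topology Metric
open Finset hiding mk

structure Sp where
  l : List ℤ
  (s0 r r2 θ0 γ0 γ1 κ0 c1 c2 K κ κ' mlo mhi d : ℚ)
  (hu hv ρu ρv ν : ℕ)
  (p1 p2 : Pm)

noncomputable def mkY (C : Cf) (σ x : T) : T := mr C (mr C σ σ) ((one C).add x.neg)

lemma E1.mkY {C : Cf} (hC : C.ok) {a b : T} {u v : ℂ → ℂ} (ha : E1 C a u) (hb : E1 C b v) :
    E1 C (mkY C a b) fun t => u t ^ 2 * (1 - v t) :=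
  ((ha.mr hC ha).mr hC (E1.one.add hb.neg)).congr fun t _ => by ring

noncomputable def rexp (C : Cf) (a : T) : T := mr C (one C) (texp C 50 a)

lemma E1.rexp {C : Cf} (hC : C.ok) {a : T} {u : ℂ → ℂ} (ha : E1 C a u) :
    E1 C (rexp C a) fun t => Complex.exp (u t) :=
  (E1.one.mr hC (ha.texp hC 50)).congr fun t _ => one_mul _

noncomputable def chkI (C : Cf) (q : Sp) : Bool :=
  T.frc (rexp C (ofl C q.l).neg) fun σ => T.frc (mkY C σ (rexp C (lin C q.s0 q.r))) fun Y =>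
    chkC C q.p1 Y σ (one C) [one C, (one C).neg] false

noncomputable def chkII (C : Cf) (S : ℕ) (q : Sp) : Bool :=
  T.frc (rexp C (lin C (-q.κ0) (-(q.l.tail.headD 0 / S / q.r * q.r2)))) fun σ =>
    T.frc (mkY C σ (rexp C (lin C q.s0 q.r2)).neg) fun Y => chkC C q.p2 Y σ T.zero [one C] true

def Sp.η (q : Sp) : ℚ := 3 * (q.p1.ε * q.p1.K2)
def Sp.ed (q : Sp) : ℚ := 24 * q.η / q.d ^ 4

noncomputable def Sp.num (q : Sp) (S : ℕ) : Bool :=
  (fun (h τ M4 dv n0 : ℚ) => decide (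
    (1 ≤ q.hv ∧ 1 ≤ q.ρv ∧ q.θ0 ≤ 3 ∧ q.d ≤ 1 ∧ h ^ 2 + τ ^ 2 ≤ (q.ρu / q.ρv) ^ 2 ∧
    (q.r * h) ^ 2 + (3927 / 1250 - q.θ0) ^ 2 ≤ q.r2 ^ 2 ∧
    q.p1.η ≤ q.γ1 / 4 ∧ 2 * (q.p1.ε * q.p1.K2) ≤ 1 / 2 ∧ 1 ≤ q.p1.ru / q.p1.rv * (1 - q.γ1 - q.η) ∧
    q.c1 * q.r ^ 2 ≤ ((dl^[2] q.l).headD 0 / S - dv) / 2 - M4 * τ ^ 2 / 24 ∧
    ((dl^[2] q.l).headD 0 / S + dv) / 2 + M4 * τ ^ 2 / 24 ≤ q.c2 * q.r ^ 2 ∧
    (nr q.hu q.hv (dl^[3] q.l) / S + q.ed) / 6 + M4 * τ / 24 ≤ q.K * q.r ^ 3) ∧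
    (0 ≤ 3 / (4 * q.κ) - q.κ / (48 * n0) ∧
    6 * (1 + q.c2 * n0 * q.θ0 ^ 2) / (q.c2 * n0 * q.θ0 ^ 2) ^ 3 ≤ 1 ∧
    ev (dl^[1] q.l) (-h) / S + q.ed ≤ q.r * q.mlo ∧ q.r * q.mhi ≤ ev (dl^[1] q.l) h / S - q.ed ∧
    q.p2.η ≤ 1 / 2 ∧ q.κ0 + q.γ0 + q.η ≤ q.l.headD 0 / S ∧
    h * nr q.hu q.hv q.l.tail.tail.tail ≤ q.l.tail.tail.headD 0 ∧ 2 ≤ q.γ0 * n0 ∧ 2 ≤ q.γ1 * n0) ∧
    (0 < q.r ∧ 0 < q.r2 ∧ 0 < q.θ0 ∧ 0 < q.d ∧ q.ρu / q.ρv + q.d < 1 ∧
    q.p1.ε * (2 * q.p1.K2 / q.γ1) < 1 / 2 ∧ 0 < q.c1 ∧ 0 < q.c2 ∧ 0 < q.κ ∧ 0 < q.κ' ∧ 0 < q.ν ∧ 0 ≤ q.η ∧ 8 * q.η * (q.p1.ru / q.p1.rv) ≤ q.γ1) ∧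
    0 < expL (q.γ0 * n0) 60 ∧ 0 < expL (q.γ1 * n0) 60 ∧
    63 / 10 * (2 * (q.p1.K1 / q.γ1 * q.p1.K2) * (n0 ^ 2 / q.ν / expL (q.γ1 * n0) 60) +
      2 * q.p2.K1 * (n0 ^ 2 / q.ν / expL (q.γ0 * n0) 60)) < mainF q.c1 q.c2 q.K q.κ q.κ' q.θ0 n0))
  (q.hu / q.hv) (q.θ0 / q.r) (nr q.ρu q.ρv (dl^[4] q.l) / S + q.ed)
  (q.hu / q.hv * nr q.hu q.hv (dl^[2] q.l).tail / S + q.ed) (q.ν ^ 2)

noncomputable def chkS (C1 C2 : Cf) (q : Sp) : Bool := chkI C1 q && chkII C2 C1.S q && q.num C1.S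

lemma cast_expL (x : ℚ) (m : ℕ) : ((expL x m : ℚ) : ℝ) = expL (x : ℝ) m := by
  induction m with
  | zero => simp [expL]
  | succ m ih => simp [expL, ih]

lemma im_ev (l : List ℤ) (t : ℝ) : (ev l (t : ℂ)).im = 0 :=
  Complex.conj_eq_iff_im.1 (by rw [conj_ev, Complex.conj_ofReal])

lemma re_ev (l : List ℤ) (q : ℚ) : (ev l (((q : ℝ) : ℂ))).re = ((ev l q : ℚ) : ℝ) := by
  rw [Complex.ofReal_ratCast, ← ev_cast, Complex.ratCast_re]

lemma eT : (mk fun m => if m = 0 then 1 else if m = 1 then -1 else 0 : ℂ⟦X⟧) = 1 - X := by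
  ext m; simp [coeff_one, coeff_X]; split_ifs <;> simp_all

lemma re_ge {a b : ℂ} {E E' : ℝ} (h : ‖b - a‖ ≤ E) (h' : 0 ≤ E') : a.re - (E + E') ≤ b.re := by
  have := (abs_le.1 ((Complex.abs_re_le_norm _).trans h)).1
  rw [Complex.sub_re] at this
  linarith

theorem strip {C1 C2 : Cf} (h1 : C1.ok) (h2 : C2.ok) (q : Sp) (h : chkS C1 C2 q = true) (m k : ℕ)
    (hn : q.ν ^ 2 ≤ m + 2) (hlo : q.mlo * (m + 2) ≤ k + 1) (hhi : k + 1 ≤ q.mhi * (m + 2)) :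
    Step (m + 2) k := by
  simp only [chkS, chkI, chkII, T.frc_eq, Sp.num, Bool.and_eq_true, decide_eq_true_eq] at h
  obtain ⟨⟨kI, kII⟩, hA⟩ := h
  simp only [← Rat.cast_le (K := ℝ), ← Rat.cast_lt (K := ℝ), mainF] at hA hlo hhi
  push_cast [cast_expL, ← re_ev] at hA hlo hhi
  obtain ⟨⟨a1, a2, a3, a4, a5, a6, a7, a8, a9, a10, a11, a12⟩, ⟨a13, a14, a15, a16, a17, a18, a19, a20,
    a21⟩, ⟨b1, b2, b3, b4, b5, b6, b7, b8, b9, b10, b11, η0, η1⟩, b12, b13, b14⟩ := hA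
  replace b11 : (0 : ℝ) < q.ν := by exact_mod_cast b11
  have hS : (0 : ℝ) < C1.S := by exact_mod_cast h1.S_pos
  have hη : (q.η : ℝ) = 3 * (q.p1.ε * q.p1.K2) := by simp [Sp.η]
  have hed : (q.ed : ℝ) = 24 * q.η / q.d ^ 4 := by simp [Sp.ed]
  have hn' : (q.ν : ℝ) ^ 2 ≤ m + 2 := by exact_mod_cast hn
  set n0 : ℝ := q.ν ^ 2
  have hn0 : 0 < n0 := by positivity
  have hγ1 : (0 : ℝ) < q.γ1 := by nlinarith only [a21, hn0]
  set hr : ℝ := q.hu / q.hv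
  set ρ : ℝ := q.ρu / q.ρv
  set R : ℝ := q.p1.ru / q.p1.rv
  have hR : 0 ≤ R := by positivity
  have hR0 : 1 ≤ R := by nlinarith only [a9, hR, hγ1, η0]
  have hR1 : 1 + q.γ1 ≤ R := by nlinarith only [a9, hR0, hγ1, η0]
  have eσ := ((E1.ofl h1 q.l).neg.rexp h1)
  obtain ⟨δ, Q, dδ, rδ, hδ⟩ := rootG h1 (eσ.mkY h1 ((E1.lin q.s0 q.r).rexp h1)) eσ (φ := fun _ => 0)
    (E1.one.congr fun _ _ => by simp) (Ts := [one C1, (one C1).neg])
    (Tg := fun i _ => if i = 0 then 1 else if i = 1 then -1 else 0)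
    ⟨E1.one, E1.one.neg, fun i t => rfl⟩ kI (by have := diff_ev q.l; fun_prop)
    (by have := diff_ev q.l; fun_prop) (by fun_prop)
    (fun t => by simp [← Complex.exp_conj, conj_ev]) (fun t => by simp [← Complex.exp_conj, conj_ev])
    (by simp) hγ1 a7 b6 a8 (fun t _ => by simpa using hR1) (w := fun _ => 0) (by fun_prop) (by simp)
    (fun t => by simp [eT])
  rw [← hη, eT] at hδ
  set Ψ : ℂ → ℂ := fun t => ev q.l t / C1.S + δ t with hΨ
  have dΨ : DifferentiableOn ℂ Ψ (ball 0 1) := ((diff_ev _).differentiableOn.div_const _).add dδ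
  have rΨ : ∀ t : ℝ, (t : ℂ) ∈ ball 0 1 → (Ψ t).im = 0 := fun t ht => by
    simp [hΨ, im_ev, rδ t ht]
  have bl : ∀ z : ℂ, ‖z‖ ≤ ρ → z ∈ ball (0 : ℂ) 1 := fun z hz => mem_ball_zero_iff.2 (by linarith only [hz, b4, b5])
  have bd : ∀ j ≤ 4, ∀ z : ℂ, ‖z‖ ≤ ρ → ‖iteratedDeriv j Ψ z - ev (dl^[j] q.l) z / C1.S‖ ≤ q.ed :=
    fun j hj z hz => by
      rw [iter_psi dδ _ _ _ z (bl z hz), add_sub_cancel_left, hed]
      refine (cauchy dδ (fun t ht => (hδ t ht).1) b4 b5 j hz).trans (div_le_div₀ (by positivity)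
        (mul_le_mul_of_nonneg_right ?_ η0) (by positivity) (pow_le_pow_of_le_one b4.le a4 hj))
      exact_mod_cast Nat.factorial_le hj
  have bn : ∀ j ≤ 4, ∀ (u v : ℕ) (z : ℂ), 1 ≤ v → ‖z‖ ≤ ρ → ‖z‖ ≤ u / v →
      ‖iteratedDeriv j Ψ z‖ ≤ nr u v (dl^[j] q.l) / C1.S + q.ed := fun j hj u v z hv hz hz' => by
    rw [← add_sub_cancel (ev (dl^[j] q.l) z / C1.S) (iteratedDeriv j Ψ z)]
    refine norm_add_le_of_le ?_ (bd j hj z hz)
    rw [norm_div, Complex.norm_natCast]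
    gcongr; exact ev_nr hv hz' _
  have br : ∀ j ≤ 4, ∀ z : ℂ, ‖z‖ ≤ ρ →
      |(iteratedDeriv j Ψ z).re - (ev (dl^[j] q.l) z).re / C1.S| ≤ q.ed := fun j hj z hz => by
    simpa using (Complex.abs_re_le_norm _).trans (bd j hj z hz)
  have hr0 : 0 ≤ hr := by positivity
  have mem : ∀ t τ : ℝ, |t| ≤ hr → 0 ≤ τ → τ ≤ q.θ0 / q.r → ‖(t : ℂ) + τ * Complex.I‖ ≤ ρ :=
    fun t τ k1 k2 k3 => by
      rw [Complex.norm_add_mul_I]
      refine Real.sqrt_le_iff.2 ⟨by positivity, le_trans (add_le_add ?_ (by gcongr)) a5⟩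
      exact sq_le_sq' (abs_le.1 k1).1 (abs_le.1 k1).2
  have mem0 : ∀ t : ℝ, |t| ≤ hr → ‖(t : ℂ)‖ ≤ ρ := fun t k1 => by
    simpa using mem t 0 k1 le_rfl (by positivity)
  have hm2 : (0 : ℝ) < m + 2 := by positivity
  obtain ⟨t0, ht0, e0⟩ := intermediate_value_Icc (f := fun t : ℝ => (iteratedDeriv 1 Ψ t).re)
    (neg_le_self hr0) (Complex.continuous_re.comp_continuousOn
      ((diff_iter isOpen_ball dΨ 1).continuousOn.comp Complex.continuous_ofReal.continuousOn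
        fun t ht => bl _ (mem0 t (abs_le.2 ht)))) (show q.r * ((k + 1) / (m + 2) : ℝ) ∈ Set.Icc _ _ from by
      have k1 := abs_le.1 (br 1 (by norm_num) _ (mem0 (-hr) (by rw [abs_neg, abs_of_nonneg hr0])))
      have k2 := abs_le.1 (br 1 (by norm_num) _ (mem0 hr (abs_of_nonneg hr0).le))
      have k3 : ((hr : ℝ) : ℂ) = q.hu / q.hv := by simp [hr]
      rw [← k3] at a15 a16
      rw [← Complex.ofReal_neg] at a15
      have k4 := mul_le_mul_of_nonneg_left ((le_div_iff₀ hm2).2 hlo) b1.le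
      have k5 := mul_le_mul_of_nonneg_left ((div_le_iff₀ hm2).2 hhi) b1.le
      exact ⟨by linarith only [k1.2, a15, k4], by linarith only [k2.1, a16, k5]⟩)
  replace ht0 := abs_le.2 ht0
  beta_reduce at e0
  have ht0' : ‖(t0 : ℂ)‖ ≤ hr := by simpa using ht0
  have hd : ∀ l : List ℤ, |(ev l (t0 : ℂ)).re - l.headD 0| ≤ hr * nr q.hu q.hv l.tail := fun l => by
    have := (Complex.abs_re_le_norm (t0 * ev l.tail (t0 : ℂ))).trans ((norm_mul _ _).trans_le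
      (mul_le_mul ht0' (ev_nr a1 ht0' _) (norm_nonneg _) hr0))
    rw [ev_head, Complex.add_re]; simpa using this
  have k2 := abs_le.1 (br 2 (by norm_num) _ (mem0 t0 ht0))
  have k3 := abs_le.1 (hd (dl^[2] q.l))
  have k4 := div_le_div_of_nonneg_right k3.1 hS.le
  have k5 := div_le_div_of_nonneg_right k3.2 hS.le
  rw [sub_div] at k4 k5
  rw [neg_div] at k4
  have hf : (0 : ℝ) < (m + 1).factorial := by exact_mod_cast Nat.factorial_pos _
  set CI : ℝ := 2 * (q.p1.K1 / q.γ1 * q.p1.K2)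
  have tI : ∀ z : ℂ, ‖z‖ ≤ ρ → SB R (al (Complex.exp (-(ev q.l z / C1.S)) ^ 2 *
      (1 - Complex.exp (q.s0 + q.r * z))) (Complex.exp (-(ev q.l z / C1.S))) -
      geo (Complex.exp (δ z)) + 1) CI := fun z hz => by
    obtain ⟨d1, d2, d3, d4, d5⟩ := hδ z (bl z hz)
    rw [zero_add] at d2
    refine one_root hR (eu_Fs _ _) d4 d3 d2 hγ1 ?_ (η := q.p1.η + 2 * q.η * R) ?_ (by linarith only [a7, η1])
    · have := Real.add_one_le_exp (δ z).re
      rw [Complex.norm_exp]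
      nlinarith only [(abs_le.1 ((Complex.abs_re_le_norm _).trans d1)).1, this, a9, hR0, hγ1]
    · convert (d5.add hR ((NB.C (Complex.exp (δ z) - 1)).mul hR (NB.X hR))).mono (add_le_add le_rfl
        (mul_le_mul_of_nonneg_right ((Complex.norm_exp_sub_one_le (d1.trans
          (by linarith only [hη, a8]))).trans (mul_le_mul_of_nonneg_left d1 zero_le_two)) hR)) using 1
      rw [map_sub, map_one]; ring
  have tII := fun t ht => type2 h2 (((E1.lin _ _).rexp h2).mkY h2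
    ((E1.lin q.s0 q.r2).rexp h2).neg) ((E1.lin _ _).rexp h2) kII a17 (t := t) ht
  have CI0 : 0 ≤ CI := le_trans (by positivity) (tI 0 (by rw [norm_zero]; positivity) 0)
  have K0 : (0 : ℝ) ≤ 2 * q.p2.K1 := (norm_nonneg _).trans (tII 0 (by simp) 0)
  have E1 : 0 ≤ CI * Real.exp (-(q.γ1 * (m + 2))) := by positivity
  have E2 : 0 ≤ 2 * q.p2.K1 * Real.exp (-(q.γ0 * (m + 2))) := by positivity
  refine step_of (Real.exp_pos (q.s0 + q.r * t0)) (mul_pos hf (Real.exp_pos ((m + 2) * (Ψ t0).re)))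
    (saddle (fun j => a (m + 2) j * Real.exp (q.s0 + q.r * t0) ^ j / _) (m + k + 3) k (by omega) hn0 hn'
      b3 (by linarith only [Real.pi_gt_three, a3]) b7 b8 b9 b10 (add_nonneg E1 E2) a13 a14 (K := q.K)
      (fun θ θ1 θ2 => ?_) (fun θ θ1 θ2 => ?_) ?_)
  · have τ1 : 0 ≤ θ / q.r := by positivity
    have τ2 : θ / q.r ≤ q.θ0 / q.r := by gcongr
    obtain ⟨g1, g2, g3⟩ := gbound dΨ rΨ (fun τ k1 k2 => bl _ (mem t0 τ ht0 k1 k2))
      (fun τ k1 k2 => bn 4 le_rfl _ _ _ a2 (mem t0 τ ht0 k1 k2) (mem t0 τ ht0 k1 k2))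
      (lo := (dl^[2] q.l).headD 0 / C1.S - (hr * nr q.hu q.hv (dl^[2] q.l).tail / C1.S + q.ed))
      (hi := (dl^[2] q.l).headD 0 / C1.S + (hr * nr q.hu q.hv (dl^[2] q.l).tail / C1.S + q.ed))
      (by linarith only [k2.1, k4]) (by linarith only [k2.2, k5]) (bn 3 (by norm_num) _ _ _ a1 (mem0 t0 ht0) ht0') τ1 τ2 _ rfl
    have g2' := g2.trans (neg_le_neg (mul_le_mul_of_nonneg_right a10 (sq_nonneg _)))
    refine ⟨_, le_trans (neg_le_neg ((mul_le_mul_of_nonneg_right a11 (sq_nonneg _)).trans_eq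
      (by field_simp))) g1, g2'.trans_eq (by field_simp), g3.trans
      ((mul_le_mul_of_nonneg_right a12 (by positivity)).trans_eq (by field_simp)), ?_⟩
    rw [re_sum m k _ (by omega)]
    refine re_ge ?_ E2
    have gre : _ ≤ (0 : ℝ) := g2'.trans (neg_nonpos.2 (by positivity))
    rw [e0] at gre ⊢
    have hz := mem t0 _ ht0 τ1 τ2
    have k6 := tI _ hz (m + 2)
    have k7 := (abs_le.1 ((Complex.abs_re_le_norm _).trans (hδ _ (bl _ hz)).1)).1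
    rw [map_add, map_sub, al_coeff, coeff_one, if_neg (by omega), add_zero, geo, coeff_mk,
      show (q.s0 + q.r * (t0 + (θ / q.r : ℝ) * Complex.I) : ℂ) =
        (q.s0 + q.r * t0 : ℝ) + θ * Complex.I by
          have : (q.r : ℂ) ≠ 0 := by exact_mod_cast b1.ne'
          push_cast; field_simp; ring] at k6
    generalize (t0 + (θ / q.r : ℝ) * Complex.I : ℂ) = z at *
    generalize A (K := ℂ) _ _ / _ = G at k6 ⊢
    generalize hg : Ψ z - _ - _ = g at gre ⊢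
    have e1 : G * Complex.exp (-(((m + 2) * (Ψ t0).re : ℝ) + (k + 1) * θ * Complex.I)) -
        Complex.exp ((m + 2 : ℝ) * g) = (Complex.exp (-(ev q.l z / C1.S)) ^ (m + 2) * G -
          Complex.exp (δ z) ^ (m + 2)) * Complex.exp ((m + 2 : ℝ) * (g - δ z)) := by
      rw [← Complex.exp_nat_mul, ← Complex.exp_nat_mul, sub_mul, mul_right_comm _ G, ← Complex.exp_add,
        ← Complex.exp_add, mul_comm G, ← hg]
      have : (q.r : ℂ) ≠ 0 := by exact_mod_cast b1.ne'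
      have : (m + 2 : ℂ) ≠ 0 := by exact_mod_cast hm2.ne'
      congr 2
      · congr 1; simp only [hΨ]; push_cast; field_simp; ring
      · push_cast; ring
    rw [e1, norm_mul, Complex.norm_exp, Complex.re_ofReal_mul, Complex.sub_re]
    have e2 : Real.exp (q.γ1 + q.η) ≤ R := by
      have : 0 < 1 - ((q.γ1 : ℝ) + q.η) := by nlinarith only [a9, hR]
      refine (Real.exp_bound_div_one_sub_of_interval (by positivity) (by linarith only [this])).trans ?_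
      rw [div_le_iff₀ this]; linarith only [a9]
    refine le_of_mul_le_mul_right ?_ (pow_pos (zero_lt_one.trans_le hR0) (m + 2))
    rw [mul_right_comm, mul_assoc CI]
    refine mul_le_mul k6 (le_trans ?_ (mul_le_mul_of_nonneg_left
      (pow_le_pow_left₀ (Real.exp_pos _).le e2 _) (Real.exp_pos _).le)) (Real.exp_pos _).le CI0
    rw [← Real.exp_nat_mul, ← Real.exp_add, Real.exp_le_exp]
    push_cast
    nlinarith only [k7, gre, hm2]
  · rw [re_sum m k _ (by omega), add_comm]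
    have pi1 := Real.pi_lt_d4
    have k6 := tII (((q.r * t0 : ℝ) + (θ - Real.pi : ℝ) * Complex.I) / q.r2) (by
      rw [norm_div, Complex.norm_add_mul_I, Complex.norm_ratCast, ← Rat.cast_abs,
        abs_of_pos (by exact_mod_cast b2), div_le_one b2]
      refine Real.sqrt_le_iff.2 ⟨b2.le, le_trans (add_le_add ?_ ?_) a6⟩
      · rw [mul_pow, mul_pow]
        exact mul_le_mul_of_nonneg_left (sq_le_sq' (abs_le.1 ht0).1 (abs_le.1 ht0).2) (sq_nonneg _)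
      · exact sq_le_sq' (by linarith only [θ1, pi1]) (by linarith only [θ2, a3])) (m + 2)
    have r2 : (q.r2 : ℂ) ≠ 0 := by exact_mod_cast b2.ne'
    rw [al_coeff, mul_div_cancel₀ _ r2, ← mul_neg_one (Complex.exp _), ← Complex.exp_pi_mul_I, ← Complex.exp_add,
      show (q.s0 + ((q.r * t0 : ℝ) + (θ - Real.pi : ℝ) * Complex.I) + Real.pi * Complex.I : ℂ) =
        (q.s0 + q.r * t0 : ℝ) + θ * Complex.I by push_cast; ring, norm_mul, norm_pow,
      Complex.norm_exp, show ((-q.κ0 : ℚ) + (-(q.l.tail.headD 0 / C1.S / q.r * q.r2) : ℚ) *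
        (((q.r * t0 : ℝ) + (θ - Real.pi : ℝ) * Complex.I) / q.r2) : ℂ) =
        (-q.κ0 - q.l.tail.headD 0 / C1.S * t0 : ℝ) + (-(q.l.tail.headD 0 / C1.S / q.r * (θ - Real.pi)) : ℝ) *
          Complex.I by
          have : (q.r : ℂ) ≠ 0 := by exact_mod_cast b1.ne'
          push_cast; field_simp; ring] at k6
    refine le_trans (zero_sub _).ge (re_ge (a := 0) ?_ E1)
    generalize A (K := ℂ) _ _ / _ = G at k6 ⊢
    have k7 := (abs_le.1 ((Complex.abs_re_le_norm _).trans (hδ _ (bl _ (mem0 t0 ht0))).1)).1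
    have k8 : q.l.headD 0 / C1.S + q.l.tail.headD 0 / C1.S * t0 - q.η ≤ (Ψ t0).re := by
      have k9 := (abs_le.1 (hd q.l.tail.tail)).1
      have : q.l.headD 0 + q.l.tail.headD 0 * t0 ≤ (ev q.l (t0 : ℂ)).re := by
        rw [ev_head, ev_head _ q.l.tail]
        simp only [Complex.add_re, Complex.re_ofReal_mul, Complex.intCast_re]
        nlinarith only [mul_nonneg (sq_nonneg t0) (show 0 ≤ (ev q.l.tail.tail (t0 : ℂ)).re by
          linarith only [k9, a19])]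
      have := div_le_div_of_nonneg_right this hS.le
      simp only [hΨ, Complex.add_re, Complex.div_natCast_re]
      rw [add_div, mul_div_right_comm] at this
      linarith only [this, k7]
    rw [sub_zero, norm_mul, Complex.norm_exp]
    refine le_trans ?_ (mul_le_mul_of_nonneg_right k6 (Real.exp_pos _).le)
    rw [← Real.exp_nat_mul, mul_right_comm _ ‖G‖, ← Real.exp_add, mul_comm ‖G‖]
    refine mul_le_mul_of_nonneg_right (Real.exp_le_exp.2 ?_) (norm_nonneg _)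
    generalize q.l.tail.headD 0 = l1 at k8 ⊢
    simp
    nlinarith only [k8, a18, hm2]
  · have d1 := mul_le_mul_of_nonneg_left (decay 60 b11 le_rfl hn' a21 b13) CI0
    have d2 := mul_le_mul_of_nonneg_left (decay 60 b11 le_rfl hn' a20 b12) K0
    refine lt_of_le_of_lt (mul_le_mul (by linarith only [Real.pi_lt_d2]) ?_ (by positivity)
      (by norm_num)) b14
    linarith only [d1, d2]

end Pool.Agent.Lib.MP_3b1384_co
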