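import Pool.Agent.Lib.MP_3b1384_co.Der

namespace Pool.Agent.Lib.MP_3b1384_co
open PowerSeries Filter Topology Metric
open Finset hiding mk

noncomputable def TS (f : ℂ → ℂ) : ℂ⟦X⟧ := mk fun l => iteratedDeriv l f 0 / l.factorial

variable {f g : ℂ → ℂ}

lemma fac_ne (n : ℕ) : (n.factorial : ℂ) ≠ 0 := by exact_mod_cast n.factorial_ne_zero

lemma TS_mul (hf : AnalyticAt ℂ f 0) (hg : AnalyticAt ℂ g 0) :
    TS (fun t => f t * g t) = TS f * TS g := by
  ext n
  rw [coeff_mul, Finset.Nat.sum_antidiagonal_eq_sum_range_succ_mk]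
  simp only [TS, coeff_mk]
  rw [iteratedDeriv_fun_mul hf.contDiffAt hg.contDiffAt, sum_div]
  refine sum_congr rfl fun i hi => ?_
  rw [Nat.cast_choose _ (Nat.lt_succ_iff.1 (mem_range.1 hi))]
  have := fac_ne n
  field_simp

lemma TS_add (hf : AnalyticAt ℂ f 0) (hg : AnalyticAt ℂ g 0) :
    TS (fun t => f t + g t) = TS f + TS g := by
  ext n
  simp only [TS, coeff_mk, map_add]
  rw [iteratedDeriv_fun_add hf.contDiffAt hg.contDiffAt, add_div]

lemma TS_cmul (c : ℂ) (f : ℂ → ℂ) : TS (fun t => c * f t) = C c * TS f := by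
  ext n; simp [TS, mul_div_assoc]

lemma TS_pow (m : ℕ) : TS (fun t => t ^ m) = X ^ m := by
  ext n
  simp only [TS, coeff_mk, iteratedDeriv_fun_pow_zero, coeff_X_pow]
  split_ifs with h <;> simp [h, Nat.factorial_ne_zero]

lemma TS_const (c : ℂ) : TS (fun _ => c) = C c := by
  have := TS_cmul c fun t => t ^ 0
  rw [TS_pow] at this
  simpa using this

lemma TS_congr (h : f =ᶠ[𝓝 0] g) : TS f = TS g := by
  ext n; simp only [TS, coeff_mk, h.iteratedDeriv_eq]

lemma TS_deriv (l : ℕ) : coeff l (TS (deriv f)) = (l + 1) * coeff (l + 1) (TS f) := by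
  simp only [TS, coeff_mk, iteratedDeriv_succ', Nat.factorial_succ]
  have : (l : ℂ) + 1 ≠ 0 := by exact_mod_cast l.succ_ne_zero
  push_cast; field_simp

lemma TS_neg_arg (l : ℕ) : coeff l (TS fun t => f (-t)) = (-1) ^ l * coeff l (TS f) := by
  simp [TS, iteratedDeriv_comp_neg, mul_div_assoc]

lemma TS_ev : ∀ L : List ℤ, TS (ev L) = mk fun i => ((L.getD i 0 : ℤ) : ℂ)
  | [] => (TS_const 0).trans (by ext; simp)
  | c :: L => by
    have h := (diff_ev L).analyticAt 0
    have h1 : TS (fun t => t) = X := by simpa using TS_pow 1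
    rw [show ev (c :: L) = fun t : ℂ => c + t * ev L t from rfl, TS_add (by fun_prop) (by fun_prop),
      TS_mul (by fun_prop) h, TS_const, h1, TS_ev L]
    ext n; cases n <;> simp [coeff_succ_X_mul, -map_intCast, coeff_C]

lemma TS_le (hf : DifferentiableOn ℂ f (ball 0 1)) {d K : ℝ} (h0 : 0 < d) (h1 : d < 1)
    (h : ∀ z : ℂ, ‖z‖ ≤ d → ‖f z‖ ≤ K) : SB d (TS f) K := fun l => by
  have := Complex.norm_iteratedDeriv_le_of_forall_mem_sphere_norm_le l h0
    (hf.diffContOnCl_ball (closedBall_subset_ball h1)) fun z hz => h z (by simpa using hz.le)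
  have h2 : (0 : ℝ) < l.factorial := by exact_mod_cast l.factorial_pos
  rw [TS, coeff_mk, norm_div, Complex.norm_natCast, ← le_div_iff₀ (by positivity), div_le_iff₀' h2,
    ← mul_div_assoc]
  exact this

lemma SB.nb {F : ℂ⟦X⟧} {d x K : ℝ} (h : SB d F K) (h0 : 0 ≤ x) (h1 : x < d) :
    NB x F (K / (1 - x / d)) := fun n => by
  have hd := h0.trans_lt h1
  have hK : 0 ≤ K := le_trans (by positivity) (h 0)
  have q0 : 0 ≤ x / d := by positivity
  have q1 : x / d < 1 := (div_lt_one hd).2 h1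
  refine (sum_le_sum (g := fun m => K * (x / d) ^ m) fun m _ => ?_).trans ?_
  · refine le_trans (le_of_eq ?_) (mul_le_mul_of_nonneg_right (h m) (by positivity))
    rw [div_pow]; field_simp
  · rw [← mul_sum, div_eq_mul_inv K, ← tsum_geometric_of_lt_one q0 q1]
    exact mul_le_mul_of_nonneg_left ((summable_geometric_of_lt_one q0 q1).sum_le_tsum _
      fun _ _ => by positivity) hK

lemma diff_Bc {y u : ℂ → ℂ} (hy : Differentiable ℂ y) (hu : Differentiable ℂ u) (n : ℕ) :
    Differentiable ℂ fun t => Bc (y t) (u t) n := by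
  have h := fun n k => differentiableOn_univ.1 (diff_H hy.differentiableOn hu.differentiableOn n k)
  induction n using Nat.strong_induction_on with
  | _ n ih =>
    simp only [fun t => Bc.eq_1 (y t) (u t) n]
    exact (h _ _).neg.sub (Differentiable.fun_sum fun i _ => ((ih i i.2).mul (h _ _)).const_mul _)

noncomputable def pu (δ : ℂ) (m : ℕ) (t : ℂ) : ℂ := coeff (m + 2) (al ((δ * t) ^ 2 - 1) (δ * t))

lemma diff_pu (δ : ℂ) (m : ℕ) : Differentiable ℂ (pu δ m) := by
  unfold pu
  simp only [al, coeff_succ_X_mul, coeff_mk]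
  exact (diff_Bc (by fun_prop) (by fun_prop) _).div_const _

lemma pu_id (δ : ℂ) (m j : ℕ) : δ ^ (m + 4) * coeff j (X ^ (m + 4) * TS (pu δ m)) =
    ∑ k ∈ range (m + 3), if j = 2 * m + 6 - 2 * k then
      a (m + 2) k / (m + 1).factorial * δ ^ j else 0 := by
  have key : ∀ ε : ℂ, ε ^ (m + 4) * coeff (m + 2) (al (ε ^ 2 - 1) ε) =
      ∑ k ∈ range (m + 3), a (m + 2) k / (m + 1).factorial * ε ^ (2 * m + 6 - 2 * k) := fun ε => by
    by_cases h : ε = 0
    · rw [h, sum_eq_zero fun k hk => ?_]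
      · simp
      · rw [zero_pow (by have := mem_range.1 hk; omega), mul_zero]
    · have := al_coeff ε (ε ^ 2)⁻¹ m
      rw [mul_sub, mul_one, mul_inv_cancel₀ (pow_ne_zero 2 h)] at this
      rw [this, A_sum _ _ _ le_rfl, sum_div, mul_sum, mul_sum]
      refine sum_congr rfl fun k hk => ?_
      rw [pow_sub₀ _ h (by have := mem_range.1 hk; omega), inv_pow, ← pow_mul]
      ring
  rw [← coeff_C_mul, ← TS_pow, ← TS_mul (by fun_prop) ((diff_pu δ m).analyticAt 0), ← TS_cmul]
  simp only [pu, ← mul_assoc, ← mul_pow, key]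
  simp only [TS, coeff_mk, mul_pow, ← mul_assoc]
  rw [iteratedDeriv_fun_sum fun _ _ => by fun_prop, sum_div]
  refine sum_congr rfl fun k _ => ?_
  rw [iteratedDeriv_const_mul_field, iteratedDeriv_fun_pow_zero]
  split_ifs with h
  · rw [← h, mul_div_cancel_right₀ _ (fac_ne _)]
  · simp

lemma a_zero (m k : ℕ) (h : m + 2 < 2 * k) : a (m + 2) k = 0 := by
  rcases Nat.lt_or_ge k (m + 3) with hk | hk
  · have := pu_id 1 m (2 * m + 6 - 2 * k)
    rw [coeff_X_pow_mul', if_neg (by omega), sum_eq_single k (fun j hj hj' => if_neg (by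
      have := mem_range.1 hj; omega)) (fun h => absurd (mem_range.2 hk) h)] at this
    simpa [Nat.factorial_ne_zero] using this.symm
  · exact a_big _ _ hk

lemma TS_pu {δ : ℂ} (hδ : δ ≠ 0) {m k l : ℕ} (h : 2 * k + l = m + 2) :
    coeff l (TS (pu δ m)) = a (m + 2) k / (m + 1).factorial * δ ^ l := by
  have := pu_id δ m (l + (m + 4))
  rw [coeff_X_pow_mul, sum_eq_single k (fun j hj hj' => if_neg (by
      have := mem_range.1 hj; omega)) (fun h => absurd (mem_range.2 (by omega)) h),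
    if_pos (by omega), pow_add _ l, ← mul_assoc, mul_comm] at this
  exact mul_right_cancel₀ (pow_ne_zero _ hδ) this

end Pool.Agent.Lib.MP_3b1384_co
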