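import Pool.Agent.Lib.MP_3b1384_co.TS
import Pool.Agent.Lib.MP_3b1384_co.Strip

namespace Pool.Agent.Lib.MP_3b1384_co
open PowerSeries Filter Topology Metric
open Finset hiding mk

lemma mono_coeff {V G : ℂ⟦X⟧} {f : ℕ → ℝ} {x κ cu cv n w L : ℝ} (hf : ∀ l, coeff l V = f l)
    (h0 : 0 ≤ f 0) (hG : NB x G κ) (hx : 0 < x) (hv : 0 < cv) (hu : 0 ≤ cu) (hn : 0 ≤ n)
    (hr : ∀ l : ℕ, (cv * ((l + 1) * f (l + 1)) + cu * (l * f l) : ℝ) =
      (n : ℂ) * ((w * f l : ℝ) + coeff l (G * V))) (hL : L * (cv / x + cu) ≤ n * (w - κ)) (j : ℕ) :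
    j ≤ L → ∀ i ≤ j, f 0 ≤ f i * x ^ i ∧ f i * x ^ i ≤ f j * x ^ j := by
  induction j with
  | zero => intro _ i hi; simp [Nat.le_zero.1 hi]
  | succ j ih =>
    intro hj
    push_cast at hj
    replace ih := ih (by linarith)
    have g0 := h0.trans (ih j le_rfl).1
    have h1 : ‖coeff j (G * V)‖ * x ^ j ≤ κ * (f j * x ^ j) := by
      refine (NB.coeff_mul_le hx.le j).trans ((sum_le_sum fun p hp => mul_le_mul_of_nonneg_left
        (show ‖coeff p.2 V‖ * x ^ p.2 ≤ f j * x ^ j from ?_) (by positivity)).trans ?_)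
      · have := ih p.2 (by have := mem_antidiagonal.1 hp; omega)
        rw [hf, Complex.norm_of_nonneg (nonneg_of_mul_nonneg_left (h0.trans this.1) (by positivity))]
        exact this.2
      · rw [← sum_mul, Finset.Nat.sum_antidiagonal_eq_sum_range_succ (fun i _ => ‖coeff i G‖ * x ^ i)]
        exact mul_le_mul_of_nonneg_right (hG _) g0
    have h2 := congrArg Complex.re (hr j)
    rw [Complex.re_ofReal_mul, Complex.add_re, Complex.ofReal_re, Complex.ofReal_re] at h2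
    have h3 := mul_le_mul_of_nonneg_left ((mul_le_mul_of_nonneg_right
      ((neg_le_abs _).trans (Complex.abs_re_le_norm _)) (by positivity)).trans h1) hn
    have h4 := mul_le_mul_of_nonneg_right ((mul_le_mul_of_nonneg_right hj (by positivity)).trans hL) g0
    have h5 : f j * x ^ j ≤ f (j + 1) * x ^ (j + 1) := by
      refine le_of_mul_le_mul_left ?_ (show 0 < (j + 1) * (cv / x) by positivity)
      have h6 : (j + 1) * (cv / x) * (f (j + 1) * x ^ (j + 1)) = cv * ((j + 1) * f (j + 1)) * x ^ j := by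
        field_simp; ring
      have h7 := congrArg (· * x ^ j) h2
      nlinarith only [h3, h4, h6, h7, mul_nonneg hu g0]
    intro i hi
    rcases hi.eq_or_lt with rfl | hi
    · exact ⟨(ih j le_rfl).1.trans h5, le_rfl⟩
    · exact ⟨(ih i (by omega)).1, (ih i (by omega)).2.trans h5⟩

def alt : ℤ → List ℤ → List ℤ
  | _, [] => []
  | s, c :: l => s * c :: alt (-s) l

lemma ev_alt (t : ℂ) : ∀ (l : List ℤ) (s : ℤ), ev (alt s l) t = s * ev l (-t)
  | [], s => by simp [alt, ev]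
  | c :: l, s => by simp only [alt, ev, ev_alt t l]; push_cast; ring

lemma ps_neg (Y e z : ℂ) : ps (Fs Y (-e)) z = ps (Fs Y e) (-z) := by
  refine tsum_congr fun m => ?_
  have := H_smul (-1) Y e m 0
  simp only [even_two, Even.neg_pow, one_pow, one_mul, neg_mul, add_zero] at this
  simp only [Fs, coeff_mk, this, neg_pow z]; ring

lemma al_smul (c Y e : ℂ) (m : ℕ) :
    coeff (m + 1) (al (c ^ 2 * Y) (c * e)) = c ^ (m + 1) * coeff (m + 1) (al Y e) := by
  simp only [al, coeff_succ_X_mul, coeff_mk, Bc_smul, mul_div_assoc]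

structure Up where
  l : List ℤ
  (c δ r m d d' G μ : ℚ)
  (xu xv cu cv n3 : ℕ)
  p : Pm

def Up.η (q : Up) : ℚ := 3 * (q.p.ε * q.p.K2)

noncomputable def Up.num (q : Up) (S v a b : ℕ) : Bool :=
  (fun (R x : ℚ) (ω : List ℤ) => decide (
    (0 < q.r ∧ q.p.η ≤ q.r / 4 ∧ q.p.ε * (2 * q.p.K2 / q.r) < 1 / 2 ∧ 2 * (q.p.ε * q.p.K2) ≤ 1 / 2 ∧
    0 ≤ q.η ∧ (1 + q.r) * (v / S) ≤ R ∧ (1 + (b : ℚ) / S) * q.r + b / S ≤ 1 ∧ (a : ℚ) / S ≤ 3 ∧
    4 * q.η < q.r ∧ 2 * q.η ≤ 1 ∧ 0 < q.m ∧ q.m ≤ (1 + q.r) * (1 - q.η) - 1 ∧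
    (q.p.η + 6 * q.η * R * (2 + 9 * R)) / q.m ≤ q.m / 2) ∧
    ((1 - 2 * q.μ) * (q.cv / x + q.cu) ≤ ω.headD 0 / S - (nr q.xu q.xv (0 :: ω.tail) / S +
      (q.cv + q.cu) * (q.η / q.d') / (1 - x / q.d)) ∧ 0 < x ∧ x < q.d ∧ 0 < q.d' ∧ q.d + q.d' < 1 ∧
    0 < q.δ ∧ q.δ * x ≤ 1 / 2 ∧ 0 < q.c) ∧ (0 < q.xv ∧ 0 < q.cv) ∧
    q.G ≤ R * (1 + (q.l.headD 0 / S - q.η) / 8) ^ 8 ∧ 0 ≤ 1 + (q.l.headD 0 / S - q.η) / 8 ∧ 1 ≤ q.G ∧
    2 * (q.p.K1 / q.m / q.m * q.p.K2) ≤ q.G ^ q.n3))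
  (q.p.ru / q.p.rv) (q.xu / q.xv) (lmul [q.cv, q.cu] (dl q.l))

noncomputable def chkU (C : Cf) (q : Up) : Bool :=
  T.frc (mrs C (one C) (lin C 0 (q.c * q.δ))) fun e => T.frc (rexp C (ofl C q.l).neg) fun v =>
  T.frc (rexp C (ofl C q.l)) fun a1 => T.frc (rexp C (ofl C (alt 1 q.l))) fun a2 =>
  T.frc (mrs C (one C) ((mr C e e).add (cq C (q.c ^ 2)).neg)) fun Y =>
    chkC C q.p Y e v [one C, a2.add a1.neg, (mr C a1 a2).neg] false &&
    q.num C.S v.nb a1.nb (mr C (one C) ((rexp C ((ofl C (alt 1 q.l)).add (ofl C q.l).neg)).add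
      (one C).neg)).nb

lemma eT3 (u w : ℂ) : (mk fun m => if m = 0 then 1 else if m = 1 then w + -u else
    if m = 2 then -(u * w) else 0 : ℂ⟦X⟧) = (1 - C u * X) * (1 - C (-w) * X) := by
  rw [show (1 - C u * X) * (1 - C (-w) * X) = 1 + C (w + -u) * X ^ 1 + C (-(u * w)) * X ^ 2 by
    simp only [map_add, map_neg, map_mul]; ring]
  ext m
  rw [map_add, map_add, coeff_C_mul, coeff_C_mul, coeff_X_pow, coeff_X_pow, coeff_one, coeff_mk]
  split_ifs <;> simp_all

lemma nb_list {u v : ℕ} (hv : 0 < v) (L : List ℤ) :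
    NB (u / v) (mk fun i => ((L.getD i 0 : ℤ) : ℂ)) (nr u v L) := fun n => by
  simpa only [coeff_mk, nr] using hor_spec u v hv (L.map Int.natAbs) (fun j => ‖((L.getD j 0 : ℤ) : ℂ)‖)
    (fun j => by rw [show 0 = Int.natAbs 0 from rfl, getD_map]; simp) n

theorem upper {C : Cf} (hC : C.ok) (q : Up) (h : chkU C q = true) (m k : ℕ) (hn : q.n3 ≤ m + 2)
    (hk : q.μ * (m + 2) ≤ k) : a (m + 2) (k + 1) ≤ a (m + 2) k := by
  rcases Nat.lt_or_ge (m + 2) (2 * (k + 1)) with hk2 | hk2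
  · rw [a_zero _ _ hk2]; exact Nat.zero_le _
  obtain ⟨l, hl⟩ := Nat.exists_eq_add_of_le hk2
  simp only [chkU, T.frc_eq, Up.num, Bool.and_eq_true, decide_eq_true_eq] at h
  obtain ⟨kI, hA⟩ := h
  simp only [← Rat.cast_le (K := ℝ), ← Rat.cast_lt (K := ℝ)] at hA hk
  push_cast at hA hk
  obtain ⟨⟨a1, a2, a3, a4, a5, a6, a7, a8, a9, a10, a11, a12, a13⟩, ⟨b1, b2, b3, b4, b5, b6, b7, c0⟩,
    ⟨b8, b9⟩, c1, c2, c3, c4⟩ := hA
  have hS : (0 : ℝ) < C.S := by exact_mod_cast hC.S_pos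
  have hη : (q.η : ℝ) = 3 * (q.p.ε * q.p.K2) := by simp [Up.η]
  set R : ℝ := q.p.ru / q.p.rv
  set x : ℝ := q.xu / q.xv
  have hR : 0 ≤ R := by positivity
  set φ : ℂ → ℂ := fun t => ev q.l t / C.S with hφ
  have dφ : Differentiable ℂ φ := (diff_ev _).div_const _
  have e0 : E1 C _ fun t => q.c * (q.δ * t) :=
    (E1.one.mrs hC (E1.lin 0 (q.c * q.δ))).congr fun t _ => by simp [mul_assoc]
  have e1 : E1 C _ φ := E1.ofl hC q.l
  have e2 : E1 C _ fun t => φ (-t) := (E1.ofl hC (alt 1 q.l)).congr fun t _ => by simp [ev_alt, hφ]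
  have hv : ∀ t : ℂ, ‖t‖ ≤ 1 → (1 + q.r) * ‖Complex.exp (-φ t)‖ ≤ R := fun t ht =>
    (mul_le_mul_of_nonneg_left ((e1.neg.rexp hC).nb hC ht) (by positivity)).trans a6
  have hw : ∀ t : ℂ, ‖t‖ ≤ 1 → ∀ ξ ∈ ball (1 : ℂ) q.r,
      1 ≤ ‖1 - -Complex.exp (φ (-t) + -φ t) * ξ‖ := fun t ht ξ hξ => by
    have k1 := (E1.one.mr hC (((e2.add e1.neg).rexp hC).add E1.one.neg)).nb hC ht
    generalize Complex.exp _ = z at k1 ⊢
    rw [one_mul] at k1
    have k2 : ‖z * ξ - 1‖ ≤ 1 := by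
      rw [show z * ξ - 1 = (1 + (z + -1)) * (ξ - 1) + (z + -1) by ring]
      refine (norm_add_le_of_le ((norm_mul _ _).trans_le (mul_le_mul (norm_add_le_of_le norm_one.le k1)
        (mem_ball_iff_norm.1 hξ).le (norm_nonneg _) (by positivity))) k1).trans a7
    have k3 := (abs_le.1 ((Complex.abs_re_le_norm _).trans k2)).1
    refine le_trans ?_ (Complex.re_le_norm _)
    simp only [neg_mul, sub_neg_eq_add, Complex.add_re, Complex.sub_re, Complex.one_re] at k3 ⊢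
    linarith only [k3]
  obtain ⟨δ, Q, dδ, rδ, hδ⟩ := rootG hC (y := fun t => q.c ^ 2 * ((q.δ * t) ^ 2 - 1))
    ((E1.one.mrs hC ((e0.mr hC e0).add (E1.cq _).neg)).congr fun t _ => by push_cast; ring) e0 (e1.neg.rexp hC)
    (Tg := fun i t => if i = 0 then 1 else if i = 1 then Complex.exp (φ (-t)) + -Complex.exp (φ t)
      else if i = 2 then -(Complex.exp (φ t) * Complex.exp (φ (-t))) else 0)
    (Ts := [_, _, _]) ⟨E1.one, (e2.rexp hC).add (e1.rexp hC).neg, ((e1.rexp hC).mr hC (e2.rexp hC)).neg,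
      fun i t => rfl⟩ kI (by fun_prop) (by fun_prop) dφ (by simp) (by simp)
    (fun t => by simp [hφ, conj_ev]) a1 a2 a3 a4 hv (by fun_prop) hw
    (fun t => by rw [eT3, neg_mul, ← Complex.exp_add, neg_add_cancel_right])
  simp only [← hη, eT3] at hδ
  set Ψ : ℂ → ℂ := fun t => φ t + δ t with hΨ
  have dΨ : DifferentiableOn ℂ Ψ (ball 0 1) := dφ.differentiableOn.add dδ
  have bn : ∀ t ∈ ball (0 : ℂ) 1, -t ∈ ball (0 : ℂ) 1 := fun t ht => by simpa using ht
  have b : ∀ t ∈ ball (0 : ℂ) 1, ‖t‖ ≤ 1 := fun t ht => (mem_ball_zero_iff.1 ht).le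
  have nu : ∀ t ∈ ball (0 : ℂ) 1, q.m ≤ R * ‖Complex.exp (Ψ t)‖ - 1 ∧
      ‖Complex.exp (Ψ t) - Complex.exp (φ t)‖ ≤ 3 * (2 * q.η) ∧ ‖Complex.exp (φ t)‖ ≤ 3 :=
      fun t ht => by
    have k1 := ((e1.rexp hC).nb hC (b t ht)).trans a8
    have k2 := (hδ t ht).1
    refine ⟨?_, ?_, k1⟩
    · have k3 : ‖Complex.exp (-φ t)‖ * ‖Complex.exp (Ψ t)‖ = Real.exp (δ t).re := by
        rw [← norm_mul, ← Complex.exp_add, neg_add_cancel_left, Complex.norm_exp]
      have k4 := mul_le_mul_of_nonneg_right (hv t (b t ht)) (norm_nonneg (Complex.exp (Ψ t)))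
      rw [mul_assoc, k3] at k4
      nlinarith only [k4, a12, a1, Real.add_one_le_exp (δ t).re,
        (abs_le.1 ((Complex.abs_re_le_norm _).trans k2)).1]
    · rw [Complex.exp_add, ← mul_sub_one, norm_mul]
      exact mul_le_mul k1 ((Complex.norm_exp_sub_one_le (by linarith only [k2, a5, a10])).trans
        (by linarith only [k2])) (norm_nonneg _) zero_le_three
  have R0 : 0 < R := by
    have := hv 0 (by simp)
    exact lt_of_lt_of_le (mul_pos (by positivity) (norm_pos_iff.2 (Complex.exp_ne_zero _))) this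
  set U : ℂ → ℂ := fun t => Complex.exp ((m + 2 : ℝ) * Ψ t) with hU
  have dU : DifferentiableOn ℂ U (ball 0 1) := (dΨ.const_mul _).cexp
  have dU' : DifferentiableOn ℂ (fun t => U (-t)) (ball 0 1) := dU.comp (by fun_prop) bn
  have tIII : ∀ t ∈ ball (0 : ℂ) 1, ‖q.c ^ (m + 2) * pu q.δ m t + (-1 * U t + -(-1) ^ m * U (-t))‖ ≤
      2 * (q.p.K1 / q.m / q.m * q.p.K2) / R ^ (m + 2) := fun t ht => by
    obtain ⟨d1, d2, d3, d4, d5⟩ := hδ t ht
    obtain ⟨n1, n2, n3⟩ := nu t ht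
    obtain ⟨n4, n5, n6⟩ := nu _ (bn t ht)
    have := two_root hR (eu_Fs _ _) d4 d3 d2 (w := -Complex.exp (Ψ (-t))) (by
        have := (hδ _ (bn t ht)).2.1
        rwa [mul_neg, neg_sq, mul_neg, ps_neg, ← inv_neg] at this) (fun e => by
        have k1 := (hδ _ (bn t ht)).1
        have k2 := norm_sub_le_of_le k1 d1
        have := hw t (b t ht) (Complex.exp (δ (-t) - δ t)) (mem_ball_iff_norm.2
          ((Complex.norm_exp_sub_one_le (by linarith only [k2, a10])).trans_lt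
            (by linarith only [k2, a9])))
        rw [neg_mul, ← Complex.exp_add, show φ (-t) + -φ t + (δ (-t) - δ t) = Ψ (-t) - (φ t + δ t) by
          simp only [hΨ]; ring, Complex.exp_sub, e, div_neg, div_self (Complex.exp_ne_zero _)] at this
        norm_num at this) a11 n1 (by rwa [norm_neg]) (by
        have k1 : ‖-Complex.exp (Ψ (-t))‖ ≤ 6 := by
          rw [norm_neg, ← sub_add_cancel (Complex.exp (Ψ (-t))) (Complex.exp (φ (-t)))]
          exact (norm_add_le_of_le n5 n6).trans (by linarith only [a10])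
        convert (d5.add hR ((((NB.C (Complex.exp (Ψ t) - Complex.exp (φ t))).mul hR (NB.X hR)).mul hR
          (NB.lin hR (-Complex.exp (Ψ (-t))))).add hR ((NB.lin hR (Complex.exp (φ t))).mul hR
          ((NB.C (Complex.exp (Ψ (-t)) - Complex.exp (φ (-t)))).mul hR (NB.X hR)).neg))).mono
          (L := q.p.η + 6 * q.η * R * (2 + 9 * R)) (add_le_add le_rfl (le_trans
            (b := 3 * (2 * q.η) * R * (1 + 6 * R) + (1 + 3 * R) * (3 * (2 * q.η) * R)) (by gcongr)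
            (le_of_eq (by ring)))) using 1
        simp only [map_sub, map_neg, hΨ]; ring) a13 (m + 2)
    rw [le_div_iff₀ (by positivity)]
    refine le_of_eq_of_le (congrArg (‖·‖ * R ^ (m + 2)) ?_) this
    simp only [map_add, map_sub, coeff_one, geo, coeff_mk, hU, pu, al_smul, neg_pow (Complex.exp _),
      ← Complex.exp_nat_mul, hΨ]
    push_cast
    ring
  have an : ∀ {f : ℂ → ℂ}, DifferentiableOn ℂ f (ball 0 1) → AnalyticAt ℂ f 0 := fun hf =>
    hf.analyticAt (ball_mem_nhds _ one_pos)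
  have d0 := b2.trans b3
  have d1 : (q.d : ℝ) < 1 := by linarith only [b4, b5]
  have sub : ∀ z : ℂ, ‖z‖ ≤ q.d → z ∈ ball (0 : ℂ) 1 := fun z hz => mem_ball_zero_iff.2 (hz.trans_lt d1)
  have dp := (diff_pu q.δ m).const_mul ((q.c : ℂ) ^ (m + 2))
  have k1 := TS_le (dp.differentiableOn.fun_add ((dU.const_mul (-1)).fun_add
    (dU'.const_mul (-(-1) ^ m)))) d0 d1 fun z hz => tIII z (sub z hz)
  have hf : ∀ l, coeff l (TS U) = (coeff l (TS U)).re := fun l => by
    have := real_iter isOpen_ball dU (fun t ht => by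
      simp [hU, hΨ, hφ, Complex.exp_im, im_ev, rδ t ht]) l 0 (by simp)
    refine (Complex.conj_eq_iff_re.1 (Complex.conj_eq_iff_im.2 ?_)).symm
    simp only [TS, coeff_mk, Complex.div_natCast_im]
    rw [show iteratedDeriv l U 0 = iteratedDeriv l U (0 : ℝ) from rfl, this, zero_div]
  have hf0 : (coeff 0 (TS U)).re = Real.exp ((m + 2) * (Ψ 0).re) := by
    have := rδ 0 (by simp)
    have h2 := im_ev q.l 0
    rw [Complex.ofReal_zero] at this h2
    simp [TS, hU, hΨ, hφ, Complex.exp_re, this, h2]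
  set ω := lmul [(q.cv : ℤ), q.cu] (dl q.l) with hω
  have dδ' := dδ.deriv isOpen_ball
  have dg : DifferentiableOn ℂ (fun t => (q.cv + q.cu * t) * deriv δ t) (ball 0 1) :=
    DifferentiableOn.mul (by fun_prop) dδ'
  have dg' : AnalyticAt ℂ (fun t => (C.S : ℂ)⁻¹ * ev (0 :: ω.tail) t) 0 :=
    ((diff_ev _).const_mul _).analyticAt 0
  set g : ℂ → ℂ := fun t => (C.S : ℂ)⁻¹ * ev (0 :: ω.tail) t + (q.cv + q.cu * t) * deriv δ t with hg
  have hG : NB x (TS g) (nr q.xu q.xv (0 :: ω.tail) / C.S +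
      (q.cv + q.cu) * (q.η / q.d') / (1 - x / q.d)) := by
    rw [TS_add dg' (an dg), TS_cmul, TS_ev]
    refine (((NB.C _).mul b2.le (nb_list b8 _)).mono (le_of_eq (by simp [div_eq_inv_mul]))).add b2.le
      ((TS_le dg d0 d1 fun z hz => ?_).nb b2.le b3)
    have := cauchy dδ (fun t ht => (hδ t ht).1) b4 b5 1 hz
    rw [norm_mul]
    refine mul_le_mul (norm_add_le_of_le (by simp) ?_) (by simpa using this) (norm_nonneg _)
      (by positivity)
    rw [norm_mul, Complex.norm_natCast]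
    exact mul_le_of_le_one_right (by positivity) (hz.trans d1.le)
  have aU := an dU
  have aU' := aU.deriv
  have ev1 : (fun t => q.cv * deriv U t + q.cu * (t ^ 1 * deriv U t)) =ᶠ[𝓝 0]
      fun t => (m + 2 : ℝ) * ((ω.headD 0 / C.S : ℝ) * U t + g t * U t) := by
    filter_upwards [ball_mem_nhds (0 : ℂ) one_pos] with z hz
    have := ((((dl_der q.l z).div_const (C.S : ℂ)).fun_add (dδ.differentiableAt
      (isOpen_ball.mem_nhds hz)).hasDerivAt).const_mul ((m + 2 : ℝ) : ℂ)).cexp.deriv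
    have e := ev_lmul z [(q.cv : ℤ), q.cu] (dl q.l)
    rw [← hω, ev_head] at e
    rw [show deriv U z = _ from this]
    simp only [ev, hg, hU, hΨ, hφ] at e ⊢
    push_cast at e ⊢
    linear_combination (-((m + 2) * Complex.exp ((m + 2) * (ev q.l z / C.S + δ z)) / C.S)) * e
  have rec1 := TS_congr ev1
  have ag : AnalyticAt ℂ g 0 := dg'.add (an dg)
  rw [TS_add (by fun_prop) (by fun_prop), TS_cmul, TS_cmul, TS_cmul, TS_mul (by fun_prop) aU', TS_pow,
    TS_add (by fun_prop) (by fun_prop), TS_cmul, TS_mul ag aU] at rec1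
  have hm2 : (0 : ℝ) < m + 2 := by positivity
  have hl' : (m + 2 : ℝ) = 2 * (k + 1) + l := by exact_mod_cast hl
  have cv0 : (0 : ℝ) < q.cv := by exact_mod_cast b9
  have mono := mono_coeff hf (by rw [hf0]; positivity) hG b2 cv0 q.cu.cast_nonneg hm2.le
    (w := ω.headD 0 / C.S) (L := l + 2) (fun j => by
      have := congrArg (coeff j) rec1
      simp only [map_add, coeff_C_mul, TS_deriv, pow_one] at this
      push_cast at this ⊢
      rw [← hf, ← hf, ← this]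
      cases j <;> simp [coeff_succ_X_mul, TS_deriv])
    (le_trans (by
      rw [← mul_assoc]
      exact mul_le_mul_of_nonneg_right (by linarith only [hl', hk]) (by positivity))
      (mul_le_mul_of_nonneg_left b1 hm2.le)) (l + 2) (by simp)
  have δ0 : (q.δ : ℂ) ≠ 0 := by exact_mod_cast b6.ne'
  set E : ℝ := 2 * (q.p.K1 / q.m / q.m * q.p.K2) / R ^ (m + 2)
  have hE : E ≤ (coeff 0 (TS U)).re := by
    rw [hf0, div_le_iff₀ (by positivity), show (m + 2 : ℝ) = (m + 2 : ℕ) by simp, Real.exp_nat_mul,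
      ← mul_pow]
    refine c4.trans ((pow_le_pow_right₀ c3 hn).trans (pow_le_pow_left₀ (by linarith only [c3])
      (c1.trans ?_) _))
    rw [mul_comm]
    refine mul_le_mul_of_nonneg_right ?_ hR
    rw [show (Ψ 0).re = (8 : ℕ) * ((Ψ 0).re / 8) by push_cast; ring, Real.exp_nat_mul]
    refine pow_le_pow_left₀ c2 (le_trans ?_ (Real.add_one_le_exp _)) _
    have := (abs_le.1 ((Complex.abs_re_le_norm _).trans (hδ 0 (by simp)).1)).1
    have e : (Ψ 0).re = q.l.headD 0 / C.S + (δ 0).re := by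
      simp only [hΨ, hφ]; rw [ev_head]; simp
    linarith only [this, e]
  have fin : ∀ k l : ℕ, 2 * k + l = m + 2 → |a (m + 2) k * (q.c ^ (m + 2) / (m + 1).factorial) * (q.δ * x) ^ l -
      2 * ((coeff l (TS U)).re * x ^ l)| ≤ E := fun k l h => by
    have k2 := k1 l
    rw [TS_add (dp.analyticAt 0) (an ((dU.const_mul _).fun_add (dU'.const_mul _))),
      TS_add (an (dU.const_mul _)) (an (dU'.const_mul _)), TS_cmul, TS_cmul, TS_cmul] at k2
    simp only [map_add, coeff_C_mul, TS_neg_arg, TS_pu δ0 h] at k2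
    refine le_trans ?_ ((mul_le_mul_of_nonneg_left (pow_le_pow_left₀ b2.le b3.le l)
      (norm_nonneg _)).trans k2)
    have : (-1 : ℂ) ^ m * (-1) ^ l = 1 := by
      rw [← pow_add]; exact Even.neg_one_pow ⟨m + 1 - k, by omega⟩
    have e : ∀ z : ℂ, ‖z‖ * x ^ l = ‖z * x ^ l‖ := fun z => by
      rw [norm_mul, norm_pow, Complex.norm_of_nonneg b2.le]
    rw [e, ← Real.norm_eq_abs, ← Complex.norm_real]
    refine le_of_eq (congrArg _ ?_)
    push_cast
    rw [← hf]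
    linear_combination (coeff l (TS U) * (x : ℂ) ^ l) * this
  have f1 := (abs_le.1 (fin (k + 1) l hl.symm)).2
  have f2 := (abs_le.1 (fin k (l + 2) (by omega))).1
  have m1 := mono l (by omega)
  have m2 := mono (l + 2) le_rfl
  have hf1 : (0 : ℝ) < q.c ^ (m + 2) / (m + 1).factorial := by positivity
  generalize (q.c : ℝ) ^ (m + 2) / (m + 1).factorial = F at f1 f2 hf1
  have y0 : 0 < q.δ * x := by positivity
  have y1 : (q.δ * x) ^ 2 ≤ 1 / 4 := by nlinarith only [y0, b7]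
  have E0 : 0 ≤ E := (abs_nonneg _).trans (fin k (l + 2) (by omega))
  have : a (m + 2) (k + 1) * F * (q.δ * x) ^ (l + 2) ≤ a (m + 2) k * F * (q.δ * x) ^ (l + 2) := by
    have f3 : 0 ≤ a (m + 2) (k + 1) * F * (q.δ * x) ^ l := by positivity
    have f4 := mul_le_mul_of_nonneg_left y1 f3
    rw [mul_assoc, ← pow_add] at f4
    linarith only [f1, f2, m1.2, m2.1, hE, E0, f4]
  exact_mod_cast le_of_mul_le_mul_right (le_of_mul_le_mul_right this (by positivity)) hf1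

end Pool.Agent.Lib.MP_3b1384_co
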